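import Pool.Agent.W_1b8d5d_p.FrX
import Pool.Agent.W_1b8d5d_p.ZRec

/-!
MP_1b8d5d_pr, track P: the luck bound for a bounded density (2c') at zero temperature. Slots of length `l`, a traveller who
visits reference points and accepts a slot with probability `f / D`; continuation from the end of the luckiest slab walk of the
accepted slot. (helper4; compare `W_7d29a1_h60/LuckDens` of helper60)
-/

namespace Pool.Agent.W_1b8d5d_h4p

open MeasureTheory Set
open Pool.Agent.W_1b8d5d_h85 (V dir Env Edge grid wedges cost Bd sh)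
open Pool.Agent.W_1b8d5d_p Pool.Agent.W_1b8d5d_z

noncomputable section

section bm

variable {α : Type} [MeasurableSpace α]

theorem bm_sum {ι : Type*} (s : Finset ι) {f : ι → α → ℝ} (h : ∀ i ∈ s, BM (f i)) : BM fun x => ∑ i ∈ s, f i x := by
  classical
  induction s using Finset.induction_on with
  | empty => simpa using BM.const (α := α) 0
  | insert i s hi ih =>
    have h1 := (h i (Finset.mem_insert_self _ _)).add (ih fun j hj => h j (Finset.mem_insert_of_mem hj))
    have e : (fun x => ∑ j ∈ insert i s, f j x) = fun x => f i x + ∑ j ∈ s, f j x := by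
      funext x
      rw [Finset.sum_insert hi]
    rw [e]
    exact h1

theorem bm_prod {ι : Type*} (s : Finset ι) {f : ι → α → ℝ} (h : ∀ i ∈ s, BM (f i)) : BM fun x => ∏ i ∈ s, f i x := by
  classical
  induction s using Finset.induction_on with
  | empty => simpa using BM.const (α := α) 1
  | insert i s hi ih =>
    have h1 := (h i (Finset.mem_insert_self _ _)).mul (ih fun j hj => h j (Finset.mem_insert_of_mem hj))
    have e : (fun x => ∏ j ∈ insert i s, f j x) = fun x => f i x * ∏ j ∈ s, f j x := by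
      funext x
      rw [Finset.prod_insert hi]
    rw [e]
    exact h1

theorem bm_max {F G : α → ℝ} (h : BM F) (k : BM G) : BM fun x => Max.max (F x) (G x) := by
  obtain ⟨hm, C, hC⟩ := h
  obtain ⟨km, D, hD⟩ := k
  refine ⟨hm.max km, |C| + |D|, fun x => ?_⟩
  show |Max.max (F x) (G x)| ≤ |C| + |D|
  rcases max_choice (F x) (G x) with e | e
  · rw [e]
    linarith [hC x, le_abs_self C, abs_nonneg D]
  · rw [e]
    linarith [hD x, le_abs_self D, abs_nonneg C]

end bm

variable {F : Fm} {κ : ℝ} {d : Dr}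

theorem bm_X (hd : Adm F κ d) (a : Pt) {n : ℕ} (hn : 1 ≤ n) (y : ℤ) : BM fun η => X F d η a n y :=
  ⟨X_meas F d a n y, _, fun η => abs_X_le hd η a hn y⟩

theorem bm_VV (hd : Adm F κ d) (a : Pt) {n : ℕ} (hn : 1 ≤ n) : BM fun η => VV F d η a n :=
  ⟨VV_meas F d a n, C1 F * n + 4 * F.b, fun η => by
    have h1 := VV_upper hd η a hn
    have h2 := VV_lower hd η a hn
    have h3 := b_pos F
    rw [abs_le]
    constructor <;> linarith⟩

/-- The measurable selection of the end of the luckiest slab walk, as weights. -/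
theorem exists_arg (hd : Adm F κ d) {m : ℕ} (hm : 1 ≤ m) : ∃ (I : Finset ℤ) (f : ℤ → Env → ℝ),
    (∀ y, Measurable (f y)) ∧ (∀ y η, 0 ≤ f y η) ∧ (∀ y η, f y η ≤ 1) ∧
    (∀ y, DependsOn (f y) (F.co.slab 0 m)) ∧
    ∀ (η : Env) (g : ℤ → ℝ), ∃ y₀ ∈ I, VV F d η 0 m = -X F d η 0 m y₀ ∧ ∑ y ∈ I, f y η * g y = g y₀ := by
  classical
  have hM : (1 : ℝ) ≤ F.co.M := by exact_mod_cast F.co.M_pos
  have hκ := hd.κ0
  obtain ⟨K, hK⟩ := exists_nat_gt ((2 * C1 F + 4 * F.b) * m / (κ * F.co.M))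
  rw [div_lt_iff₀ (by positivity)] at hK
  set I := Finset.Icc (-(K : ℤ)) K with hI
  have hex : ∀ η, ∃ y ∈ I, VV F d η 0 m = -X F d η 0 m y := by
    intro η
    obtain ⟨y, h1, h2⟩ := VV_attained hd η 0 hm
    refine ⟨y, ?_, h1⟩
    have h3 : κ * F.co.M * |(y : ℝ)| < κ * F.co.M * K := by linarith
    have h4 : |(y : ℝ)| < K := lt_of_mul_lt_mul_left h3 (by positivity)
    rw [abs_lt] at h4
    rw [hI, Finset.mem_Icc]
    constructor
    · have : (-(K : ℝ)) ≤ y := h4.1.le
      exact_mod_cast this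
    · exact_mod_cast h4.2.le
  set A : ℤ → Set Env := fun y =>
    {η | VV F d η 0 m = -X F d η 0 m y ∧ ∀ y' ∈ I, y' < y → VV F d η 0 m ≠ -X F d η 0 m y'} with hA
  have hAm : ∀ y, MeasurableSet (A y) := by
    intro y
    have h1 : MeasurableSet {η : Env | VV F d η 0 m = -X F d η 0 m y} :=
      measurableSet_eq_fun (VV_meas F d 0 m) (X_meas F d 0 m y).neg
    have h2 : MeasurableSet {η : Env | ∀ y' ∈ I, y' < y → VV F d η 0 m ≠ -X F d η 0 m y'} := by
      have : {η : Env | ∀ y' ∈ I, y' < y → VV F d η 0 m ≠ -X F d η 0 m y'} =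
          ⋂ y' ∈ I, {η : Env | y' < y → VV F d η 0 m ≠ -X F d η 0 m y'} := by
        ext η; simp
      rw [this]
      refine Finset.measurableSet_biInter I fun y' _ => ?_
      by_cases h : y' < y
      · simp only [h, true_imp_iff]
        exact (measurableSet_eq_fun (VV_meas F d 0 m) (X_meas F d 0 m y').neg).compl
      · simp only [h, false_imp_iff]
        exact MeasurableSet.univ
    exact h1.inter h2
  set f : ℤ → Env → ℝ := fun y => (A y).indicator fun _ => (1 : ℝ) with hf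
  refine ⟨I, f, fun y => measurable_const.indicator (hAm y), fun y η => Set.indicator_nonneg (fun _ _ => zero_le_one) η,
    fun y η => Set.indicator_le_self' (fun _ _ => zero_le_one) η, ?_, ?_⟩
  · intro y η η' hh
    have hh' : ∀ e ∈ F.co.slab (0 : Pt).1 ((0 : Pt).1 + m), η e = η' e := by
      intro e he
      exact hh e (by simpa using he)
    have h1 := VV_dep F d 0 m hh'
    have h2 : ∀ y', X F d η 0 m y' = X F d η' 0 m y' := fun y' => X_dep F d 0 m y' hh'
    simp only at h1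
    have h3 : η ∈ A y ↔ η' ∈ A y := by
      simp only [hA, Set.mem_ofPred_eq]
      rw [h1, h2]
      simp_rw [h2]
    simp only [hf]
    by_cases h : η ∈ A y
    · rw [Set.indicator_of_mem h, Set.indicator_of_mem (h3.1 h)]
    · rw [Set.indicator_of_notMem h, Set.indicator_of_notMem fun h4 => h (h3.2 h4)]
  · intro η g
    obtain ⟨y1, hy1, hy1'⟩ := hex η
    have hne : (I.filter fun y => VV F d η 0 m = -X F d η 0 m y).Nonempty := ⟨y1, Finset.mem_filter.2 ⟨hy1, hy1'⟩⟩
    set y₀ := (I.filter fun y => VV F d η 0 m = -X F d η 0 m y).min' hne with hy₀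
    have h1 := Finset.mem_filter.1 (Finset.min'_mem _ hne)
    have h2 : ∀ y' ∈ I, y' < y₀ → VV F d η 0 m ≠ -X F d η 0 m y' := by
      intro y' hy' hlt heq
      have h5 : y' ∈ I.filter fun y => VV F d η 0 m = -X F d η 0 m y := Finset.mem_filter.2 ⟨hy', heq⟩
      have := Finset.min'_le _ y' h5
      omega
    refine ⟨y₀, h1.1, h1.2, ?_⟩
    rw [Finset.sum_eq_single_of_mem y₀ h1.1]
    · simp only [hf]
      rw [Set.indicator_of_mem (show η ∈ A y₀ from ⟨h1.2, h2⟩), one_mul]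
    · intro y hy hne'
      simp only [hf]
      rw [Set.indicator_of_notMem, zero_mul]
      rintro ⟨g1, g2⟩
      rcases lt_or_gt_of_ne hne' with h | h
      · exact h2 y hy h g1
      · exact g2 y₀ h1.1 h h1.2

/-- Shifted slabs. -/
theorem mem_slab_shp {c : Co} {a : Pt} {l : ℕ} {e : Edge} (he : e ∈ c.slab 0 l) :
    ((e.1 + c.vt a, e.2) : Edge) ∈ c.slab a.1 (a.1 + l) := by
  have h := (sh_mem_slab c a 0 (l : ℤ) e.1 e.2).2 he
  rw [zero_add, add_comm] at h
  exact h

theorem dep_shp {g : Env → ℝ} {l : ℕ} (hg : DependsOn g (F.co.slab 0 l)) (a : Pt) :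
    DependsOn (fun η => g (F.shp a η)) (F.co.slab a.1 (a.1 + l)) := by
  intro η η' h
  refine hg fun e he => ?_
  show η (e.1 + F.co.vt a, e.2) = η' (e.1 + F.co.vt a, e.2)
  exact h _ (mem_slab_shp he)

theorem meas_shp {g : Env → ℝ} (hg : Measurable g) (a : Pt) : Measurable fun η => g (F.shp a η) :=
  hg.comp (mp_shp F a).measurable

theorem bm_shp {g : Env → ℝ} (hg : BM g) (a : Pt) : BM fun η => g (F.shp a η) := by
  obtain ⟨h1, C, hC⟩ := hg
  exact ⟨meas_shp h1 a, C, fun η => hC _⟩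

/-! ### The luck bound with acceptance weights -/

/-- The probability of surviving the first `i` slots. -/
def Sv (γ : ℕ → ℝ) (i : ℕ) : ℝ := ∏ j ∈ Finset.range i, (1 - γ j)

theorem Sv_sum (γ : ℕ → ℝ) (N : ℕ) : ∑ i ∈ Finset.range N, Sv γ i * γ i + Sv γ N = 1 := by
  induction N with
  | zero => simp [Sv]
  | succ N ih =>
    rw [Finset.sum_range_succ]
    have h : Sv γ (N + 1) = Sv γ N * (1 - γ N) := by
      unfold Sv
      rw [Finset.prod_range_succ]
    rw [h]
    linarith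

theorem Sv_nonneg {γ : ℕ → ℝ} (h : ∀ i, γ i ≤ 1) (i : ℕ) : 0 ≤ Sv γ i :=
  Finset.prod_nonneg fun j _ => by linarith [h j]

theorem Sv_le_one {γ : ℕ → ℝ} (h0 : ∀ i, 0 ≤ γ i) (h : ∀ i, γ i ≤ 1) (i : ℕ) : Sv γ i ≤ 1 :=
  Finset.prod_le_one (fun j _ => by linarith [h j]) fun j _ => by linarith [h0 j]

/-- The luck bound with acceptance weights `g` of one slot, `q = E g`: `N` slots of length `l`, reference points
`(i l, z i)`. -/
theorem luck_w (hd : Adm F κ d) {l N : ℕ} (hl : 1 ≤ l) (hN : 1 ≤ N) (z : ℕ → ℤ) (hz0 : z 0 = 0) {A v : ℝ} (hA : 0 ≤ A)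
    {g : Env → ℝ} (hgm : Measurable g) (hg0 : ∀ η, 0 ≤ g η) (hg1 : ∀ η, g η ≤ 1) (hgd : DependsOn g (F.co.slab 0 l))
    (hX : ∀ i, 1 ≤ i → i ≤ N → ∫ η, max (X F d η 0 (i * l) (z i)) 0 ∂(law F) ≤ A)
    (hV : ∀ m, 1 ≤ m → m < N → -A ≤ ∫ η, VV F d η 0 (m * l) ∂(law F))
    (hVN : ∫ η, VV F d η 0 (N * l) ∂(law F) ≤ v) :
    (1 - (1 - ∫ η, g η ∂(law F)) ^ N) * ∫ η, g η * VV F d η 0 l ∂(law F) ≤
      (∫ η, g η ∂(law F)) * ((2 + N * ∫ η, g η ∂(law F)) * A + v) := by
  classical
  obtain ⟨q, hq⟩ : ∃ q : ℝ, q = ∫ η, g η ∂(law F) := ⟨_, rfl⟩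
  obtain ⟨G, hG⟩ : ∃ G : ℝ, G = ∫ η, g η * VV F d η 0 l ∂(law F) := ⟨_, rfl⟩
  obtain ⟨I, w, hwm, hw0, hw1, hwd, hwI⟩ := exists_arg hd hl
  have hwsum : ∀ η, ∑ y ∈ I, w y η = 1 := by
    intro η
    obtain ⟨y₀, -, -, h⟩ := hwI η fun _ => 1
    simpa using h
  have hgb : BM g := ⟨hgm, 1, fun η => by rw [abs_of_nonneg (hg0 η)]; exact hg1 η⟩
  have hwb : ∀ y, BM (w y) := fun y => ⟨hwm y, 1, fun η => by rw [abs_of_nonneg (hw0 y η)]; exact hw1 y η⟩
  have hq0 : 0 ≤ q := by
    rw [hq]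
    exact integral_nonneg hg0
  have hq1 : q ≤ 1 := by
    rw [hq]
    calc ∫ η, g η ∂(law F) ≤ ∫ _η, (1 : ℝ) ∂(law F) := integral_mono hgb.int (integrable_const _) hg1
      _ = 1 := by simp
  -- the reference points
  obtain ⟨a, ha⟩ : ∃ a : ℕ → Pt, a = fun i => (((i * l : ℕ) : ℤ), z i) := ⟨_, rfl⟩
  have ha1 : ∀ i, (a i).1 = ((i * l : ℕ) : ℤ) := fun i => by rw [ha]
  obtain ⟨γ, hγ⟩ : ∃ γ : ℕ → Env → ℝ, γ = fun i η => g (F.shp (a i) η) := ⟨_, rfl⟩
  have hγb : ∀ i, BM (γ i) := fun i => by rw [hγ]; exact bm_shp hgb _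
  have hγ0 : ∀ i η, 0 ≤ γ i η := fun i η => by rw [hγ]; exact hg0 _
  have hγ1 : ∀ i η, γ i η ≤ 1 := fun i η => by rw [hγ]; exact hg1 _
  have hγd : ∀ i, DependsOn (γ i) (F.co.slab ((i * l : ℕ) : ℤ) (((i + 1) * l : ℕ) : ℤ)) := by
    intro i
    have h := dep_shp (F := F) hgd (a i)
    rw [ha1] at h
    rw [hγ]
    have e : (((i + 1) * l : ℕ) : ℤ) = ((i * l : ℕ) : ℤ) + l := by push_cast; ring
    rw [e]
    exact h
  have hγq : ∀ i, ∫ η, γ i η ∂(law F) = q := by
    intro i
    rw [hγ, hq]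
    exact shp_int hgm (a i)
  -- survival
  obtain ⟨P, hP⟩ : ∃ P : ℕ → Env → ℝ, P = fun i η => Sv (fun j => γ j η) i := ⟨_, rfl⟩
  have hP0 : ∀ i η, 0 ≤ P i η := fun i η => by rw [hP]; exact Sv_nonneg (fun j => hγ1 j η) i
  have hP1 : ∀ i η, P i η ≤ 1 := fun i η => by rw [hP]; exact Sv_le_one (fun j => hγ0 j η) (fun j => hγ1 j η) i
  have hPb : ∀ i, BM (P i) := by
    intro i
    have h := bm_prod (Finset.range i) (f := fun j η => 1 - γ j η) fun j _ => (BM.const 1).sub (hγb j)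
    rw [hP]
    exact h
  have hPsum : ∀ η, ∑ i ∈ Finset.range N, P i η * γ i η + P N η = 1 := fun η => by
    rw [hP]
    exact Sv_sum _ _
  have hslab : ∀ j i : ℕ, j < i → F.co.slab ((j * l : ℕ) : ℤ) (((j + 1) * l : ℕ) : ℤ) ⊆ F.co.slab 0 ((i * l : ℕ) : ℤ) := by
    intro j i hji
    refine Co.slab_mono ?_ ?_
    · exact Int.natCast_nonneg _
    · exact_mod_cast Nat.mul_le_mul_right l hji
  have hPd : ∀ i, DependsOn (P i) (F.co.slab 0 ((i * l : ℕ) : ℤ)) := by
    intro i η η' h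
    rw [hP]
    show Sv _ i = Sv _ i
    unfold Sv
    refine Finset.prod_congr rfl fun j hj => ?_
    have h1 := hγd j fun e he => h e (hslab j i (Finset.mem_range.1 hj) he)
    show 1 - γ j η = 1 - γ j η'
    rw [h1]
  have hPint : ∀ i, ∫ η, P i η ∂(law F) = (1 - q) ^ i := by
    intro i
    rw [hP]
    show ∫ η, ∏ j ∈ Finset.range i, (1 - γ j η) ∂(law F) = (1 - q) ^ i
    rw [indep_prod (F := F) (Finset.range i) (fun j η => 1 - γ j η)
      (fun j => F.co.slab ((j * l : ℕ) : ℤ) (((j + 1) * l : ℕ) : ℤ)) (fun j _ => ((BM.const 1).sub (hγb j)).1) ?_ ?_]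
    · rw [Finset.prod_congr rfl (g := fun _ => 1 - q), Finset.prod_const, Finset.card_range]
      intro j _
      rw [integral_sub (integrable_const _) (hγb j).int, hγq]
      simp
    · intro j _ η η' h
      show 1 - γ j η = 1 - γ j η'
      rw [hγd j h]
    · intro i _ j _ hij
      rcases lt_or_gt_of_ne hij with h | h
      · refine Co.slab_disjoint ?_
        exact_mod_cast Nat.mul_le_mul_right l h
      · refine (Co.slab_disjoint ?_).symm
        exact_mod_cast Nat.mul_le_mul_right l h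
  -- the continuation
  obtain ⟨Vo, hVo⟩ : ∃ Vo : Env → Pt → ℕ → ℝ, Vo = fun η b m => if m = 0 then 0 else VV F d η b (m * l) := ⟨_, rfl⟩
  have hVob : ∀ b m, BM fun η => Vo η b m := by
    intro b m
    rw [hVo]
    by_cases hm : m = 0
    · simp only [hm, if_true]
      exact BM.const 0
    · simp only [hm, if_false]
      exact bm_VV hd b (Nat.mul_pos (Nat.pos_of_ne_zero hm) hl)
  have hVod : ∀ b m, DependsOn (fun η => Vo η b m) (F.co.slab b.1 (b.1 + ((m * l : ℕ) : ℤ))) := by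
    intro b m
    rw [hVo]
    by_cases hm : m = 0
    · simp only [hm, if_true]
      intro η η' _
      rfl
    · simp only [hm, if_false]
      exact VV_dep F d b (m * l)
  have hVoint : ∀ b m, ∫ η, Vo η b m ∂(law F) = ∫ η, Vo η 0 m ∂(law F) := by
    intro b m
    rw [hVo]
    by_cases hm : m = 0
    · simp only [hm, if_true]
    · simp only [hm, if_false]
      exact VV_int F d b (m * l)
  have hVoA : ∀ m, m < N → -A ≤ ∫ η, Vo η 0 m ∂(law F) := by
    intro m hm
    rw [hVo]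
    by_cases hm0 : m = 0
    · simp only [hm0, if_true, integral_zero]
      linarith
    · simp only [hm0, if_false]
      exact hV m (Nat.pos_of_ne_zero hm0) hm
  obtain ⟨R, hR⟩ : ∃ R : ℕ → Env → ℝ, R = fun i η => ∑ y ∈ I, w y (F.shp (a i) η) * Vo η (a i + ((l : ℤ), y)) (N - i - 1) :=
    ⟨_, rfl⟩
  have hRb : ∀ i, BM (R i) := fun i => by
    rw [hR]
    exact bm_sum I fun y _ => (bm_shp (hwb y) _).mul (hVob _ _)
  have hRint : ∀ i, ∫ η, P i η * γ i η * R i η ∂(law F) =
      (∫ η, P i η * γ i η ∂(law F)) * ∫ η, Vo η 0 (N - i - 1) ∂(law F) := by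
    intro i
    have e1 : ∀ η, P i η * γ i η * R i η =
        ∑ y ∈ I, (P i η * γ i η * w y (F.shp (a i) η)) * Vo η (a i + ((l : ℤ), y)) (N - i - 1) := by
      intro η
      rw [hR, Finset.mul_sum]
      exact Finset.sum_congr rfl fun y _ => by ring
    simp_rw [e1]
    have hb1 : ∀ y, BM fun η => P i η * γ i η * w y (F.shp (a i) η) := fun y =>
      ((hPb i).mul (hγb i)).mul (bm_shp (hwb y) _)
    rw [integral_finsetSum _ fun y _ => ((hb1 y).mul (hVob _ _)).int]
    have hd1 : ∀ y, DependsOn (fun η => P i η * γ i η * w y (F.shp (a i) η)) (F.co.slab 0 (((i + 1) * l : ℕ) : ℤ)) := by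
      intro y η η' h
      have h1 : P i η = P i η' := hPd i fun e he => h e (Co.slab_mono le_rfl
        (by exact_mod_cast Nat.mul_le_mul_right l (Nat.le_succ i)) he)
      have h2 : γ i η = γ i η' := hγd i fun e he => h e (hslab i (i + 1) (Nat.lt_succ_self i) he)
      have h3 : w y (F.shp (a i) η) = w y (F.shp (a i) η') := dep_shp (F := F) (hwd y) (a i) fun e he =>
        h e (hslab i (i + 1) (Nat.lt_succ_self i) (by
          rw [ha1] at he
          have e2 : (((i + 1) * l : ℕ) : ℤ) = ((i * l : ℕ) : ℤ) + l := by push_cast; ring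
          rw [e2]
          exact he))
      show P i η * γ i η * w y (F.shp (a i) η) = P i η' * γ i η' * w y (F.shp (a i) η')
      rw [h1, h2, h3]
    have h1 : ∀ y ∈ I, ∫ η, P i η * γ i η * w y (F.shp (a i) η) * Vo η (a i + ((l : ℤ), y)) (N - i - 1) ∂(law F) =
        (∫ η, P i η * γ i η * w y (F.shp (a i) η) ∂(law F)) * ∫ η, Vo η 0 (N - i - 1) ∂(law F) := by
      intro y _
      rw [integral_indep (F := F) (hb1 y).1 (hVob _ _).1 (hd1 y) (hVod _ _), hVoint]
      refine Co.slab_disjoint ?_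
      simp only [Prod.fst_add, ha1]
      push_cast
      linarith
    rw [Finset.sum_congr rfl h1, ← Finset.sum_mul, ← integral_finsetSum _ fun y _ => (hb1 y).int]
    congr 1
    refine integral_congr_ae (Filter.Eventually.of_forall fun η => ?_)
    show ∑ y ∈ I, P i η * γ i η * w y (F.shp (a i) η) = P i η * γ i η
    rw [← Finset.mul_sum, hwsum, mul_one]
  -- the pointwise inequality
  obtain ⟨Ai, hAi⟩ : ∃ Ai : ℕ → Env → ℝ, Ai = fun i η => if i = 0 then 0 else max (X F d η 0 (i * l) (z i)) 0 := ⟨_, rfl⟩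
  have hAib : ∀ i, BM (Ai i) := by
    intro i
    rw [hAi]
    by_cases hi : i = 0
    · simp only [hi, if_true]
      exact BM.const 0
    · simp only [hi, if_false]
      exact bm_max (bm_X hd 0 (Nat.mul_pos (Nat.pos_of_ne_zero hi) hl) _) (BM.const 0)
  have hAi0 : ∀ i η, 0 ≤ Ai i η := by
    intro i η
    rw [hAi]
    show 0 ≤ (if i = 0 then 0 else max (X F d η 0 (i * l) (z i)) 0)
    split_ifs
    · exact le_rfl
    · exact le_max_right _ _
  have hAid : ∀ i, DependsOn (Ai i) (F.co.slab 0 ((i * l : ℕ) : ℤ)) := by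
    intro i η η' h
    rw [hAi]
    show (if i = 0 then 0 else max (X F d η 0 (i * l) (z i)) 0) = (if i = 0 then 0 else max (X F d η' 0 (i * l) (z i)) 0)
    have h0 : ∀ e ∈ F.co.slab (0 : Pt).1 ((0 : Pt).1 + ((i * l : ℕ) : ℤ)), η e = η' e := fun e he => h e (by simpa using he)
    have h1 := X_dep F d 0 (i * l) (z i) h0
    simp only at h1
    rw [h1]
  have hAiint : ∀ i, i ≤ N → ∫ η, Ai i η ∂(law F) ≤ A := by
    intro i hi
    rw [hAi]
    by_cases hi0 : i = 0
    · simp only [hi0, if_true, integral_zero]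
      exact hA
    · simp only [hi0, if_false]
      exact hX i (Nat.pos_of_ne_zero hi0) hi
  have hVs : ∀ i η, VV F d (F.shp (a i) η) 0 l = VV F d η (a i) l := fun i η => by rw [VV_shp, zero_add]
  have hXs : ∀ i η y, X F d (F.shp (a i) η) 0 l y = X F d η (a i) l y := fun i η y => by rw [X_shp, zero_add]
  have hslot : ∀ i, i < N → ∀ η, VV F d η (a i) l + R i η ≤ VV F d η (a i) ((N - i) * l) := by
    intro i hi η
    obtain ⟨y₀, -, h1, h2⟩ := hwI (F.shp (a i) η) fun y => Vo η (a i + ((l : ℤ), y)) (N - i - 1)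
    have h3 : R i η = Vo η (a i + ((l : ℤ), y₀)) (N - i - 1) := by
      rw [hR]
      exact h2
    rw [hVs, hXs] at h1
    rw [h3, h1, hVo]
    show -X F d η (a i) l y₀ + (if N - i - 1 = 0 then 0 else VV F d η (a i + ((l : ℤ), y₀)) ((N - i - 1) * l)) ≤ _
    by_cases hm : N - i - 1 = 0
    · rw [if_pos hm, add_zero]
      have e1 : N - i = 1 := by omega
      rw [e1, one_mul]
      exact neg_X_le_VV hd η (a i) hl y₀
    · rw [if_neg hm]
      have e1 : (N - i) * l = l + (N - i - 1) * l := by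
        obtain ⟨r, hr⟩ : ∃ r, N - i = r + 1 := ⟨N - i - 1, by omega⟩
        rw [hr, Nat.add_sub_cancel]
        ring
      rw [e1]
      exact VV_super hd η (a i) hl (Nat.mul_pos (Nat.pos_of_ne_zero hm) hl) y₀
  have hNl : 1 ≤ N * l := Nat.mul_pos hN hl
  have hend : ∀ i, i < N → ∀ η, -Ai i η + (VV F d η (a i) l + R i η) ≤ VV F d η 0 (N * l) := by
    intro i hi η
    have h1 := hslot i hi η
    by_cases hi0 : i = 0
    · subst hi0
      have e1 : a 0 = 0 := by
        rw [ha]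
        simp [hz0]
      rw [e1, Nat.sub_zero] at h1
      have e2 : Ai 0 η = 0 := by
        rw [hAi]
        simp
      rw [e1, e2]
      linarith
    · have e2 : Ai i η = max (X F d η 0 (i * l) (z i)) 0 := by
        rw [hAi]
        simp [hi0]
      have e3 : (0 : Pt) + (((i * l : ℕ) : ℤ), z i) = a i := by
        rw [ha, zero_add]
      have h2 := VV_super hd η 0 (m := i * l) (n := (N - i) * l) (Nat.mul_pos (Nat.pos_of_ne_zero hi0) hl)
        (Nat.mul_pos (by omega) hl) (z i)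
      rw [e3] at h2
      have e4 : i * l + (N - i) * l = N * l := by
        rw [← Nat.add_mul]
        congr 1
        omega
      rw [e4] at h2
      have h3 := le_max_left (X F d η 0 (i * l) (z i)) 0
      rw [e2]
      linarith
  have hlast : ∀ η, -Ai N η ≤ VV F d η 0 (N * l) := by
    intro η
    have e2 : Ai N η = max (X F d η 0 (N * l) (z N)) 0 := by
      rw [hAi]
      simp [show N ≠ 0 by omega]
    have h1 := neg_X_le_VV hd η 0 hNl (z N)
    have h3 := le_max_left (X F d η 0 (N * l) (z N)) 0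
    rw [e2]
    linarith
  have hpt : ∀ η, ∑ i ∈ Finset.range N, (P i η * (γ i η * VV F d η (a i) l) + P i η * γ i η * R i η - γ i η * Ai i η) -
      Ai N η ≤ VV F d η 0 (N * l) := by
    intro η
    obtain ⟨v', hv'⟩ : ∃ v', v' = VV F d η 0 (N * l) := ⟨_, rfl⟩
    have h1 : ∀ i ∈ Finset.range N, P i η * (γ i η * VV F d η (a i) l) + P i η * γ i η * R i η - γ i η * Ai i η ≤
        P i η * γ i η * v' := by
      intro i hi
      have h2 := hend i (Finset.mem_range.1 hi) η
      rw [← hv'] at h2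
      have h3 : 0 ≤ P i η * γ i η := mul_nonneg (hP0 i η) (hγ0 i η)
      have h4 := mul_le_mul_of_nonneg_left h2 h3
      have h5 : P i η * γ i η * Ai i η ≤ γ i η * Ai i η := by
        refine mul_le_mul_of_nonneg_right ?_ (hAi0 i η)
        exact mul_le_of_le_one_left (hγ0 i η) (hP1 i η)
      nlinarith
    have h2 := Finset.sum_le_sum h1
    rw [← Finset.sum_mul] at h2
    have h3 := hPsum η
    have h4 : ∑ i ∈ Finset.range N, P i η * γ i η = 1 - P N η := by linarith
    rw [h4] at h2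
    have h5 := mul_le_mul_of_nonneg_left (hlast η) (hP0 N η)
    rw [← hv'] at h5 ⊢
    have h6 : P N η * Ai N η ≤ Ai N η := mul_le_of_le_one_left (hAi0 N η) (hP1 N η)
    linarith
  -- the integrals
  have hVb : ∀ i, BM fun η => γ i η * VV F d η (a i) l := fun i => (hγb i).mul (bm_VV hd _ hl)
  have b1 : ∀ i, BM fun η => P i η * (γ i η * VV F d η (a i) l) := fun i => (hPb i).mul (hVb i)
  have b2 : ∀ i, BM fun η => P i η * γ i η * R i η := fun i => ((hPb i).mul (hγb i)).mul (hRb i)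
  have b3 : ∀ i, BM fun η => γ i η * Ai i η := fun i => (hγb i).mul (hAib i)
  have i1 : ∀ i, ∫ η, P i η * (γ i η * VV F d η (a i) l) ∂(law F) = (1 - q) ^ i * G := by
    intro i
    have hd2 : DependsOn (fun η => γ i η * VV F d η (a i) l) (F.co.slab ((i * l : ℕ) : ℤ) (((i + 1) * l : ℕ) : ℤ)) := by
      intro η η' h
      show γ i η * VV F d η (a i) l = γ i η' * VV F d η' (a i) l
      have h1 := VV_dep F d (a i) l (x := η) (y := η') (fun e he => h e (by
        rw [ha1] at he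
        have e2 : (((i + 1) * l : ℕ) : ℤ) = ((i * l : ℕ) : ℤ) + l := by push_cast; ring
        rw [e2]
        exact he))
      simp only at h1
      rw [hγd i h, h1]
    rw [integral_indep (F := F) (hPb i).1 (hVb i).1 (hPd i) hd2 (Co.slab_disjoint le_rfl), hPint i, hG]
    congr 1
    have e1 : ∀ η, γ i η * VV F d η (a i) l = (fun ξ => g ξ * VV F d ξ 0 l) (F.shp (a i) η) := by
      intro η
      show _ = g (F.shp (a i) η) * VV F d (F.shp (a i) η) 0 l
      rw [hVs, hγ]
    simp_rw [e1]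
    exact shp_int (F := F) (g := fun ξ => g ξ * VV F d ξ 0 l) (hgm.mul (VV_meas F d 0 l)) (a i)
  have i3 : ∀ i ∈ Finset.range N, ∫ η, γ i η * Ai i η ∂(law F) ≤ q * A := by
    intro i hi
    rw [integral_indep (F := F) (hγb i).1 (hAib i).1 (hγd i) (hAid i) (Co.slab_disjoint le_rfl).symm, hγq]
    exact mul_le_mul_of_nonneg_left (hAiint i (Finset.mem_range.1 hi).le) hq0
  have hint := integral_mono (μ := law F) (((bm_sum (Finset.range N) fun i _ => ((b1 i).add (b2 i)).sub (b3 i)).sub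
    (hAib N)).int) (bm_VV hd 0 hNl).int hpt
  rw [integral_sub (bm_sum (Finset.range N) fun i _ => ((b1 i).add (b2 i)).sub (b3 i)).int (hAib N).int,
    integral_finsetSum _ fun i _ => (((b1 i).add (b2 i)).sub (b3 i)).int] at hint
  have i4 : ∀ i ∈ Finset.range N, ∫ η, (P i η * (γ i η * VV F d η (a i) l) + P i η * γ i η * R i η - γ i η * Ai i η) ∂(law F) =
      (1 - q) ^ i * G + (∫ η, P i η * γ i η ∂(law F)) * (∫ η, Vo η 0 (N - i - 1) ∂(law F)) - ∫ η, γ i η * Ai i η ∂(law F) := by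
    intro i _
    rw [integral_sub ((b1 i).add (b2 i)).int (b3 i).int, integral_add (b1 i).int (b2 i).int, i1, hRint]
  rw [Finset.sum_congr rfl i4, Finset.sum_sub_distrib, Finset.sum_add_distrib, ← Finset.sum_mul] at hint
  have i5 : ∑ i ∈ Finset.range N, (∫ η, P i η * γ i η ∂(law F)) * (∫ η, Vo η 0 (N - i - 1) ∂(law F)) ≥ -A := by
    have h1 : ∀ i ∈ Finset.range N, (∫ η, P i η * γ i η ∂(law F)) * (-A) ≤
        (∫ η, P i η * γ i η ∂(law F)) * (∫ η, Vo η 0 (N - i - 1) ∂(law F)) := by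
      intro i hi
      have hi' := Finset.mem_range.1 hi
      exact mul_le_mul_of_nonneg_left (hVoA _ (by omega)) (integral_nonneg fun η => mul_nonneg (hP0 i η) (hγ0 i η))
    have h2 := Finset.sum_le_sum h1
    rw [← Finset.sum_mul, ← integral_finsetSum _ fun i _ => ((hPb i).mul (hγb i)).int] at h2
    have h3 : ∫ η, ∑ i ∈ Finset.range N, P i η * γ i η ∂(law F) ≤ 1 := by
      calc ∫ η, ∑ i ∈ Finset.range N, P i η * γ i η ∂(law F) ≤ ∫ _η, (1 : ℝ) ∂(law F) := by
            refine integral_mono (bm_sum (Finset.range N) fun i _ => (hPb i).mul (hγb i)).int (integrable_const _) fun η => ?_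
            have := hPsum η
            have := hP0 N η
            show ∑ i ∈ Finset.range N, P i η * γ i η ≤ 1
            linarith
        _ = 1 := by simp
    nlinarith
  have i6 : ∑ i ∈ Finset.range N, ∫ η, γ i η * Ai i η ∂(law F) ≤ N * (q * A) := by
    refine (Finset.sum_le_sum i3).trans_eq ?_
    rw [Finset.sum_const, Finset.card_range, nsmul_eq_mul]
  have i7 := hAiint N le_rfl
  have i8 : q * ∑ i ∈ Finset.range N, (1 - q) ^ i = 1 - (1 - q) ^ N := by
    have h1 := geom_sum_mul (1 - q) N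
    have e1 : (1 - q) - 1 = -q := by ring
    rw [e1] at h1
    linarith
  rw [← hq, ← hG, ← i8]
  have i9 : (∑ i ∈ Finset.range N, (1 - q) ^ i) * G ≤ (2 + N * q) * A + v := by linarith
  have := mul_le_mul_of_nonneg_left i9 hq0
  linarith

/-- `N` trials with success probability `q`, `N q ≤ 1`, fail with probability at most one half. -/
theorem half_le {q : ℝ} (h0 : 0 < q) (h1 : q ≤ 1) : ∃ N : ℕ, 1 ≤ N ∧ N * q ≤ 1 ∧ (1 - q) ^ N ≤ 1 / 2 := by
  obtain ⟨N, hN⟩ : ∃ N : ℕ, N = ⌊1 / q⌋₊ := ⟨_, rfl⟩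
  have hN1 : (N : ℝ) ≤ 1 / q := by
    rw [hN]
    exact Nat.floor_le (by positivity)
  have hN2 : 1 / q < N + 1 := by
    rw [hN]
    exact Nat.lt_floor_add_one _
  have hNp : N * q ≤ 1 := by
    rwa [le_div_iff₀ h0] at hN1
  have hNp2 : 1 < (N + 1) * q := by
    rwa [div_lt_iff₀ h0] at hN2
  have hN0 : 1 ≤ N := by
    rw [hN]
    refine Nat.le_floor ?_
    rw [Nat.cast_one, le_div_iff₀ h0, one_mul]
    exact h1
  refine ⟨N, hN0, hNp, ?_⟩
  have h1 : 1 - q ≤ N / (N + 1) := by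
    rw [le_div_iff₀ (by positivity)]
    nlinarith
  have h2 : (1 - q) ^ N ≤ ((N : ℝ) / (N + 1)) ^ N := pow_le_pow_left₀ (by linarith) h1 N
  have h3 : (2 : ℝ) ≤ ((N + 1 : ℝ) / N) ^ N := by
    have hN' : (0 : ℝ) < N := by exact_mod_cast hN0
    have h4 := one_add_mul_le_pow (a := 1 / (N : ℝ)) (by
      have : 0 < 1 / (N : ℝ) := by positivity
      linarith) N
    have h5 : 1 + (N : ℝ) * (1 / N) = 2 := by
      rw [mul_one_div_cancel hN'.ne']
      norm_num
    have h6 : (1 + 1 / (N : ℝ)) = (N + 1) / N := by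
      field_simp
    rw [h5, h6] at h4
    exact h4
  have h4 : ((N : ℝ) / (N + 1)) ^ N = 1 / (((N + 1 : ℝ) / N) ^ N) := by
    rw [← one_div_pow, one_div_div]
  rw [h4] at h2
  exact h2.trans (one_div_le_one_div_of_le (by norm_num) h3)

/-- (2c'): THE LUCK BOUND FOR A BOUNDED DENSITY: if all the reference displacements `(m, z m)`, `1 ≤ m ≤ M`, cost at most `A` in
the mean (positive part), and the mean luck is at most `0`, then the mean luck of a slot of length `l` under the law with density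
`f ≤ D`, `D l ≤ M`, is at most `6 A`. -/
theorem luck_density0 (hd : Adm F κ d) {l M : ℕ} (hl : 1 ≤ l) (z : ℕ → ℤ) {A D : ℝ}
    (hX : ∀ m, 1 ≤ m → m ≤ M → ∫ η, max (X F d η 0 m (z m)) 0 ∂(law F) ≤ A)
    (hV0 : ∀ m, 1 ≤ m → m ≤ M → ∫ η, VV F d η 0 m ∂(law F) ≤ 0)
    {f : Env → ℝ} (hfm : Measurable f) (hf0 : ∀ η, 0 ≤ f η) (hfD : ∀ η, f η ≤ D) (hf1 : ∫ η, f η ∂(law F) = 1)
    (hfd : DependsOn f (F.co.slab 0 l)) (hDM : D * l ≤ M) : ∫ η, f η * VV F d η 0 l ∂(law F) ≤ 6 * A := by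
  have hfb : BM f := ⟨hfm, D, fun η => by rw [abs_of_nonneg (hf0 η)]; exact hfD η⟩
  have hD1 : 1 ≤ D := by
    rw [← hf1]
    calc ∫ η, f η ∂(law F) ≤ ∫ _η, D ∂(law F) := integral_mono hfb.int (integrable_const _) hfD
      _ = D := by simp
  have hD0 : 0 < D := by linarith
  have hl' : (1 : ℝ) ≤ l := by exact_mod_cast hl
  have hM1 : 1 ≤ M := by
    have : (1 : ℝ) ≤ M := by nlinarith
    exact_mod_cast this
  have hA : 0 ≤ A := (integral_nonneg fun η => le_max_right _ _).trans (hX 1 le_rfl hM1)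
  obtain ⟨g, hg⟩ : ∃ g : Env → ℝ, g = fun η => f η / D := ⟨_, rfl⟩
  have hgm : Measurable g := by
    rw [hg]
    exact hfm.div_const D
  have hg0 : ∀ η, 0 ≤ g η := fun η => by
    rw [hg]
    exact div_nonneg (hf0 η) hD0.le
  have hg1 : ∀ η, g η ≤ 1 := fun η => by
    rw [hg]
    exact (div_le_one hD0).2 (hfD η)
  have hgd : DependsOn g (F.co.slab 0 l) := by
    intro η η' h
    rw [hg]
    show f η / D = f η' / D
    rw [hfd h]
  have hgi : ∫ η, g η ∂(law F) = 1 / D := by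
    rw [hg, integral_div, hf1]
  have hgV : ∫ η, g η * VV F d η 0 l ∂(law F) = (∫ η, f η * VV F d η 0 l ∂(law F)) / D := by
    rw [hg, ← integral_div]
    refine integral_congr_ae (Filter.Eventually.of_forall fun η => ?_)
    show f η / D * VV F d η 0 l = f η * VV F d η 0 l / D
    ring
  obtain ⟨N, hN0, hN1, hN2⟩ := half_le (q := 1 / D) (by positivity) (by
    rw [div_le_one hD0]
    exact hD1)
  have hND : (N : ℝ) ≤ D := by
    rw [mul_one_div, div_le_one hD0] at hN1
    exact hN1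
  have hNM : ∀ i ≤ N, i * l ≤ M := by
    intro i hi
    have h1 : ((i * l : ℕ) : ℝ) ≤ M := by
      have h2 : (i : ℝ) ≤ N := by exact_mod_cast hi
      have h3 : (0 : ℝ) ≤ l := Nat.cast_nonneg _
      push_cast
      nlinarith
    exact_mod_cast h1
  obtain ⟨z', hz'⟩ : ∃ z' : ℕ → ℤ, z' = fun i => if i = 0 then 0 else z (i * l) := ⟨_, rfl⟩
  have hz'0 : z' 0 = 0 := by rw [hz']; simp
  have hz'1 : ∀ i, 1 ≤ i → z' i = z (i * l) := by
    intro i hi
    rw [hz']
    show (if i = 0 then 0 else z (i * l)) = z (i * l)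
    rw [if_neg (by omega)]
  have hlb := luck_w hd hl hN0 z' hz'0 hA hgm hg0 hg1 hgd (fun i hi1 hi2 => by
      rw [hz'1 i hi1]
      exact hX (i * l) (Nat.mul_pos hi1 hl) (hNM i hi2)) (fun m hm1 hm2 => by
      have h1 : 1 ≤ m * l := Nat.mul_pos hm1 hl
      have h2 : ∫ η, -max (X F d η 0 (m * l) (z (m * l))) 0 ∂(law F) ≤ ∫ η, VV F d η 0 (m * l) ∂(law F) := by
        refine integral_mono (bm_max (bm_X hd 0 h1 _) (BM.const 0)).neg.int (bm_VV hd 0 h1).int fun η => ?_
        have h4 := neg_X_le_VV hd η 0 h1 (z (m * l))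
        have h5 := le_max_left (X F d η 0 (m * l) (z (m * l))) 0
        show -max (X F d η 0 (m * l) (z (m * l))) 0 ≤ VV F d η 0 (m * l)
        linarith
      rw [integral_neg] at h2
      have h3 := hX (m * l) h1 (hNM m hm2.le)
      linarith) (hV0 (N * l) (Nat.mul_pos hN0 hl) (hNM N le_rfl))
  rw [hgi, hgV] at hlb
  obtain ⟨G, hG⟩ : ∃ G : ℝ, G = ∫ η, f η * VV F d η 0 l ∂(law F) := ⟨_, rfl⟩
  rw [← hG] at hlb ⊢
  rw [show (1 - (1 - 1 / D) ^ N) * (G / D) = ((1 - (1 - 1 / D) ^ N) * G) / D by ring,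
    show 1 / D * ((2 + N * (1 / D)) * A + 0) = ((2 + N * (1 / D)) * A) / D by ring,
    div_le_div_iff_of_pos_right hD0] at hlb
  rcases le_or_gt G 0 with h | h
  · linarith
  · nlinarith

/-- (2c): a luck `Y > 6 A` of a slot of length `l` has probability less than `l / M`. -/
theorem luck_rare0 (hd : Adm F κ d) {l M : ℕ} (hl : 1 ≤ l) (z : ℕ → ℤ) {A Y : ℝ}
    (hX : ∀ m, 1 ≤ m → m ≤ M → ∫ η, max (X F d η 0 m (z m)) 0 ∂(law F) ≤ A)
    (hV0 : ∀ m, 1 ≤ m → m ≤ M → ∫ η, VV F d η 0 m ∂(law F) ≤ 0) (hY : 6 * A < Y) :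
    M * (law F).real {η | Y ≤ VV F d η 0 l} < l := by
  obtain ⟨p, hp⟩ : ∃ p : ℝ, p = (law F).real {η | Y ≤ VV F d η 0 l} := ⟨_, rfl⟩
  rw [← hp]
  have hl' : (1 : ℝ) ≤ l := by exact_mod_cast hl
  have hp0 : 0 ≤ p := by
    rw [hp]
    exact measureReal_nonneg
  rcases hp0.eq_or_lt with h0 | h0
  · rw [← h0, mul_zero]
    linarith
  by_contra hcon
  rw [not_lt] at hcon
  have hm : MeasurableSet {η : Env | Y ≤ VV F d η 0 l} := measurableSet_le measurable_const (VV_meas F d 0 l)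
  obtain ⟨f, hf⟩ : ∃ f : Env → ℝ, f = {η : Env | Y ≤ VV F d η 0 l}.indicator fun _ => 1 / p := ⟨_, rfl⟩
  have hfm : Measurable f := by
    rw [hf]
    exact measurable_const.indicator hm
  have hfd : DependsOn f (F.co.slab 0 l) := by
    intro η η' h
    have h0 : ∀ e ∈ F.co.slab (0 : Pt).1 ((0 : Pt).1 + (l : ℤ)), η e = η' e := fun e he => h e (by simpa using he)
    have h1 := VV_dep F d 0 l h0
    simp only at h1
    have h2 : η ∈ {η : Env | Y ≤ VV F d η 0 l} ↔ η' ∈ {η : Env | Y ≤ VV F d η 0 l} := by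
      rw [Set.mem_ofPred_eq, Set.mem_ofPred_eq, h1]
    rw [hf]
    by_cases h3 : η ∈ {η : Env | Y ≤ VV F d η 0 l}
    · rw [Set.indicator_of_mem h3, Set.indicator_of_mem (h2.1 h3)]
    · rw [Set.indicator_of_notMem h3, Set.indicator_of_notMem fun h4 => h3 (h2.2 h4)]
  have hf1 : ∫ η, f η ∂(law F) = 1 := by
    rw [hf, integral_indicator_const _ hm, ← hp, smul_eq_mul, mul_one_div_cancel h0.ne']
  have h1 := luck_density0 hd hl z (A := A) (D := 1 / p) hX hV0 hfm
    (fun η => by rw [hf]; exact Set.indicator_nonneg (fun _ _ => by positivity) η)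
    (fun η => by rw [hf]; exact Set.indicator_le_self' (fun _ _ => by positivity) η) hf1 hfd (by
      rw [one_div, inv_mul_le_iff₀ h0, mul_comm]
      exact hcon)
  have hfb : BM f := ⟨hfm, 1 / p, fun η => by
    rw [hf, abs_of_nonneg (Set.indicator_nonneg (fun _ _ => by positivity) η)]
    exact Set.indicator_le_self' (fun _ _ => by positivity) η⟩
  have h2 : ∫ η, f η * Y ∂(law F) ≤ ∫ η, f η * VV F d η 0 l ∂(law F) := by
    refine integral_mono (hfb.mul (BM.const Y)).int (hfb.mul (bm_VV hd 0 hl)).int fun η => ?_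
    show f η * Y ≤ f η * VV F d η 0 l
    rw [hf]
    by_cases h3 : η ∈ {η : Env | Y ≤ VV F d η 0 l}
    · rw [Set.indicator_of_mem h3]
      exact mul_le_mul_of_nonneg_left h3 (by positivity)
    · rw [Set.indicator_of_notMem h3, zero_mul, zero_mul]
  rw [integral_mul_const, hf1, one_mul] at h2
  linarith

end

end Pool.Agent.W_1b8d5d_h4p
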