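import Pool.Agent.W_1b8d5d_h4p.ClassZ

/-!
MP_1b8d5d_pr, track P: growth, cheap with probability `p` implies cheap in the mean (MC), soft scales `Sf`, concentration of the
luck functionals at scales which are not soft, growth of the unit at soft scales, the upper bound of the unit at soft scales.
All constants are uniform in the direction. (helper4)
-/

namespace Pool.Agent.W_1b8d5d_h4p

open MeasureTheory Set Filter Topology
open Pool.Agent.W_1b8d5d_h85 (V nm dir Env Edge grid wedges cost Bd sh)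
open Pool.Agent.W_1b8d5d_p
open Pool.Agent.W_1b8d5d_z (BM)

noncomputable section

variable {F : Fm} {c0 C0 κ : ℝ} {d : Dr}

/-- References of the mean cost at most the unit. -/
theorem exists_ref (hd : Adm F κ d) (n : ℕ) : ∃ z : ℕ → ℤ, ∀ m, 1 ≤ m → m ≤ n →
    ∫ η, max (X F d η 0 m (z m)) 0 ∂(law F) ≤ EE F d n := by
  choose z hz using es_attained hd
  refine ⟨z, fun m _ hm => ?_⟩
  have h1 := hz m
  have h2 := le_EE F d hm
  have h3 := Cr_pos F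
  unfold ep at h1
  linarith

/-- GROWTH: if a luck functional of length `l` fluctuates by `c U` with probability `c`, then `E G + K U ≤ 6 A`, `A` a bound of the
mean costs of references up to the time `D l`. -/
theorem growth0 (hL : LawH F c0 C0) {c K : ℝ} (hc : 0 < c) (hc1 : c ≤ 1) (hK : 0 ≤ K) : ∃ U₀ D : ℝ, 0 < U₀ ∧ 1 < D ∧
    ∀ (κ : ℝ) (d : Dr), Adm F κ d → Touch F d → ∀ (l M : ℕ) (z : ℕ → ℤ) (A : ℝ),
    (∀ m, 1 ≤ m → m ≤ M → ∫ η, max (X F d η 0 m (z m)) 0 ∂(law F) ≤ A) → D * l ≤ M →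
    ∀ G : Env → ℝ, Lk F κ d l G → ∀ U : ℝ, U₀ ≤ U →
    c ≤ (law F).real {η | c * U ≤ |G (F.tau η) - ∫ ξ, G (F.tau ξ) ∂(law F)|} →
    ∫ η, G (F.tau η) ∂(law F) + K * U ≤ 6 * A := by
  obtain ⟨D, U₀, hD, hU₀, hLA⟩ := la_law0 hL hc hc1 hK
  refine ⟨U₀, D, hU₀, hD, fun κ d hd ht l M z A hX hDM G hG U hU hfl => ?_⟩
  have hκ := hd.κ0.le
  obtain ⟨f, hf1, hf2, hf3, hf4, hf5, hf6⟩ := hLA _ G (hG.fz0 hκ) U hU hfl
  refine hf6.trans ?_
  have h1 := luck_density0 hd hG.l1 z hX (fun m hm _ => VV_mean_le hd ht hm) hf1 hf2 hf3 hf4 hf5 hDM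
  have hfb : BM f := ⟨hf1, D, fun η => by rw [abs_of_nonneg (hf2 η)]; exact hf3 η⟩
  refine le_trans (integral_mono (hfb.mul (hG.bm hκ)).int (hfb.mul (bm_VV hd 0 hG.l1)).int fun η =>
    mul_le_mul_of_nonneg_left (hG.le_VV hκ η) (hf2 η)) h1

/-- (MC): CHEAP WITH PROBABILITY `p` IMPLIES CHEAP IN THE MEAN. -/
theorem mean_of_prob0 (hL : LawH F c0 C0) {p : ℝ} (hp : 0 < p) : ∃ C D : ℝ, 0 < C ∧ 1 < D ∧
    ∀ (κ : ℝ) (d : Dr), Adm F κ d → Touch F d → ∀ (l M : ℕ) (z : ℕ → ℤ) (A : ℝ),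
    (∀ m, 1 ≤ m → m ≤ M → ∫ η, max (X F d η 0 m (z m)) 0 ∂(law F) ≤ A) → D * l ≤ M →
    ∀ G : Env → ℝ, Lk F κ d l G → ∀ y : ℝ, p ≤ (law F).real {η | -y ≤ G (F.tau η)} →
    -∫ η, G (F.tau η) ∂(law F) ≤ max (max (2 * y) C) (6 * A) := by
  obtain ⟨U₀, D, hU₀, hD, hg⟩ := growth0 hL (c := min p 1) (K := 4) (lt_min hp one_pos) (min_le_right _ _) (by norm_num)
  refine ⟨2 * U₀, D, by positivity, hD, fun κ d hd ht l M z A hX hDM G hG y hy => ?_⟩
  obtain ⟨m, hm⟩ : ∃ m, m = -∫ η, G (F.tau η) ∂(law F) := ⟨_, rfl⟩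
  rw [← hm]
  by_contra hcon
  rw [not_le, max_lt_iff, max_lt_iff] at hcon
  obtain ⟨⟨h1, h2⟩, h3⟩ := hcon
  have hM1 : 1 ≤ M := by
    have k1 : (1 : ℝ) ≤ l := by exact_mod_cast hG.l1
    have k2 : (1 : ℝ) ≤ M := by nlinarith
    exact_mod_cast k2
  have hA : 0 ≤ A := (integral_nonneg fun η => le_max_right _ _).trans (hX 1 le_rfl hM1)
  have hm' : ∫ η, G (F.tau η) ∂(law F) = -m := by rw [hm, neg_neg]
  have h4 := hg κ d hd ht l M z A hX hDM G hG (m / 2) (by linarith) ?_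
  · rw [hm'] at h4
    linarith
  · refine (min_le_left _ _).trans (hy.trans ?_)
    refine measureReal_mono (fun η hη => ?_) (measure_ne_top _ _)
    rw [Set.mem_ofPred_eq] at hη ⊢
    rw [hm']
    have k1 : min p 1 ≤ 1 := min_le_right _ _
    have k2 : 0 < min p 1 := lt_min hp one_pos
    have k3 : 0 < m := by linarith
    have k4 : min p 1 * (m / 2) ≤ m / 2 := by nlinarith
    refine k4.trans (le_trans ?_ (le_abs_self _))
    linarith

/-- (MC) in the unit. -/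
theorem mc0 (hL : LawH F c0 C0) {p : ℝ} (hp : 0 < p) : ∃ (T : ℕ) (C : ℝ), 1 ≤ T ∧ 0 < C ∧ ∀ (κ : ℝ) (d : Dr), Adm F κ d →
    Touch F d → ∀ l n : ℕ, T * l ≤ n → ∀ G : Env → ℝ, Lk F κ d l G → ∀ y : ℝ, p ≤ (law F).real {η | -y ≤ G (F.tau η)} →
    -∫ η, G (F.tau η) ∂(law F) ≤ max (max (2 * y) C) (6 * EE F d n) := by
  obtain ⟨C, D, hC, hD, hg⟩ := mean_of_prob0 hL hp
  obtain ⟨T, hT⟩ := exists_nat_ge D
  have hT1 : 1 ≤ T := by
    have : (1 : ℝ) ≤ T := hD.le.trans hT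
    exact_mod_cast this
  refine ⟨T, C, hT1, hC, fun κ d hd ht l n hTn G hG y hy => ?_⟩
  obtain ⟨z, hz⟩ := exists_ref hd n
  refine hg κ d hd ht l n z (EE F d n) hz ?_ G hG y hy
  refine (mul_le_mul_of_nonneg_right hT (Nat.cast_nonneg l)).trans ?_
  exact_mod_cast hTn

/-- The mean of minus the cost. -/
theorem int_negX (F : Fm) (d : Dr) (l : ℕ) (y : ℤ) :
    ∫ η, (fun τ : Env => -(TT F.co τ 0 l y - (al F.co d * l + be F.co d * y))) (F.tau η) ∂(law F) = -e F d l y := by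
  unfold e X
  rw [← integral_neg]

/-- (MC) for the cost: if `P(X ≤ y) ≥ p`, then `E X ≤ max (2 y) (C EE n)`, `T l ≤ n`. -/
theorem mc_X (hL : LawH F c0 C0) {p : ℝ} (hp : 0 < p) : ∃ (T : ℕ) (C : ℝ), 1 ≤ T ∧ 6 ≤ C ∧ ∀ (κ : ℝ) (d : Dr), Adm F κ d →
    Touch F d → ∀ l n : ℕ, 1 ≤ l → T * l ≤ n → ∀ (k : ℤ) (y : ℝ), p ≤ (law F).real {η | X F d η 0 l k ≤ y} →
    e F d l k ≤ max (2 * y) (C * EE F d n) := by
  obtain ⟨T, C, hT, hC, h⟩ := mc0 hL hp
  have hCr := Cr_pos F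
  refine ⟨T, max 6 (C / Cr F), hT, le_max_left _ _, fun κ d hd ht l n hl hTn k y hy => ?_⟩
  have h1 := h κ d hd ht l n hTn _ (lk_X hd hl k) y (by
    refine hy.trans_eq ?_
    congr 1
    ext η
    rw [Set.mem_ofPred_eq, Set.mem_ofPred_eq, neg_le_neg_iff]
    rfl)
  rw [int_negX, neg_neg] at h1
  have hE := Cr_le_EE F d n
  have hE0 := EE_pos F d n
  refine h1.trans (max_le (max_le (le_max_left _ _) (le_max_of_le_right ?_)) (le_max_of_le_right ?_))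
  · have k1 : C = C / Cr F * Cr F := by field_simp
    calc C = C / Cr F * Cr F := k1
      _ ≤ C / Cr F * EE F d n := mul_le_mul_of_nonneg_left hE (by positivity)
      _ ≤ max 6 (C / Cr F) * EE F d n := mul_le_mul_of_nonneg_right (le_max_right _ _) hE0.le
  · exact mul_le_mul_of_nonneg_right (le_max_left _ _) hE0.le

/-! ### Soft scales -/

/-- The scale `2 ^ x` is soft at the level `α`. -/
def Sf (F : Fm) (κ : ℝ) (d : Dr) (x : ℕ) (α : ℝ) : Prop :=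
  ∃ (l : ℕ) (G : Env → ℝ), (l : ℝ) ≤ (2 : ℝ) ^ ((x : ℝ) + α) ∧ Lk F κ d l G ∧
    -((2 : ℝ) ^ α * EE F d (2 ^ x)) ≤ ∫ η, G (F.tau η) ∂(law F) ∧
    (2 : ℝ) ^ (-α) ≤ (law F).real {η | (2 : ℝ) ^ (-α) * EE F d (2 ^ x) ≤ |G (F.tau η) - ∫ ξ, G (F.tau ξ) ∂(law F)|}

theorem Sf.mono {x : ℕ} {α β : ℝ} (h : Sf F κ d x α) (hαβ : α ≤ β) : Sf F κ d x β := by
  obtain ⟨l, G, h1, h2, h3, h4⟩ := h
  have hE := (EE_pos F d (2 ^ x)).le
  have k1 : (2 : ℝ) ^ α ≤ 2 ^ β := Real.rpow_le_rpow_of_exponent_le one_le_two hαβ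
  have k2 : (2 : ℝ) ^ (-β) ≤ 2 ^ (-α) := Real.rpow_le_rpow_of_exponent_le one_le_two (by linarith)
  refine ⟨l, G, h1.trans (Real.rpow_le_rpow_of_exponent_le one_le_two (by linarith)), h2, ?_, ?_⟩
  · have := mul_le_mul_of_nonneg_right k1 hE
    linarith
  · refine k2.trans (h4.trans (measureReal_mono (fun η hη => ?_) (measure_ne_top _ _)))
    rw [Set.mem_ofPred_eq] at hη ⊢
    exact (mul_le_mul_of_nonneg_right k2 hE).trans hη

/-- Not soft: every luck functional of length at most `2 ^ (x + α)` whose mean is not less than `- 2 ^ α EE` is concentrated. -/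
theorem conc_of_not_Sf {x : ℕ} {α : ℝ} (h : ¬ Sf F κ d x α) {l : ℕ} (hl : (l : ℝ) ≤ (2 : ℝ) ^ ((x : ℝ) + α)) {G : Env → ℝ}
    (hG : Lk F κ d l G) (hm : -((2 : ℝ) ^ α * EE F d (2 ^ x)) ≤ ∫ η, G (F.tau η) ∂(law F)) :
    (law F).real {η | (2 : ℝ) ^ (-α) * EE F d (2 ^ x) ≤ |G (F.tau η) - ∫ ξ, G (F.tau ξ) ∂(law F)|} < (2 : ℝ) ^ (-α) := by
  by_contra hcon
  exact h ⟨l, G, hl, hG, hm, not_lt.1 hcon⟩

/-- GROWTH AT SOFT SCALES, with any factor. -/
theorem grow_of_Sf0 (hL : LawH F c0 C0) {A : Set Dr} (hadm : ∀ d ∈ A, Adm F κ d) (ht : ∀ d ∈ A, Touch F d)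
    (hgr : Grow F A) {α : ℝ} (hα : 0 ≤ α) {B : ℝ} (hB : 0 ≤ B) :
    ∃ T x0 : ℕ, ∀ d ∈ A, ∀ x, x0 ≤ x → Sf F κ d x α → B * EE F d (2 ^ x) ≤ EE F d (2 ^ (x + T)) := by
  have h2a : (0 : ℝ) < 2 ^ α := Real.rpow_pos_of_pos two_pos _
  have h2b : (2 : ℝ) ^ (-α) ≤ 1 := by
    rw [Real.rpow_neg two_pos.le]
    exact inv_le_one_of_one_le₀ (Real.one_le_rpow one_le_two hα)
  obtain ⟨U₀, D, hU₀, hD, hg⟩ := growth0 hL (c := 2 ^ (-α)) (K := 2 ^ α + 6 * B)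
    (Real.rpow_pos_of_pos two_pos _) h2b (by positivity)
  obtain ⟨T, hT⟩ := pow_unbounded_of_one_lt (D * 2 ^ α) (one_lt_two : (1 : ℝ) < 2)
  obtain ⟨n0, hn0⟩ := hgr U₀
  refine ⟨T, n0, fun d hd x hx hS => ?_⟩
  obtain ⟨l, G, hl, hG, hmean, hfl⟩ := hS
  have hx2 : n0 ≤ 2 ^ x := hx.trans (Nat.lt_two_pow_self).le
  have hDM : D * l ≤ ((2 ^ (x + T) : ℕ) : ℝ) := by
    push_cast
    have e1 : (2 : ℝ) ^ ((x : ℝ) + α) = 2 ^ x * 2 ^ α := by
      rw [Real.rpow_add two_pos, Real.rpow_natCast]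
    rw [e1] at hl
    have e3 : D * l ≤ D * (2 ^ x * 2 ^ α) := mul_le_mul_of_nonneg_left hl (by linarith)
    have e4 : D * (2 ^ x * 2 ^ α) = 2 ^ x * (D * 2 ^ α) := by ring
    have e5 : (2 : ℝ) ^ x * (D * 2 ^ α) ≤ 2 ^ x * 2 ^ T := mul_le_mul_of_nonneg_left hT.le (by positivity)
    rw [pow_add]
    linarith
  obtain ⟨z, hz⟩ := exists_ref (hadm d hd) (2 ^ (x + T))
  have h1 := hg κ d (hadm d hd) (ht d hd) l (2 ^ (x + T)) z (EE F d (2 ^ (x + T))) hz hDM G hG (EE F d (2 ^ x))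
    (hn0 d hd _ hx2) hfl
  nlinarith

/-- The logarithm of the unit. -/
def gE (F : Fm) (d : Dr) (x : ℕ) : ℝ := Real.logb 2 (EE F d (2 ^ x))

/-- (growK): at a soft scale the unit grows by the factor `2 ^ K` within `T` octaves. -/
theorem growK0 (hL : LawH F c0 C0) {A : Set Dr} (hadm : ∀ d ∈ A, Adm F κ d) (ht : ∀ d ∈ A, Touch F d) (hgr : Grow F A)
    (α K : ℝ) : ∃ T x0 : ℕ, ∀ d ∈ A, ∀ x, x0 ≤ x → Sf F κ d x α → gE F d x + K ≤ gE F d (x + T) := by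
  have h2K : (0 : ℝ) < 2 ^ K := Real.rpow_pos_of_pos two_pos _
  obtain ⟨T, x0, h⟩ := grow_of_Sf0 hL hadm ht hgr (le_max_right α 0) (B := 2 ^ K) h2K.le
  refine ⟨T, x0, fun d hd x hx hS => ?_⟩
  have h1 := h d hd x hx (hS.mono (le_max_left _ _))
  have h2 := EE_pos F d (2 ^ x)
  have h3 : Real.logb 2 (2 ^ K * EE F d (2 ^ x)) ≤ Real.logb 2 (EE F d (2 ^ (x + T))) :=
    Real.logb_le_logb_of_le one_lt_two (by positivity) h1
  rw [Real.logb_mul h2K.ne' h2.ne', Real.logb_rpow two_pos (by norm_num)] at h3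
  unfold gE
  linarith

/-- (hV): at a soft scale the unit is at most of the order of the square root of the time. -/
theorem hV0 (hL : LawH F c0 C0) (hκ : 0 < κ) (α : ℝ) :
    ∃ C : ℝ, ∀ d : Dr, Adm F κ d → ∀ x : ℕ, Sf F κ d x α → gE F d x ≤ x / 2 + C := by
  have h2a : (0 : ℝ) < 2 ^ (-α) := Real.rpow_pos_of_pos two_pos _
  have h2b : (0 : ℝ) < 2 ^ α := Real.rpow_pos_of_pos two_pos _
  have hC1 := C1_pos F
  have hdd : 0 < F.b - F.a := sub_pos.2 hL.ab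
  obtain ⟨CE, hCE⟩ : ∃ CE : ℝ, CE = C1 F + 4 * F.b + Cr F := ⟨_, rfl⟩
  have hb := b_pos F
  have hCr := Cr_pos F
  have hCE0 : 0 < CE := by rw [hCE]; positivity
  obtain ⟨Q, hQ⟩ : ∃ Q : ℝ, Q = (F.b - F.a) ^ 2 / (κ / 2) * (C1 F * 2 ^ α + 2 ^ α * CE) := ⟨_, rfl⟩
  have hQ0 : 0 < Q := by
    rw [hQ]
    positivity
  refine ⟨(3 * α + Real.logb 2 Q) / 2, fun d hd x hS => ?_⟩
  obtain ⟨l, G, hl, hG, hmean, hfl⟩ := hS
  obtain ⟨E, hE⟩ : ∃ E, E = EE F d (2 ^ x) := ⟨_, rfl⟩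
  have hE0 : 0 < E := by
    rw [hE]
    exact EE_pos _ _ _
  -- the unit is at most linear
  have hElin : E ≤ CE * 2 ^ x := by
    have k1 : EE F d 1 ≤ CE := by
      refine EE_le F d fun m hm => ?_
      have k2 : es F d m ≤ C1 F + 4 * F.b := by
        rcases Nat.eq_zero_or_pos m with h0 | h0
        · rw [h0, es_zero]
          positivity
        · have hm1 : m = 1 := by omega
          subst hm1
          refine (es_le F d 1 0).trans ?_
          unfold ep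
          calc ∫ η, max (X F d η 0 1 0) 0 ∂(law F) ≤ ∫ _η, (C1 F + 4 * F.b) ∂(law F) := by
                refine integral_mono (bm_max (bm_X hd 0 le_rfl 0) (BM.const 0)).int (integrable_const _) fun η => ?_
                have k3 := X_upper hd η 0 (le_refl 1) 0
                simp only [Int.cast_zero, abs_zero, mul_zero, add_zero, Nat.cast_one, mul_one] at k3
                exact max_le k3 (by positivity)
            _ = _ := by simp
      rw [hCE]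
      linarith
    have k2 := EE_mul F d 1 (k := 2 ^ x) Nat.one_le_two_pow
    rw [mul_one] at k2
    push_cast at k2
    rw [hE]
    refine k2.trans ?_
    rw [mul_comm]
    exact mul_le_mul_of_nonneg_right k1 (by positivity)
  obtain ⟨m, hm⟩ : ∃ m, m = ∫ η, G (F.tau η) ∂(law F) := ⟨_, rfl⟩
  rw [← hE, ← hm] at hmean
  rw [← hE, ← hm] at hfl
  have hlx : (l : ℝ) ≤ 2 ^ x * 2 ^ α := by
    rw [Real.rpow_add two_pos, Real.rpow_natCast] at hl
    exact hl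
  have h1 := var_law0 hL (δ := κ / 2) (H := C1 F * l) (by linarith) hG.fz fun τ hτ =>
    (hG.le τ hτ).trans (VT_upper hd hτ 0 hG.l1)
  rw [← hm] at h1
  have h2 : (F.b - F.a) ^ 2 / (κ / 2) * (C1 F * l - m) ≤ Q * 2 ^ x := by
    rw [hQ, mul_assoc]
    refine mul_le_mul_of_nonneg_left ?_ (by positivity)
    have k1 : C1 F * l ≤ C1 F * (2 ^ x * 2 ^ α) := mul_le_mul_of_nonneg_left hlx hC1.le
    have k2 : -m ≤ 2 ^ α * (CE * 2 ^ x) := by
      have := mul_le_mul_of_nonneg_left hElin h2b.le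
      linarith
    calc C1 F * l - m ≤ C1 F * (2 ^ x * 2 ^ α) + 2 ^ α * (CE * 2 ^ x) := by linarith
      _ = (C1 F * 2 ^ α + 2 ^ α * CE) * 2 ^ x := by ring
  -- Chebyshev
  have hb2 : BM fun η => (G (F.tau η) - m) ^ 2 := ((hG.bm hκ.le).sub (BM.const m)).pow 2
  have hmeas : MeasurableSet {η : Env | 2 ^ (-α) * E ≤ |G (F.tau η) - m|} :=
    measurableSet_le measurable_const ((hG.bm hκ.le).1.sub_const m).abs
  have h3 : (2 ^ (-α) * E) ^ 2 * (law F).real {η | 2 ^ (-α) * E ≤ |G (F.tau η) - m|} ≤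
      ∫ η, (G (F.tau η) - m) ^ 2 ∂(law F) := by
    have k1 : ∫ η, {η : Env | 2 ^ (-α) * E ≤ |G (F.tau η) - m|}.indicator (fun _ => (2 ^ (-α) * E) ^ 2) η ∂(law F) ≤
        ∫ η, (G (F.tau η) - m) ^ 2 ∂(law F) := by
      refine integral_mono ((integrable_const _).indicator hmeas) hb2.int fun η => ?_
      by_cases hη : η ∈ {η : Env | 2 ^ (-α) * E ≤ |G (F.tau η) - m|}
      · rw [Set.indicator_of_mem hη]
        show (2 ^ (-α) * E) ^ 2 ≤ (G (F.tau η) - m) ^ 2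
        rw [← sq_abs (G (F.tau η) - m)]
        exact pow_le_pow_left₀ (by positivity) hη 2
      · rw [Set.indicator_of_notMem hη]
        exact sq_nonneg _
    rw [integral_indicator_const _ hmeas, smul_eq_mul, mul_comm] at k1
    exact k1
  have h4 : (2 ^ (-α) * E) ^ 2 * 2 ^ (-α) ≤ Q * 2 ^ x :=
    ((mul_le_mul_of_nonneg_left hfl (sq_nonneg _)).trans h3).trans (h1.trans h2)
  have h5 := Real.logb_le_logb_of_le one_lt_two (by positivity) h4
  have hp : (0 : ℝ) < 2 ^ x := by positivity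
  rw [Real.logb_mul (by positivity) h2a.ne', Real.logb_pow, Real.logb_mul h2a.ne' hE0.ne',
    Real.logb_rpow two_pos (by norm_num), Real.logb_mul hQ0.ne' hp.ne', Real.logb_pow, Real.logb_self_eq_one one_lt_two,
    mul_one] at h5
  have h6 : gE F d x = Real.logb 2 E := by rw [gE, hE]
  rw [h6]
  push_cast at h5
  linarith

end

end Pool.Agent.W_1b8d5d_h4p
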