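import Pool.Agent.W_1b8d5d_h4p.LAz
import Pool.Agent.W_1b8d5d_h4p.LuckZ

/-!
MP_1b8d5d_pr, track P: the Efron - Stein inequality at zero temperature: the variance of a functional of the class is at most a
constant times the mean number of edges of the maximal term, which is at most `(H - E G) / δ` if `G ≤ H` for all weights at least
`a - δ`; the variance of the cost `X` is at most linear. (helper4)
-/

namespace Pool.Agent.W_1b8d5d_h4p

open MeasureTheory Set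
open Pool.Agent.W_1b8d5d_h85 (V nm dir Env Edge grid wedges cost Bd sh)
open Pool.Agent.W_1b8d5d_p
open Pool.Agent.W_7d29a1_h42 (PN)
open Pool.Agent.W_1b8d5d_LE (Mx Dx Pot0_Mx Pot0 IsP0 Dens)

noncomputable section

section pure

open Pool.Agent.W_1b8d5d_z

/-- One coordinate. -/
theorem es_one {Q : ℝ → ℝ} {a b : ℝ} (hQ : Qf Q a b) {γ f : ℝ → ℝ} (hγ : BM γ) (hγ0 : ∀ x, 0 ≤ γ x)
    (hγ1 : ∀ x, γ x ≤ 1) (hf : BM f) (hsub : ∀ x y, f x + γ x * (Q y - Q x) ≤ f y) :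
    Pool.Agent.W_1b8d5d_z.Vr f ≤ ∫ x, γ x ∂U01 := by
  obtain ⟨m, hm⟩ : ∃ m, m = ∫ x, f x ∂U01 := ⟨_, rfl⟩
  obtain ⟨g, hg⟩ : ∃ g, g = ∫ x, γ x ∂U01 := ⟨_, rfl⟩
  obtain ⟨v, hv⟩ : ∃ v, v = Pool.Agent.W_1b8d5d_z.Vr f := ⟨_, rfl⟩
  have h1 : ∀ x y, (f x - f y) ^ 2 ≤ γ x + γ y := by
    intro x y
    have k1 : f x - f y ≤ γ x := by
      have := hsub x y
      have h2 := hQ.osc x y
      have h3 : γ x * (Q x - Q y) ≤ γ x * 1 := mul_le_mul_of_nonneg_left (by linarith [(abs_le.1 h2).1]) (hγ0 x)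
      linarith
    have k2 : f y - f x ≤ γ y := by
      have := hsub y x
      have h2 := hQ.osc y x
      have h3 : γ y * (Q y - Q x) ≤ γ y * 1 := mul_le_mul_of_nonneg_left (by linarith [(abs_le.1 h2).1]) (hγ0 y)
      linarith
    have := hγ0 x
    have := hγ0 y
    have := hγ1 x
    have := hγ1 y
    rcases le_total (f y) (f x) with h | h
    · nlinarith
    · nlinarith
  have h2 : ∀ y, v + (m - f y) ^ 2 ≤ g + γ y := by
    intro y
    have e1 := int_sq hf (f y)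
    rw [← hm, ← hv] at e1
    rw [← e1, hg]
    have e2 : ∫ x, (f x - f y) ^ 2 ∂U01 ≤ ∫ x, (γ x + γ y) ∂U01 :=
      integral_mono (((hf.sub (BM.const (f y))).pow 2).int) (hγ.add (BM.const (γ y))).int fun x => h1 x y
    rw [integral_add hγ.int (integrable_const _)] at e2
    simpa using e2
  have h3 : ∫ y, (v + (m - f y) ^ 2) ∂U01 ≤ ∫ y, (g + γ y) ∂U01 :=
    integral_mono ((BM.const v).add (((BM.const m).sub hf).pow 2)).int ((BM.const g).add hγ).int h2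
  rw [integral_add (integrable_const _) (((BM.const m).sub hf).pow 2).int, integral_add (integrable_const _) hγ.int, ← hg] at h3
  have h4 : ∫ y, (m - f y) ^ 2 ∂U01 = v := by
    rw [hv, Pool.Agent.W_1b8d5d_z.Vr, ← hm]
    refine integral_congr_ae (Filter.Eventually.of_forall fun y => ?_)
    show (m - f y) ^ 2 = (f y - m) ^ 2
    ring
  rw [h4] at h3
  simp only [integral_const, probReal_univ, one_smul] at h3
  rw [← hg, ← hv]
  linarith

/-- EFRON - STEIN for functions with a subgradient in `[0, 1]`. -/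
theorem es_key {Q : ℝ → ℝ} {a b : ℝ} (hQ : Qf Q a b) (N : ℕ) : ∀ (F : (Fin N → ℝ) → ℝ) (g : Fin N → (Fin N → ℝ) → ℝ),
    SG Q N g F → VarN (PN U01 N) F ≤ ∑ i, ∫ x, g i x ∂(PN U01 N) := by
  induction N with
  | zero =>
    intro F g hF
    have e1 : ∀ x : Fin 0 → ℝ, F x = F 0 := fun x => by rw [Subsingleton.elim x 0]
    unfold VarN
    simp_rw [e1]
    simp
  | succ N ih =>
    intro F g hF
    have hb := hF.bm hQ
    rw [varN_succ hb, Fin.sum_univ_succ]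
    have hone := hF.one hQ
    have h1 : Pool.Agent.W_1b8d5d_z.Vr (fm F) ≤ ∫ r, fm (g 0) r ∂U01 := by
      refine es_one hQ (hF.bg 0).fm ?_ ?_ hb.fm ?_
      · exact fun x => integral_nonneg fun z => hF.g0 _ _
      · intro x
        calc fm (g 0) x ≤ ∫ _z : Fin N → ℝ, (1 : ℝ) ∂(PN U01 N) :=
              integral_mono ((hF.bg 0).sc x).int (integrable_const _) fun z => hF.g1 _ _
          _ = 1 := by simp
      · exact hone.sub
    have h2 : ∫ r, VarN (PN U01 N) (sc F r) ∂U01 ≤ ∫ r, ∑ i : Fin N, fm (g i.succ) r ∂U01 := by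
      refine integral_mono (varN_sec_bm hb).int (bm_sum Finset.univ fun i _ => (hF.bg i.succ).fm).int fun r => ?_
      exact ih (sc F r) _ (hF.sec r)
    rw [integral_finsetSum _ fun i _ => (hF.bg i.succ).fm.int] at h2
    rw [int_fm (hF.bg 0)]
    refine add_le_add h1 (h2.trans (le_of_eq ?_))
    exact Finset.sum_congr rfl fun i _ => (int_fm (hF.bg i.succ)).symm

/-- The same for the law `ν`. -/
theorem es_nu {r R : ℝ} (hr : 0 < r) {ν : Measure ℝ} [IsProbabilityMeasure ν] (h1 : ENNReal.ofReal r • U01 ≤ ν)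
    (h2 : ν ≤ ENNReal.ofReal R • U01) {N : ℕ} {F : (Fin N → ℝ) → ℝ} {g : Fin N → (Fin N → ℝ) → ℝ} (hF : SW N g F) :
    ∫ x, (F x - ∫ y, F y ∂(PN ν N)) ^ 2 ∂(PN ν N) ≤ ∫ x, ∑ i, g i x ∂(PN ν N) := by
  obtain ⟨Q, hQ, hQ1, hQν⟩ := exists_Q hr h1 h2
  have hQm : Measurable Q := hQ.mono.measurable
  have hm : Measurable fun (x : Fin N → ℝ) (j : Fin N) => Q (x j) :=
    measurable_pi_lambda _ fun j => hQm.comp (measurable_pi_apply j)
  have hint : ∀ f : (Fin N → ℝ) → ℝ, Measurable f → ∫ x, f x ∂(PN ν N) = ∫ x, f (fun j => Q (x j)) ∂(PN U01 N) := by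
    intro f hf
    rw [← map_PN hQm hQν N, integral_map hm.aemeasurable hf.aestronglyMeasurable]
  have hsg := hF.toSG hQm hQ1
  have h := es_key hQ N _ _ hsg
  obtain ⟨m, hmm⟩ : ∃ m, m = ∫ y, F y ∂(PN ν N) := ⟨_, rfl⟩
  have hm2 : ∫ y, F (fun j => Q (y j)) ∂(PN U01 N) = m := by rw [hmm, hint F hF.mF]
  rw [← hmm, hint (fun x => (F x - m) ^ 2) ((hF.mF.sub_const m).pow_const 2), hint (fun x => ∑ i, g i x)
    (Finset.measurable_sum _ fun i _ => hF.mg i), integral_finsetSum _ fun i _ => (hsg.bg i).int]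
  unfold VarN at h
  rw [hm2] at h
  exact h

end pure

open Pool.Agent.W_1b8d5d_z (SW BM U01)

variable {F : Fm} {c0 C0 κ : ℝ} {d : Dr}

/-- EFRON - STEIN on the law of the environment: if `G ≤ H` for all weights in `[a - δ, b]`, then
`Var G ≤ ((b - a)² / δ) (H - E G)`. -/
theorem var_law0 (hL : LawH F c0 C0) {δ H : ℝ} (hδ : 0 < δ) {S : Set Edge} {G : Env → ℝ} (hG : Fz (F.a - δ) F.b S G)
    (hH : ∀ τ, Bx (F.a - δ) F.b τ → G τ ≤ H) :
    ∫ η, (G (F.tau η) - ∫ ξ, G (F.tau ξ) ∂(law F)) ^ 2 ∂(law F) ≤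
      (F.b - F.a) ^ 2 / δ * (H - ∫ η, G (F.tau η) ∂(law F)) :=
  Pool.Agent.W_1b8d5d_nc.var_lawN hL hδ hG hH

/-- The constant of the linear variance bound. -/
def CV (F : Fm) : ℝ := (F.b - F.a) ^ 2 / (F.a / 2) * (F.b * (F.co.L * F.co.R + F.co.M + 4))

theorem CV_nonneg (F : Fm) : 0 ≤ CV F := by
  have h1 : (2 : ℝ) ≤ F.co.L := by exact_mod_cast F.co.L_pos
  have h2 : (1 : ℝ) ≤ F.co.R := by exact_mod_cast F.co.R_pos
  have h3 : (1 : ℝ) ≤ F.co.M := by exact_mod_cast F.co.M_pos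
  have h4 := b_pos F
  have h5 := F.a0
  unfold CV
  positivity

/-- THE VARIANCE OF THE COST IS AT MOST LINEAR. -/
theorem var_X (hL : LawH F c0 C0) (d : Dr) {n : ℕ} (hn : 1 ≤ n) (y : ℤ) :
    ∫ η, (X F d η 0 n y - e F d n y) ^ 2 ∂(law F) ≤ CV F * (n + |(y : ℝ)|) := by
  have ha := F.a0
  obtain ⟨G, hG⟩ : ∃ G : Env → ℝ, G = fun τ => -TT F.co τ 0 n y := ⟨_, rfl⟩
  have hfz : Fz (F.a - F.a / 2) F.b (F.co.slab (0 : Pt).1 ((0 : Pt).1 + n)) G := by
    rw [hG]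
    exact fz_TR (by linarith) (Co.ne_vt (c := F.co) 0 hn y)
  have h1 := var_law0 hL (δ := F.a / 2) (H := 0) (by linarith) hfz (fun τ hτ => by
    rw [hG]
    show -TT F.co τ 0 n y ≤ 0
    have := TT_nonneg (c := F.co) (τ := τ) (α := F.a - F.a / 2) (β := F.b) hτ (by linarith) 0 n y
    linarith)
  obtain ⟨m, hm⟩ : ∃ m, m = ∫ η, TT F.co (F.tau η) 0 n y ∂(law F) := ⟨_, rfl⟩
  have hTb : BM fun η => TT F.co (F.tau η) 0 n y := by
    refine ⟨(TT_meas F.co 0 n y).comp (tau_meas F), F.b * (nm (F.co.vt ((n : ℤ), y)) + 4), fun η => ?_⟩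
    rw [abs_of_nonneg (TT_nonneg (bd_tau F η) F.a0.le 0 n y)]
    exact TT_upper (bd_tau F η) F.a0.le (b_pos F).le 0 hn y
  have e1 : ∫ η, G (F.tau η) ∂(law F) = -m := by
    rw [hG, hm, ← integral_neg]
  have e2 : e F d n y = m - (al F.co d * n + be F.co d * y) := by
    unfold e X
    rw [integral_sub hTb.int (integrable_const _), ← hm]
    simp
  have e3 : ∀ η, (X F d η 0 n y - e F d n y) ^ 2 = (G (F.tau η) - ∫ ξ, G (F.tau ξ) ∂(law F)) ^ 2 := by
    intro η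
    rw [e1, e2, hG]
    unfold X
    ring
  simp_rw [e3]
  refine h1.trans ?_
  rw [e1]
  have h2 : m ≤ F.b * (nm (F.co.vt ((n : ℤ), y)) + 4) := by
    rw [hm]
    calc ∫ η, TT F.co (F.tau η) 0 n y ∂(law F) ≤ ∫ _η, F.b * (nm (F.co.vt ((n : ℤ), y)) + 4) ∂(law F) :=
          integral_mono hTb.int (integrable_const _) fun η => TT_upper (bd_tau F η) F.a0.le (b_pos F).le 0 hn y
      _ = _ := by simp
  have h3 := nm_vt_le F.co n y
  have hL2 : (2 : ℝ) ≤ F.co.L := by exact_mod_cast F.co.L_pos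
  have hR1 : (1 : ℝ) ≤ F.co.R := by exact_mod_cast F.co.R_pos
  have hM1 : (1 : ℝ) ≤ F.co.M := by exact_mod_cast F.co.M_pos
  have hn1 : (1 : ℝ) ≤ n := by exact_mod_cast hn
  have hb := b_pos F
  have h4 : F.b * (nm (F.co.vt ((n : ℤ), y)) + 4) ≤ F.b * ((F.co.L * F.co.R + F.co.M + 4) * (n + |(y : ℝ)|)) := by
    refine mul_le_mul_of_nonneg_left ?_ hb.le
    have h5 : (0 : ℝ) ≤ F.co.L * F.co.R := by positivity
    have h6 := abs_nonneg (y : ℝ)
    nlinarith [mul_nonneg h5 h6, mul_nonneg (by linarith : (0 : ℝ) ≤ F.co.M) (by linarith : (0 : ℝ) ≤ (n : ℝ))]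
  unfold CV
  rw [mul_assoc]
  refine mul_le_mul_of_nonneg_left ?_ (by positivity)
  rw [mul_assoc]
  linarith

end

end Pool.Agent.W_1b8d5d_h4p
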