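import Pool.Agent.W_1b8d5d_h4p.ToolZ

/-!
MP_1b8d5d_pr, track P: scales which are not soft: (NS1) lucks of one unit are rare, (NS2) displacements of mean cost at least
`A1` units cost at least `A1 - 1` units with probability close to one, (I1) the unit is comparable with the bulk. (helper4)
-/

namespace Pool.Agent.W_1b8d5d_h4p

open MeasureTheory Set Filter Topology
open Pool.Agent.W_1b8d5d_h85 (V nm dir Env Edge grid wedges cost Bd sh)
open Pool.Agent.W_1b8d5d_p
open Pool.Agent.W_1b8d5d_z (BM)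

noncomputable section

variable {F : Fm} {c0 C0 κ : ℝ} {d : Dr}

/-- A level `α` with `2 ^ α` large. -/
theorem exists_level (B : ℝ) : ∃ α : ℝ, 0 ≤ α ∧ B ≤ (2 : ℝ) ^ α := by
  obtain ⟨n, hn⟩ := pow_unbounded_of_one_lt B (one_lt_two : (1 : ℝ) < 2)
  exact ⟨n, Nat.cast_nonneg n, by rw [Real.rpow_natCast]; exact hn.le⟩

theorem neg_level {p α : ℝ} (hp : 0 < p) (h : 1 / p ≤ (2 : ℝ) ^ α) : (2 : ℝ) ^ (-α) ≤ p := by
  rw [Real.rpow_neg two_pos.le]
  rw [one_div] at h
  exact inv_le_of_inv_le₀ hp h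

/-- The mean luck is at least minus the unit. -/
theorem VV_mean_ge (hd : Adm F κ d) {m n : ℕ} (hm : 1 ≤ m) (hmn : m ≤ n) :
    -EE F d n ≤ ∫ η, VV F d η 0 m ∂(law F) := by
  obtain ⟨y, hy⟩ := es_attained hd m
  have h1 : ∫ η, -max (X F d η 0 m y) 0 ∂(law F) ≤ ∫ η, VV F d η 0 m ∂(law F) := by
    refine integral_mono (bm_max (bm_X hd 0 hm _) (BM.const 0)).neg.int (bm_VV hd 0 hm).int fun η => ?_
    have h4 := neg_X_le_VV hd η 0 hm y
    have h5 := le_max_left (X F d η 0 m y) 0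
    show -max (X F d η 0 m y) 0 ≤ VV F d η 0 m
    linarith
  rw [integral_neg] at h1
  have h2 := le_EE F d hmn
  have h3 := Cr_pos F
  have h4 : ∫ η, max (X F d η 0 m y) 0 ∂(law F) = es F d m := hy
  linarith

/-- The unit at a multiple of the scale. -/
theorem EE_le_mul (F : Fm) (d : Dr) {m H x : ℕ} (hH : 1 ≤ H) (hm : m ≤ H * 2 ^ x) : EE F d m ≤ H * EE F d (2 ^ x) :=
  (EE_mono F d hm).trans (EE_mul F d (2 ^ x) hH)

/-- (NS1). -/
theorem ns1 (F : Fm) {p : ℝ} (hp : 0 < p) (H : ℕ) : ∃ α : ℝ, 0 ≤ α ∧ ∀ (κ : ℝ) (d : Dr), Adm F κ d → ∀ x : ℕ,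
    ¬ Sf F κ d x α → Touch F d → ∀ m, 1 ≤ m → m ≤ H * 2 ^ x →
    (law F).real {η | EE F d (2 ^ x) ≤ VV F d η 0 m} ≤ p := by
  obtain ⟨α, hα, hB⟩ := exists_level (max (1 / p) (H + 1))
  refine ⟨α, hα, fun κ d hd x hS ht m hm hmx => ?_⟩
  have hE := EE_pos F d (2 ^ x)
  have hm1 : (m : ℝ) ≤ (2 : ℝ) ^ ((x : ℝ) + α) := by
    rw [Real.rpow_add two_pos, Real.rpow_natCast]
    have k1 : (m : ℝ) ≤ H * 2 ^ x := by exact_mod_cast hmx
    have k2 : (H : ℝ) ≤ 2 ^ α := by linarith [(le_max_right (1 / p) ((H : ℝ) + 1)).trans hB]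
    calc (m : ℝ) ≤ H * 2 ^ x := k1
      _ ≤ 2 ^ α * 2 ^ x := mul_le_mul_of_nonneg_right k2 (by positivity)
      _ = 2 ^ x * 2 ^ α := mul_comm _ _
  have hEm : EE F d m ≤ 2 ^ α * EE F d (2 ^ x) := by
    have k1 : m ≤ (H + 1) * 2 ^ x := hmx.trans (Nat.mul_le_mul_right _ (Nat.le_succ H))
    have k2 := EE_le_mul F d (H := H + 1) (by omega) k1
    push_cast at k2
    exact k2.trans (mul_le_mul_of_nonneg_right ((le_max_right _ _).trans hB) hE.le)
  have h1 := conc_of_not_Sf hS hm1 (lk_VT hd hm) (by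
    have := VV_mean_ge hd hm le_rfl
    show _ ≤ ∫ η, VV F d η 0 m ∂(law F)
    linarith)
  refine (measureReal_mono (fun η hη => ?_) (measure_ne_top _ _)).trans (h1.le.trans (neg_level hp ((le_max_left _ _).trans hB)))
  rw [Set.mem_ofPred_eq] at hη ⊢
  have k1 : ∫ ξ, VV F d ξ 0 m ∂(law F) ≤ 0 := VV_mean_le hd ht hm
  have k2 : (2 : ℝ) ^ (-α) ≤ 1 := by
    rw [Real.rpow_neg two_pos.le]
    exact inv_le_one_of_one_le₀ (Real.one_le_rpow one_le_two hα)
  have k3 : (2 : ℝ) ^ (-α) * EE F d (2 ^ x) ≤ EE F d (2 ^ x) := by nlinarith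
  refine k3.trans (le_trans ?_ (le_abs_self _))
  show EE F d (2 ^ x) ≤ VV F d η 0 m - ∫ ξ, VV F d ξ 0 m ∂(law F)
  linarith

/-- (NS2). -/
theorem ns2 (hL : LawH F c0 C0) {p : ℝ} (hp : 0 < p) (A1 : ℝ) (H : ℕ) : ∃ α : ℝ, 0 ≤ α ∧ ∀ (κ : ℝ) (d : Dr),
    Adm F κ d → Touch F d → ∀ x : ℕ, ¬ Sf F κ d x α → ∀ m, 1 ≤ m → m ≤ H * 2 ^ x → ∀ y : ℤ,
    A1 * EE F d (2 ^ x) ≤ e F d m y → (law F).real {η | X F d η 0 m y ≤ (A1 - 1) * EE F d (2 ^ x)} ≤ p := by
  obtain ⟨T, C, hT, hC, hmc⟩ := mc_X hL hp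
  obtain ⟨α, hα, hB⟩ := exists_level (max (1 / p) (max (2 * |A1|) (C * (T * (H + 1)))))
  have hB1 := (le_max_left _ _).trans hB
  have hB2 := (le_max_left _ _).trans ((le_max_right (1 / p) _).trans hB)
  have hB3 := (le_max_right _ _).trans ((le_max_right (1 / p) _).trans hB)
  have hT' : (1 : ℝ) ≤ T := by exact_mod_cast hT
  have hH' : (0 : ℝ) ≤ H := Nat.cast_nonneg H
  refine ⟨α, hα, fun κ d hd ht x hS m hm hmx y hy => ?_⟩
  have hE := EE_pos F d (2 ^ x)
  rcases le_or_gt (e F d m y) (2 ^ α * EE F d (2 ^ x)) with he | he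
  · have hm1 : (m : ℝ) ≤ (2 : ℝ) ^ ((x : ℝ) + α) := by
      rw [Real.rpow_add two_pos, Real.rpow_natCast]
      have k1 : (m : ℝ) ≤ H * 2 ^ x := by exact_mod_cast hmx
      have k2 : (H : ℝ) ≤ 2 ^ α := by
        refine le_trans ?_ hB3
        have q1 : (H : ℝ) + 1 ≤ T * (H + 1) := le_mul_of_one_le_left (by linarith) hT'
        have q2 : (T : ℝ) * (H + 1) ≤ C * (T * (H + 1)) := le_mul_of_one_le_left (by linarith) (by linarith)
        linarith
      calc (m : ℝ) ≤ H * 2 ^ x := k1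
        _ ≤ 2 ^ α * 2 ^ x := mul_le_mul_of_nonneg_right k2 (by positivity)
        _ = 2 ^ x * 2 ^ α := mul_comm _ _
    have h1 := conc_of_not_Sf hS hm1 (lk_X hd hm y) (by rw [int_negX]; linarith)
    refine (measureReal_mono (fun η hη => ?_) (measure_ne_top _ _)).trans (h1.le.trans (neg_level hp hB1))
    rw [Set.mem_ofPred_eq] at hη ⊢
    rw [int_negX]
    have k2 : (2 : ℝ) ^ (-α) ≤ 1 := by
      rw [Real.rpow_neg two_pos.le]
      exact inv_le_one_of_one_le₀ (Real.one_le_rpow one_le_two hα)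
    have k3 : (2 : ℝ) ^ (-α) * EE F d (2 ^ x) ≤ EE F d (2 ^ x) := by nlinarith
    refine k3.trans (le_trans ?_ (le_abs_self _))
    show EE F d (2 ^ x) ≤ -X F d η 0 m y - -e F d m y
    linarith
  · by_contra hcon
    rw [not_le] at hcon
    have h1 := hmc κ d hd ht m (T * m) hm le_rfl y _ hcon.le
    have h2 : EE F d (T * m) ≤ T * (H + 1) * EE F d (2 ^ x) := by
      have k1 : T * m ≤ (T * (H + 1)) * 2 ^ x := by
        rw [mul_assoc]
        exact Nat.mul_le_mul_left T (hmx.trans (Nat.mul_le_mul_right _ (Nat.le_succ H)))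
      have k2 := EE_le_mul F d (H := T * (H + 1)) (Nat.mul_pos hT (Nat.succ_pos H)) k1
      push_cast at k2
      exact k2
    have h3 : C * EE F d (T * m) ≤ 2 ^ α * EE F d (2 ^ x) := by
      have k1 := mul_le_mul_of_nonneg_left h2 (by linarith : 0 ≤ C)
      have k2 := mul_le_mul_of_nonneg_right hB3 hE.le
      linarith
    have h4 : 2 * ((A1 - 1) * EE F d (2 ^ x)) ≤ 2 ^ α * EE F d (2 ^ x) := by
      have k1 : 2 * (A1 - 1) ≤ 2 ^ α := by linarith [le_abs_self A1]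
      have k2 := mul_le_mul_of_nonneg_right k1 hE.le
      linarith
    have h5 := h1.trans (max_le h4 h3)
    linarith

/-- (I1) from the second moment of the luck: at a scale which is not soft the unit is at most twice the bulk. -/
theorem i1z {A : Set Dr} (hadm : ∀ d ∈ A, Adm F κ d) (ht : ∀ d ∈ A, Touch F d) {C2 : ℝ} {z0 : ℕ}
    (h2 : ∀ d ∈ A, ∀ x, z0 ≤ x → ∀ m, 1 ≤ m → m ≤ 2 ^ x →
      ∫ η, (max (VV F d η 0 m) 0) ^ 2 ∂(law F) ≤ C2 * EE F d (2 ^ x) ^ 2) :
    ∃ α : ℝ, 0 ≤ α ∧ ∀ d ∈ A, ∀ x, z0 ≤ x → ¬ Sf F κ d x α → EE F d (2 ^ x) ≤ 2 * Em F d (2 ^ x) := by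
  obtain ⟨s, hs⟩ : ∃ s, s = 1 / (4 * (|C2| + 1)) := ⟨_, rfl⟩
  have hs0 : 0 < s := by rw [hs]; positivity
  have hsC : s / 2 * |C2| ≤ 1 / 8 := by
    have k1 : s * (|C2| + 1) = 1 / 4 := by
      rw [hs]
      field_simp
    nlinarith [abs_nonneg C2]
  obtain ⟨α, hα, hB⟩ := exists_level (max 4 (4 / s))
  have hη : (2 : ℝ) ^ (-α) ≤ 1 / 4 := neg_level (by norm_num) (by
    have := (le_max_left (4 : ℝ) (4 / s)).trans hB
    norm_num at this ⊢
    exact this)
  have hη2 : (2 : ℝ) ^ (-α) ≤ s / 4 := neg_level (by positivity) (by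
    have k1 : 1 / (s / 4) = 4 / s := by field_simp
    rw [k1]
    exact (le_max_right (4 : ℝ) (4 / s)).trans hB)
  have hη0 : (0 : ℝ) < 2 ^ (-α) := Real.rpow_pos_of_pos two_pos _
  refine ⟨α, hα, fun d hdA x hx hS => ?_⟩
  have hd := hadm d hdA
  have hκ := hd.κ0
  obtain ⟨E, hE⟩ : ∃ E, E = EE F d (2 ^ x) := ⟨_, rfl⟩
  have hE0 : 0 < E := by
    rw [hE]
    exact EE_pos _ _ _
  have key : ∀ m, m ≤ 2 ^ x → es F d m + Cr F ≤ Em F d (2 ^ x) + E / 2 := by
    intro m hmx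
    rcases Nat.eq_zero_or_pos m with h0 | hm
    · rw [h0, es_zero, zero_add]
      have := Cr_le_Em F d (2 ^ x)
      linarith
    have hm' : 1 ≤ m := hm
    obtain ⟨y, hy⟩ : ∃ y, y = xs F d m := ⟨_, rfl⟩
    obtain ⟨u, hu⟩ : ∃ u, u = e F d m y := ⟨_, rfl⟩
    have hu0 : 0 ≤ u := by
      rw [hu]
      exact e_nonneg' (ht d hdA) hm' y
    have huE : u ≤ E := by
      rw [hu, hy, hE]
      have := e_xs_le hd m
      have := le_EE F d hmx
      have := Cr_pos F
      linarith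
    have hm1 : (m : ℝ) ≤ (2 : ℝ) ^ ((x : ℝ) + α) := by
      rw [Real.rpow_add two_pos, Real.rpow_natCast]
      have k1 : (m : ℝ) ≤ 2 ^ x := by exact_mod_cast hmx
      have k2 : (1 : ℝ) ≤ 2 ^ α := Real.one_le_rpow one_le_two hα
      have k3 : (0 : ℝ) < 2 ^ x := by positivity
      nlinarith
    have h1 := conc_of_not_Sf hS hm1 (lk_X hd hm' y) (by
      rw [int_negX, ← hu, ← hE]
      have k2 : (1 : ℝ) ≤ 2 ^ α := Real.one_le_rpow one_le_two hα
      nlinarith)
    rw [int_negX, ← hu, ← hE] at h1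
    -- the bad event
    obtain ⟨B, hBdef⟩ : ∃ B : Set Env, B = {η : Env | 2 ^ (-α) * E ≤ |-X F d η 0 m y - -u|} := ⟨_, rfl⟩
    have hBm : MeasurableSet B := by
      rw [hBdef]
      exact measurableSet_le measurable_const (((X_meas F d 0 m y).neg.sub_const _).abs)
    have hBp : (law F).real B ≤ 2 ^ (-α) := by
      rw [hBdef]
      exact h1.le
    have hpt : ∀ η, max (-X F d η 0 m y) 0 ≤ 2 ^ (-α) * E + (s / (2 * E) * (max (VV F d η 0 m) 0) ^ 2 +
        B.indicator (fun _ => E / (2 * s)) η) := by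
      intro η
      have hV := neg_X_le_VV hd η 0 hm' y
      have q1 : 0 ≤ s / (2 * E) * (max (VV F d η 0 m) 0) ^ 2 := by positivity
      by_cases hη' : η ∈ B
      · rw [Set.indicator_of_mem hη']
        have q2 : max (-X F d η 0 m y) 0 ≤ max (VV F d η 0 m) 0 := max_le_max hV le_rfl
        obtain ⟨v, hv⟩ : ∃ v, v = max (VV F d η 0 m) 0 := ⟨_, rfl⟩
        rw [← hv] at q2 ⊢
        have q3 : v ≤ s / (2 * E) * v ^ 2 + E / (2 * s) := by
          have q4 : s / (2 * E) * v ^ 2 + E / (2 * s) - v = (s * v - E) ^ 2 / (2 * s * E) := by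
            field_simp
            ring
          have q5 : 0 ≤ (s * v - E) ^ 2 / (2 * s * E) := by positivity
          linarith
        have q6 : 0 ≤ 2 ^ (-α) * E := by positivity
        linarith
      · rw [Set.indicator_of_notMem hη']
        rw [hBdef, Set.mem_ofPred_eq, not_le] at hη'
        have q2 := (abs_lt.1 hη').2
        have q3 : 0 ≤ 2 ^ (-α) * E := by positivity
        refine max_le ?_ ?_ <;> linarith
    have bX : BM fun η => max (-X F d η 0 m y) 0 := bm_max (bm_X hd 0 hm' y).neg (BM.const 0)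
    have bV : BM fun η => (max (VV F d η 0 m) 0) ^ 2 := (bm_max (bm_VV hd 0 hm') (BM.const 0)).pow 2
    have bI : BM (B.indicator fun _ : Env => E / (2 * s)) := by
      refine ⟨measurable_const.indicator hBm, E / (2 * s), fun η => ?_⟩
      rw [abs_of_nonneg (Set.indicator_nonneg (fun _ _ => by positivity) η)]
      exact Set.indicator_le_self' (fun _ _ => by positivity) η
    have hint : ∫ η, max (-X F d η 0 m y) 0 ∂(law F) ≤ ∫ η, (2 ^ (-α) * E + (s / (2 * E) * (max (VV F d η 0 m) 0) ^ 2 +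
        B.indicator (fun _ => E / (2 * s)) η)) ∂(law F) :=
      integral_mono bX.int ((BM.const _).add ((bV.const_mul _).add bI)).int hpt
    rw [integral_add (integrable_const _) ((bV.const_mul _).add bI).int, integral_add (bV.const_mul _).int bI.int,
      integral_const_mul (s / (2 * E)), integral_indicator_const _ hBm, integral_const, probReal_univ, one_smul,
      smul_eq_mul] at hint
    have h3 := h2 d hdA x hx m hm' hmx
    rw [← hE] at h3
    have h4 : s / (2 * E) * ∫ η, (max (VV F d η 0 m) 0) ^ 2 ∂(law F) ≤ E / 8 := by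
      have k1 : C2 * E ^ 2 ≤ |C2| * E ^ 2 := mul_le_mul_of_nonneg_right (le_abs_self C2) (sq_nonneg E)
      calc s / (2 * E) * ∫ η, (max (VV F d η 0 m) 0) ^ 2 ∂(law F) ≤ s / (2 * E) * (|C2| * E ^ 2) :=
            mul_le_mul_of_nonneg_left (h3.trans k1) (by positivity)
        _ = s / 2 * |C2| * E := by field_simp
        _ ≤ 1 / 8 * E := mul_le_mul_of_nonneg_right hsC hE0.le
        _ = E / 8 := by ring
    have h5 : (law F).real B * (E / (2 * s)) ≤ E / 8 := by
      calc (law F).real B * (E / (2 * s)) ≤ s / 4 * (E / (2 * s)) :=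
            mul_le_mul_of_nonneg_right (hBp.trans hη2) (by positivity)
        _ = E / 8 := by
            field_simp
            norm_num
    have h6 : 2 ^ (-α) * E ≤ E / 4 := by
      have := mul_le_mul_of_nonneg_right hη hE0.le
      linarith
    -- ep = e + E X^-
    have h7 : ep F d m y = u + ∫ η, max (-X F d η 0 m y) 0 ∂(law F) := by
      have k1 : ∀ η, max (X F d η 0 m y) 0 = X F d η 0 m y + max (-X F d η 0 m y) 0 := by
        intro η
        rcases le_total (X F d η 0 m y) 0 with h | h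
        · rw [max_eq_right h, max_eq_left (by linarith)]
          ring
        · rw [max_eq_left h, max_eq_right (by linarith)]
          ring
      unfold ep
      simp_rw [k1]
      rw [integral_add (bm_X hd 0 hm' y).int bX.int, hu]
      rfl
    have h8 := es_le F d m y
    have h9 := le_Em F d hmx
    rw [← hy, ← hu] at h9
    linarith
  have h1 := EE_le F d key
  rw [← hE] at h1 ⊢
  linarith

end

end Pool.Agent.W_1b8d5d_h4p
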