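import Pool.Agent.W_1b8d5d_h4p.ESz
import Pool.Agent.W_1b8d5d_p.VMean

/-!
MP_1b8d5d_pr, track P: the class `Lk F κ d l` of the luck functionals of length `l`: functionals `G` of the weights of the slab
`[0, l]` in the class `Fz` on the weights in `[a - κ / 2, b]`, at most the luck of the starting point there. (helper4)
-/

namespace Pool.Agent.W_1b8d5d_h4p

open MeasureTheory Set
open Pool.Agent.W_1b8d5d_h85 (V nm dir Env Edge grid wedges cost Bd sh)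
open Pool.Agent.W_1b8d5d_p
open Pool.Agent.W_1b8d5d_z (BM)

noncomputable section

variable {F : Fm} {κ : ℝ} {d : Dr}

/-- The luck of the starting point as a function of the weights. -/
def VT (c : Co) (d : Dr) (τ : Env) (a : Pt) (n : ℕ) : ℝ := ⨆ y : ℤ, -(TT c τ a n y - (al c d * n + be c d * y))

theorem VV_eq_VT (F : Fm) (d : Dr) (η : Env) (a : Pt) (n : ℕ) : VV F d η a n = VT F.co d (F.tau η) a n := rfl

/-- The frame with the lower bound `a - κ / 2` of the weights, the weights are the variables themselves (clamped). -/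
def low (F : Fm) {κ : ℝ} (h0 : 0 < κ) (h1 : κ ≤ F.a) : Fm where
  co := F.co
  a := F.a - κ / 2
  b := F.b
  g := fun t => max (F.a - κ / 2) (min t F.b)
  nu := F.nu
  prob := F.prob
  a0 := by linarith
  ab := by linarith [F.ab]
  mg := by fun_prop
  g1 := fun _ => le_max_left _ _
  g2 := fun _ => max_le (by linarith [F.ab]) (min_le_right _ _)

theorem low_tau (h0 : 0 < κ) (h1 : κ ≤ F.a) {τ : Env} (hτ : Bx (F.a - κ / 2) F.b τ) : (low F h0 h1).tau τ = τ := by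
  funext e
  show max (F.a - κ / 2) (min (τ e) F.b) = τ e
  rw [min_eq_left (hτ e).2, max_eq_right (hτ e).1]

theorem low_adm (hd : Adm F κ d) : Adm (low F hd.κ0 hd.κ_lt) (κ / 2) d := by
  refine ⟨by linarith [hd.κ0], hd.h1n, hd.h2n, hd.h1b, hd.h2b, ?_⟩
  refine hd.loop.trans (le_of_eq ?_)
  show (F.a - κ) * (F.co.M : ℝ) = (F.a - κ / 2 - κ / 2) * (F.co.M : ℝ)
  ring

theorem low_VV (hd : Adm F κ d) {τ : Env} (hτ : Bx (F.a - κ / 2) F.b τ) (a : Pt) (n : ℕ) :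
    VV (low F hd.κ0 hd.κ_lt) d τ a n = VT F.co d τ a n := by
  rw [VV_eq_VT, low_tau hd.κ0 hd.κ_lt hτ]
  rfl

theorem low_X (hd : Adm F κ d) {τ : Env} (hτ : Bx (F.a - κ / 2) F.b τ) (a : Pt) (n : ℕ) (y : ℤ) :
    X (low F hd.κ0 hd.κ_lt) d τ a n y = TT F.co τ a n y - (al F.co d * n + be F.co d * y) := by
  unfold X
  rw [low_tau hd.κ0 hd.κ_lt hτ]
  rfl

theorem VT_upper (hd : Adm F κ d) {τ : Env} (hτ : Bx (F.a - κ / 2) F.b τ) (a : Pt) {n : ℕ} (hn : 1 ≤ n) :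
    VT F.co d τ a n ≤ C1 F * n := by
  rw [← low_VV hd hτ]
  exact VV_upper (low_adm hd) τ a hn

theorem le_VT (hd : Adm F κ d) {τ : Env} (hτ : Bx (F.a - κ / 2) F.b τ) (a : Pt) {n : ℕ} (hn : 1 ≤ n) (y : ℤ) :
    -(TT F.co τ a n y - (al F.co d * n + be F.co d * y)) ≤ VT F.co d τ a n := by
  rw [← low_VV hd hτ, ← low_X hd hτ]
  exact neg_X_le_VV (low_adm hd) τ a hn y

/-- The luck of the starting point is in the class. -/
theorem fz_VT (hd : Adm F κ d) {n : ℕ} (hn : 1 ≤ n) :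
    Fz (F.a - κ / 2) F.b (F.co.slab 0 n) fun τ => VT F.co d τ 0 n := by
  classical
  have hM : (1 : ℝ) ≤ F.co.M := by exact_mod_cast F.co.M_pos
  have hκ : 0 < κ / 2 := by linarith [hd.κ0]
  have h' := low_adm hd
  have ha' : 0 < F.a - κ / 2 := by linarith [hd.κ_lt, hd.κ0]
  obtain ⟨K, hK⟩ := exists_nat_gt ((2 * C1 (low F hd.κ0 hd.κ_lt) + 4 * (low F hd.κ0 hd.κ_lt).b) * n / (κ / 2 * F.co.M))
  rw [div_lt_iff₀ (by positivity)] at hK
  have hne : (Finset.Icc (-(K : ℤ)) K).Nonempty := ⟨0, by simp⟩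
  refine Fz.congr (Fz.sup' (Finset.Icc (-(K : ℤ)) K) hne (F := fun y τ => -(TT F.co τ 0 n y - (al F.co d * n + be F.co d * y)))
    fun y _ => ?_) fun τ hτ => ?_
  · have h1 : Fz (F.a - κ / 2) F.b (F.co.slab (0 : Pt).1 ((0 : Pt).1 + n)) fun τ => -TT F.co τ 0 n y :=
      fz_TR ha' (Co.ne_vt (c := F.co) 0 hn y)
    rw [show (0 : Pt).1 = 0 from rfl, zero_add] at h1
    exact (h1.add_const (al F.co d * n + be F.co d * y)).congr fun τ _ => by ring
  · refine le_antisymm ?_ (Finset.sup'_le _ _ fun y _ => le_VT hd hτ 0 hn y)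
    obtain ⟨y, h1, h2⟩ := VV_attained h' τ 0 hn
    rw [low_VV hd hτ, low_X hd hτ] at h1
    rw [h1]
    refine Finset.le_sup' (fun y => -(TT F.co τ 0 n y - (al F.co d * n + be F.co d * y))) ?_
    have h3 : κ / 2 * F.co.M * |(y : ℝ)| < κ / 2 * F.co.M * K := by
      have : κ / 2 * ((low F hd.κ0 hd.κ_lt).co.M * |(y : ℝ)|) = κ / 2 * F.co.M * |(y : ℝ)| := by
        rw [mul_assoc]
        rfl
      linarith
    have h4 : |(y : ℝ)| < K := lt_of_mul_lt_mul_left h3 (by positivity)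
    rw [abs_lt] at h4
    rw [Finset.mem_Icc]
    constructor
    · have : (-(K : ℝ)) ≤ y := h4.1.le
      exact_mod_cast this
    · exact_mod_cast h4.2.le

/-- THE CLASS OF LUCK FUNCTIONALS of length `l`. -/
structure Lk (F : Fm) (κ : ℝ) (d : Dr) (l : ℕ) (G : Env → ℝ) : Prop where
  l1 : 1 ≤ l
  fz : Fz (F.a - κ / 2) F.b (F.co.slab 0 l) G
  le : ∀ τ, Bx (F.a - κ / 2) F.b τ → G τ ≤ VT F.co d τ 0 l

theorem bx_tau (hκ : 0 ≤ κ) (F : Fm) (η : Env) : Bx (F.a - κ / 2) F.b (F.tau η) := fun e =>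
  ⟨by linarith [(bd_tau F η e).1], (bd_tau F η e).2⟩

theorem Lk.fz0 {l : ℕ} {G : Env → ℝ} (h : Lk F κ d l G) (hκ : 0 ≤ κ) : Fz F.a F.b (F.co.slab 0 l) G := by
  obtain ⟨G', k1, k2⟩ := h.fz
  exact ⟨G', k1, fun τ hτ => k2 τ fun e => ⟨by linarith [(hτ e).1], (hτ e).2⟩⟩

theorem Lk.bm {l : ℕ} {G : Env → ℝ} (h : Lk F κ d l G) (hκ : 0 ≤ κ) : BM fun η => G (F.tau η) := Fz.bm (h.fz0 hκ)

theorem Lk.dep {l : ℕ} {G : Env → ℝ} (h : Lk F κ d l G) (hκ : 0 ≤ κ) :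
    DependsOn (fun η => G (F.tau η)) (F.co.slab 0 l) := Fz.dep (h.fz0 hκ)

theorem Lk.le_VV {l : ℕ} {G : Env → ℝ} (h : Lk F κ d l G) (hκ : 0 ≤ κ) (η : Env) : G (F.tau η) ≤ VV F d η 0 l :=
  h.le _ (bx_tau hκ F η)

/-- The luck itself. -/
theorem lk_VT (hd : Adm F κ d) {l : ℕ} (hl : 1 ≤ l) : Lk F κ d l fun τ => VT F.co d τ 0 l :=
  ⟨hl, fz_VT hd hl, fun _ _ => le_rfl⟩

/-- Minus the cost of a displacement for walks restricted to a set of edges. -/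
theorem lk_TR (hd : Adm F κ d) {l : ℕ} (hl : 1 ≤ l) {S : Set Edge} (hS : S ⊆ F.co.slab 0 l) (y : ℤ)
    (hne : Nonempty (WK S (F.co.vt 0) (F.co.vt ((l : ℤ), y)))) :
    Lk F κ d l fun τ => -(TR S τ (F.co.vt 0) (F.co.vt ((l : ℤ), y)) - (al F.co d * l + be F.co d * y)) := by
  have ha' : 0 < F.a - κ / 2 := by linarith [hd.κ_lt, hd.κ0]
  refine ⟨hl, ?_, fun τ hτ => ?_⟩
  · exact (((fz_TR ha' hne).mono hS).add_const (al F.co d * l + be F.co d * y)).congr fun τ _ => by ring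
  · refine le_trans ?_ (le_VT hd hτ 0 hl y)
    have h1 : TT F.co τ 0 l y ≤ TR S τ (F.co.vt 0) (F.co.vt ((l : ℤ), y)) := by
      unfold TT
      rw [show (0 : Pt).1 = 0 from rfl, zero_add, zero_add]
      exact TR_anti (a := F.a - κ / 2) (b := F.b) hτ ha'.le hne hS
    linarith

/-- Minus the cost of a displacement. -/
theorem lk_X (hd : Adm F κ d) {l : ℕ} (hl : 1 ≤ l) (y : ℤ) :
    Lk F κ d l fun τ => -(TT F.co τ 0 l y - (al F.co d * l + be F.co d * y)) := by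
  have h1 := Co.ne_vt (c := F.co) 0 hl y
  rw [show (0 : Pt).1 = 0 from rfl, zero_add, zero_add] at h1
  have h2 := lk_TR hd hl (S := F.co.slab 0 l) subset_rfl y h1
  have e1 : (fun τ => -(TT F.co τ 0 l y - (al F.co d * l + be F.co d * y))) =
      fun τ => -(TR (F.co.slab 0 l) τ (F.co.vt 0) (F.co.vt ((l : ℤ), y)) - (al F.co d * l + be F.co d * y)) := by
    funext τ
    unfold TT
    rw [show (0 : Pt).1 = 0 from rfl, zero_add, zero_add]
  rw [e1]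
  exact h2

theorem Lk.max {l : ℕ} {G G' : Env → ℝ} (h : Lk F κ d l G) (h' : Lk F κ d l G') :
    Lk F κ d l fun τ => Max.max (G τ) (G' τ) :=
  ⟨h.l1, h.fz.max h'.fz, fun τ hτ => max_le (h.le τ hτ) (h'.le τ hτ)⟩

theorem Lk.sup' {l : ℕ} {ι : Type*} (K : Finset ι) (hK : K.Nonempty) {G : ι → Env → ℝ} (h : ∀ k ∈ K, Lk F κ d l (G k)) :
    Lk F κ d l fun τ => K.sup' hK fun k => G k τ := by
  obtain ⟨k0, hk0⟩ := id hK
  exact ⟨(h k0 hk0).l1, Fz.sup' K hK fun k hk => (h k hk).fz, fun τ hτ => Finset.sup'_le _ _ fun k hk => (h k hk).le τ hτ⟩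

theorem Lk.sub_const {l : ℕ} {G : Env → ℝ} (h : Lk F κ d l G) {r : ℝ} (hr : 0 ≤ r) : Lk F κ d l fun τ => G τ - r :=
  ⟨h.l1, (h.fz.add_const (-r)).congr fun τ _ => by ring, fun τ hτ => by
    show G τ - r ≤ VT F.co d τ 0 l
    linarith [h.le τ hτ]⟩

end

end Pool.Agent.W_1b8d5d_h4p
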