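import Pool.Agent.W_1b8d5d_h4p.NSz

/-!
MP_1b8d5d_pr, track P, step (hF2), (iv) and (v): if the cost of a displacement is concentrated around a constant, then the
constant is not very negative and the mean negative part is small. (helper4; port of helper70's `W_7d29a1_G/FinC`)
-/

namespace Pool.Agent.W_1b8d5d_h4p

open MeasureTheory Set Filter Topology
open Pool.Agent.W_1b8d5d_h85 (V nm dir Env Edge grid wedges cost Bd sh)
open Pool.Agent.W_1b8d5d_p
open Pool.Agent.W_1b8d5d_z (BM)

noncomputable section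

variable {F : Fm} {c0 C0 κ : ℝ} {d : Dr}

/-- The mean positive part of the luck is at most the cheapest displacement. -/
theorem posVV_le (hd : Adm F κ d) (ht : Touch F d) {n : ℕ} (hn : 1 ≤ n) :
    ∫ η, max (VV F d η 0 n) 0 ∂(law F) ≤ es F d n := by
  obtain ⟨y, hy⟩ := es_attained hd n
  have hV := bm_VV hd 0 hn
  have hX := bm_X hd 0 hn y
  have h1 : ∫ η, max (VV F d η 0 n) 0 ∂(law F) ≤ ∫ η, (VV F d η 0 n + max (X F d η 0 n y) 0) ∂(law F) := by
    refine integral_mono (bm_max hV (BM.const 0)).int (hV.add (bm_max hX (BM.const 0))).int fun η => ?_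
    have h2 := neg_X_le_VV hd η 0 hn y
    have h3 := le_max_left (X F d η 0 n y) 0
    have h4 := le_max_right (X F d η 0 n y) 0
    refine max_le ?_ ?_ <;> linarith
  rw [integral_add hV.int (bm_max hX (BM.const 0)).int] at h1
  have h2 := VV_mean_le hd ht hn
  have h3 : ∫ η, max (X F d η 0 n y) 0 ∂(law F) = es F d n := hy
  linarith

/-- Subadditivity along a line. -/
theorem X_iter_le (F : Fm) (d : Dr) (η : Env) (m : ℕ) (hm : 1 ≤ m) (k : ℤ) (N : ℕ) :
    X F d η 0 (N * m) (N * k) ≤ ∑ i ∈ Finset.range N, X F d η (((i * m : ℕ) : ℤ), (i * k : ℤ)) m k := by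
  induction N with
  | zero =>
    rw [Finset.range_zero, Finset.sum_empty, Nat.cast_zero, zero_mul, zero_mul]
    exact (X_zero F d η 0).le
  | succ N ih =>
    rw [Finset.sum_range_succ]
    have h := X_tri' F d η (0 : Pt) (N * m) m (N * k) k (fun h0 => by
      have hN : N = 0 := by
        rcases Nat.mul_eq_zero.1 h0 with h | h
        · exact h
        · omega
      rw [hN]
      simp) (fun h0 => by omega)
    have e1 : (N + 1) * m = N * m + m := by ring
    have e2 : (((N + 1 : ℕ) : ℤ) * k) = N * k + k := by push_cast; ring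
    rw [e1, e2]
    have e3 : (0 : Pt) + (((N * m : ℕ) : ℤ), (N : ℤ) * k) = (((N * m : ℕ) : ℤ), (N * k : ℤ)) := zero_add _
    rw [e3] at h
    linarith

/-- If the cost of a displacement is concentrated around `c1`, then `- c1` is small. -/
theorem const_ge (hd : Adm F κ d) (ht : Touch F d) {m : ℕ} (hm : 1 ≤ m) {k : ℤ} {c1 b ε A : ℝ}
    (hconc : (law F).real {η | b < |X F d η 0 m k - c1|} ≤ ε) {N : ℕ} (hN1 : 1 ≤ N) (hN : N * ε ≤ 1 / 2)
    (hA : es F d (N * m) ≤ A) : -c1 - b ≤ 2 * A / N := by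
  by_contra hcon
  push Not at hcon
  have hNm : 1 ≤ N * m := Nat.mul_pos hN1 hm
  have hA0 : 0 ≤ A := (es_nonneg F d _).trans hA
  have hNpos : (0 : ℝ) < N := by exact_mod_cast hN1
  have hx : 0 < -c1 - b := lt_of_le_of_lt (by positivity) hcon
  -- the good event
  obtain ⟨B, hB⟩ : ∃ B : ℕ → Set Env, B = fun i => {η | b < |X F d η (((i * m : ℕ) : ℤ), (i * k : ℤ)) m k - c1|} :=
    ⟨_, rfl⟩
  have hBm : ∀ i, MeasurableSet (B i) := by
    intro i
    rw [hB]
    exact measurableSet_lt measurable_const (measurable_norm.comp ((X_meas F d _ m k).sub measurable_const))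
  have hBi : ∀ i, (law F).real (B i) ≤ ε := by
    intro i
    have hm0 : MeasurableSet {η : Env | b < |X F d η 0 m k - c1|} :=
      measurableSet_lt measurable_const (measurable_norm.comp ((X_meas F d 0 m k).sub measurable_const))
    have hsh := (mp_shp F (((i * m : ℕ) : ℤ), (i * k : ℤ))).measureReal_preimage hm0.nullMeasurableSet
    have e1 : F.shp (((i * m : ℕ) : ℤ), (i * k : ℤ)) ⁻¹' {η : Env | b < |X F d η 0 m k - c1|} = B i := by
      rw [hB]
      ext η
      simp only [Set.mem_preimage, Set.mem_ofPred_eq]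
      rw [X_shp, zero_add]
    rw [e1] at hsh
    rw [hsh]
    exact hconc
  obtain ⟨U, hU⟩ : ∃ U : Set Env, U = ⋃ i ∈ Finset.range N, B i := ⟨_, rfl⟩
  have hUm : MeasurableSet U := by
    rw [hU]
    exact Finset.measurableSet_biUnion _ fun i _ => hBm i
  have hUp : (law F).real U ≤ 1 / 2 := by
    rw [hU]
    refine (measureReal_biUnion_finset_le _ _).trans ?_
    refine (Finset.sum_le_card_nsmul _ _ _ fun i _ => hBi i).trans ?_
    rw [Finset.card_range, nsmul_eq_mul]
    exact hN
  have hUc : 1 / 2 ≤ (law F).real Uᶜ := by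
    rw [probReal_compl_eq_one_sub hUm]
    linarith
  -- on the good event the luck of the `N` slots is large
  have hpt : ∀ η, Uᶜ.indicator (fun _ => (N : ℝ) * (-c1 - b)) η ≤ max (VV F d η 0 (N * m)) 0 := by
    intro η
    by_cases hη : η ∈ Uᶜ
    · rw [Set.indicator_of_mem hη]
      refine le_trans ?_ (le_max_left _ _)
      have h0 := neg_X_le_VV hd η 0 hNm (N * k)
      have h1 := X_iter_le F d η m hm k N
      have h2 : ∑ i ∈ Finset.range N, X F d η (((i * m : ℕ) : ℤ), (i * k : ℤ)) m k ≤ N * (c1 + b) := by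
        have h3 : ∀ i ∈ Finset.range N, X F d η (((i * m : ℕ) : ℤ), (i * k : ℤ)) m k ≤ c1 + b := by
          intro i hi
          have h4 : η ∉ B i := fun h5 => hη (by rw [hU]; exact Set.mem_biUnion hi h5)
          rw [hB] at h4
          simp only [Set.mem_ofPred_eq, not_lt] at h4
          rw [abs_le] at h4
          linarith [h4.2]
        have h5 := Finset.sum_le_card_nsmul _ _ _ h3
        rwa [Finset.card_range, nsmul_eq_mul] at h5
      have e1 : (N : ℝ) * (-c1 - b) = -(N * (c1 + b)) := by ring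
      rw [e1]
      linarith
    · rw [Set.indicator_of_notMem hη]
      exact le_max_right _ _
  have h1 := integral_mono (μ := law F) ((integrable_const ((N : ℝ) * (-c1 - b))).indicator hUm.compl)
    (bm_max (bm_VV hd 0 hNm) (BM.const 0)).int hpt
  rw [integral_indicator hUm.compl, setIntegral_const, smul_eq_mul] at h1
  have h2 := posVV_le hd ht hNm
  have h5 : (1 / 2) * ((N : ℝ) * (-c1 - b)) ≤ (law F).real Uᶜ * ((N : ℝ) * (-c1 - b)) :=
    mul_le_mul_of_nonneg_right hUc (by positivity)
  rw [div_lt_iff₀ hNpos] at hcon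
  linarith

/-- The mean of the luck on a small event (from the luck bound for bounded densities). -/
theorem luck_bad (hd : Adm F κ d) (ht : Touch F d) {m M : ℕ} (hm : 1 ≤ m) {ε δ : ℝ} {S : Set Env} (hS : MeasurableSet S)
    (hSd : ∀ η η' : Env, (∀ e ∈ F.co.slab 0 m, η e = η' e) → (η ∈ S ↔ η' ∈ S)) (hSe : (law F).real S ≤ ε)
    (hδ : 0 < δ) (hδ1 : δ ≤ 1) (hM : 2 / δ * m ≤ M) :
    ∫ η, S.indicator (fun η => max (VV F d η 0 m) 0) η ∂(law F) ≤ 7 * EE F d M * (ε + δ) := by
  classical
  obtain ⟨z, hz⟩ := exists_ref hd M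
  have hm1 : (1 : ℝ) ≤ m := by exact_mod_cast hm
  have hmM : m ≤ M := by
    have h1 : (1 : ℝ) ≤ 2 / δ := by
      rw [le_div_iff₀ hδ]
      linarith
    have h2 : (m : ℝ) ≤ M := by nlinarith
    exact_mod_cast h2
  have hA : 0 < EE F d M := EE_pos F d M
  have hε : 0 ≤ ε := measureReal_nonneg.trans hSe
  have hV := bm_VV hd 0 hm
  obtain ⟨T, hT⟩ : ∃ T : Set Env, T = S ∩ {η | 0 ≤ VV F d η 0 m} := ⟨_, rfl⟩
  have hTm : MeasurableSet T := by
    rw [hT]
    exact hS.inter (measurableSet_le measurable_const (VV_meas F d 0 m))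
  have hTe : (law F).real T ≤ ε := by
    rw [hT]
    exact (measureReal_mono (μ := law F) (s₂ := S) Set.inter_subset_left (measure_ne_top _ _)).trans hSe
  obtain ⟨q, hq⟩ : ∃ q : ℝ, q = (law F).real T + δ := ⟨_, rfl⟩
  have hqδ : δ ≤ q := by rw [hq]; linarith [measureReal_nonneg (μ := law F) (s := T)]
  have hq0 : 0 < q := hδ.trans_le hqδ
  have hqe : q ≤ ε + δ := by rw [hq]; linarith
  obtain ⟨f, hf⟩ : ∃ f : Env → ℝ, f = fun η => (T.indicator (fun _ => (1 : ℝ)) η + δ) / q := ⟨_, rfl⟩
  have hi1 : Integrable (T.indicator fun _ => (1 : ℝ)) (law F) := (integrable_const _).indicator hTm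
  have hfm : Measurable f := by
    rw [hf]
    exact ((measurable_const.indicator hTm).add measurable_const).div_const q
  have hind : ∀ η, 0 ≤ T.indicator (fun _ => (1 : ℝ)) η ∧ T.indicator (fun _ => (1 : ℝ)) η ≤ 1 := fun η => by
    by_cases h : η ∈ T
    · rw [Set.indicator_of_mem h]; norm_num
    · rw [Set.indicator_of_notMem h]; norm_num
  have hf0 : ∀ η, 0 ≤ f η := fun η => by
    rw [hf]
    have := (hind η).1
    positivity
  have hfD : ∀ η, f η ≤ 2 / δ := fun η => by
    rw [hf]
    show (T.indicator (fun _ => (1 : ℝ)) η + δ) / q ≤ 2 / δ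
    have := (hind η).2
    exact div_le_div₀ (by norm_num) (by linarith) hδ hqδ
  have hf1 : ∫ η, f η ∂(law F) = 1 := by
    rw [hf]
    show ∫ η, (T.indicator (fun _ => (1 : ℝ)) η + δ) / q ∂(law F) = 1
    rw [integral_div, integral_add hi1 (integrable_const _), integral_indicator_const _ hTm, integral_const,
      probReal_univ, one_smul, smul_eq_mul, mul_one, ← hq, div_self hq0.ne']
  have hVd : ∀ η η' : Env, (∀ e ∈ F.co.slab 0 m, η e = η' e) → VV F d η 0 m = VV F d η' 0 m := by
    intro η η' h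
    have h0 : ∀ e ∈ F.co.slab (0 : Pt).1 ((0 : Pt).1 + (m : ℤ)), η e = η' e := fun e he => h e (by simpa using he)
    exact VV_dep F d 0 m h0
  have hfd : DependsOn f (F.co.slab 0 m) := by
    intro η η' h
    have h1 : η ∈ T ↔ η' ∈ T := by
      rw [hT]
      simp only [Set.mem_inter_iff, Set.mem_ofPred_eq]
      rw [hVd η η' h, hSd η η' h]
    rw [hf]
    show (T.indicator (fun _ => (1 : ℝ)) η + δ) / q = (T.indicator (fun _ => (1 : ℝ)) η' + δ) / q
    by_cases h3 : η ∈ T
    · rw [Set.indicator_of_mem h3, Set.indicator_of_mem (h1.1 h3)]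
    · rw [Set.indicator_of_notMem h3, Set.indicator_of_notMem fun h4 => h3 (h1.2 h4)]
  have key := luck_density0 hd hm z hz (fun j hj _ => VV_mean_le hd ht hj) hfm hf0 hfD hf1 hfd hM
  -- lower bound of the mean of the luck
  have hV0 : -EE F d M ≤ ∫ η, VV F d η 0 m ∂(law F) := by
    have h1 : ∫ η, -max (X F d η 0 m (z m)) 0 ∂(law F) ≤ ∫ η, VV F d η 0 m ∂(law F) := by
      refine integral_mono (bm_max (bm_X hd 0 hm _) (BM.const 0)).neg.int hV.int fun η => ?_
      have h2 := neg_X_le_VV hd η 0 hm (z m)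
      have h3 := le_max_left (X F d η 0 m (z m)) 0
      show -max (X F d η 0 m (z m)) 0 ≤ VV F d η 0 m
      linarith
    rw [integral_neg] at h1
    have h4 := hz m hm hmM
    linarith
  -- the integral of `f VV`
  have hVp := bm_max hV (BM.const (α := Env) 0)
  have hfV : ∫ η, f η * VV F d η 0 m ∂(law F) =
      ((∫ η, S.indicator (fun η => max (VV F d η 0 m) 0) η ∂(law F)) + δ * ∫ η, VV F d η 0 m ∂(law F)) / q := by
    have e1 : ∀ η, f η * VV F d η 0 m =
        (S.indicator (fun η => max (VV F d η 0 m) 0) η + δ * VV F d η 0 m) / q := by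
      intro η
      rw [hf]
      show (T.indicator (fun _ => (1 : ℝ)) η + δ) / q * VV F d η 0 m =
        (S.indicator (fun η => max (VV F d η 0 m) 0) η + δ * VV F d η 0 m) / q
      have e2 : T.indicator (fun _ => (1 : ℝ)) η * VV F d η 0 m = S.indicator (fun η => max (VV F d η 0 m) 0) η := by
        by_cases h3 : η ∈ S
        · rw [Set.indicator_of_mem h3]
          rcases le_or_gt 0 (VV F d η 0 m) with h4 | h4
          · have h5 : η ∈ T := by
              rw [hT]
              exact ⟨h3, h4⟩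
            rw [Set.indicator_of_mem h5, one_mul, max_eq_left h4]
          · have h5 : η ∉ T := fun h6 => by
              rw [hT] at h6
              exact absurd h6.2 (not_le.2 h4)
            rw [Set.indicator_of_notMem h5, zero_mul, max_eq_right h4.le]
        · have h5 : η ∉ T := fun h6 => by
            rw [hT] at h6
            exact h3 h6.1
          rw [Set.indicator_of_notMem h3, Set.indicator_of_notMem h5, zero_mul]
      rw [← e2]
      ring
    rw [integral_congr_ae (Filter.Eventually.of_forall e1), integral_div, integral_add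
      (hVp.int.indicator hS) (hV.int.const_mul δ), integral_const_mul]
  rw [hfV, div_le_iff₀ hq0] at key
  have h5 : 6 * EE F d M * q ≤ 6 * EE F d M * (ε + δ) := mul_le_mul_of_nonneg_left hqe (by positivity)
  nlinarith

/-- The mean negative part of the cost. -/
theorem minus_small (hd : Adm F κ d) (ht : Touch F d) {m M : ℕ} (hm : 1 ≤ m) {k : ℤ} {c1 b ε A δ : ℝ}
    (hb : 0 ≤ b) (hconc : (law F).real {η | b < |X F d η 0 m k - c1|} ≤ ε) {N : ℕ} (hN1 : 1 ≤ N)
    (hN : N * ε ≤ 1 / 2) (hA : es F d (N * m) ≤ A) (hδ : 0 < δ) (hδ1 : δ ≤ 1) (hM : 2 / δ * m ≤ M) :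
    ∫ η, max (-X F d η 0 m k) 0 ∂(law F) ≤ 2 * b + 2 * A / N + 7 * EE F d M * (ε + δ) := by
  have hc := const_ge hd ht hm hconc hN1 hN hA
  have hA0 : 0 ≤ A := (es_nonneg F d _).trans hA
  have hNpos : (0 : ℝ) < N := by exact_mod_cast hN1
  have hAN : 0 ≤ 2 * A / N := by positivity
  have hX := bm_X hd 0 hm k
  have hV := bm_VV hd 0 hm
  have hVp := bm_max hV (BM.const (α := Env) 0)
  obtain ⟨S, hS⟩ : ∃ S : Set Env, S = {η : Env | b < |X F d η 0 m k - c1|} := ⟨_, rfl⟩
  have hm0 : MeasurableSet S := by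
    rw [hS]
    exact measurableSet_lt measurable_const (measurable_norm.comp ((X_meas F d 0 m k).sub measurable_const))
  have hSd : ∀ η η' : Env, (∀ e ∈ F.co.slab 0 m, η e = η' e) → (η ∈ S ↔ η' ∈ S) := by
    intro η η' h
    have h0 : ∀ e ∈ F.co.slab (0 : Pt).1 ((0 : Pt).1 + (m : ℤ)), η e = η' e := fun e he => h e (by simpa using he)
    have h1 : X F d η 0 m k = X F d η' 0 m k := X_dep F d 0 m k h0
    rw [hS]
    simp only [Set.mem_ofPred_eq]
    rw [h1]
  have hSe : (law F).real S ≤ ε := by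
    rw [hS]
    exact hconc
  have hbad := luck_bad hd ht hm hm0 hSd hSe hδ hδ1 hM
  have hpt : ∀ η, max (-X F d η 0 m k) 0 ≤ (2 * b + 2 * A / N) + S.indicator (fun η => max (VV F d η 0 m) 0) η := by
    intro η
    by_cases hη : η ∈ S
    · rw [Set.indicator_of_mem hη]
      have h1 := neg_X_le_VV hd η 0 hm k
      have h2 := le_max_left (VV F d η 0 m) 0
      have h3 := le_max_right (VV F d η 0 m) 0
      refine max_le ?_ ?_ <;> linarith
    · rw [Set.indicator_of_notMem hη]
      rw [hS] at hη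
      simp only [Set.mem_ofPred_eq, not_lt] at hη
      rw [abs_le] at hη
      refine max_le ?_ ?_ <;> linarith [hη.1]
  have hi2 : Integrable (S.indicator fun η => max (VV F d η 0 m) 0) (law F) := hVp.int.indicator hm0
  have h1 := integral_mono (bm_max hX.neg (BM.const 0)).int
    ((integrable_const (2 * b + 2 * A / N)).add hi2) hpt
  have h2 : ∫ η, ((2 * b + 2 * A / N) + S.indicator (fun η => max (VV F d η 0 m) 0) η) ∂(law F) =
      (2 * b + 2 * A / N) + ∫ η, S.indicator (fun η => max (VV F d η 0 m) 0) η ∂(law F) := by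
    rw [integral_add (integrable_const _) hi2, integral_const, probReal_univ, one_smul]
  have h3 : ∫ η, max (-X F d η 0 m k) 0 ∂(law F) ≤
      (2 * b + 2 * A / N) + ∫ η, S.indicator (fun η => max (VV F d η 0 m) 0) η ∂(law F) := h2 ▸ h1
  linarith

/-- The mean positive part is the mean plus the mean negative part. -/
theorem ep_eq (hd : Adm F κ d) {m : ℕ} (hm : 1 ≤ m) (k : ℤ) :
    ep F d m k = e F d m k + ∫ η, max (-X F d η 0 m k) 0 ∂(law F) := by
  have hX := bm_X hd 0 hm k
  unfold ep e
  rw [← integral_add hX.int (bm_max hX.neg (BM.const 0)).int]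
  refine integral_congr_ae (Filter.Eventually.of_forall fun η => ?_)
  show max (X F d η 0 m k) 0 = X F d η 0 m k + max (-X F d η 0 m k) 0
  rcases le_total 0 (X F d η 0 m k) with h | h
  · rw [max_eq_left h, max_eq_right (by linarith)]
    ring
  · rw [max_eq_right h, max_eq_left (by linarith)]
    ring

/-- **(iv), (v)**: if the cost of a displacement is concentrated around some constant, then its mean positive part is at most its
mean plus small quantities. -/
theorem ep_conc (hd : Adm F κ d) (ht : Touch F d) {m M : ℕ} (hm : 1 ≤ m) {k : ℤ} {c1 b ε A δ : ℝ}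
    (hb : 0 ≤ b) (hconc : (law F).real {η | b < |X F d η 0 m k - c1|} ≤ ε) {N : ℕ} (hN1 : 1 ≤ N)
    (hN : N * ε ≤ 1 / 2) (hA : es F d (N * m) ≤ A) (hδ : 0 < δ) (hδ1 : δ ≤ 1) (hM : 2 / δ * m ≤ M) :
    ep F d m k ≤ e F d m k + (2 * b + 2 * A / N + 7 * EE F d M * (ε + δ)) := by
  rw [ep_eq hd hm]
  have := minus_small hd ht hm hb hconc hN1 hN hA hδ hδ1 hM
  linarith

end

end Pool.Agent.W_1b8d5d_h4p
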