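import Mathlib

/-!
MP_1b8d5d_pr, track P (planar first-passage percolation, zero temperature): the class of functionals. `Mp S F`: `F` is the maximum
of finitely many functions `c - ∑ e ∈ A, τ e` with `A` a finite set of edges in `S` (max-plus polynomials: `F = - T` for passage
times, lucks, passage times restricted to regions, maxima over end points). `Fz a b S F`: `F` agrees with such a function on the
environments with values in `[a, b]`. General index type. (helper4)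
-/

namespace Pool.Agent.W_1b8d5d_h4p

open Set

variable {I : Type*}

/-- Max-plus polynomials with sites in `S`. -/
def Mp (S : Set I) (F : (I → ℝ) → ℝ) : Prop :=
  ∃ (N : ℕ) (c : Fin (N + 1) → ℝ) (A : Fin (N + 1) → Finset I), (∀ k, (A k : Set I) ⊆ S) ∧
    ∀ τ, F τ = Finset.univ.sup' Finset.univ_nonempty fun k => c k - ∑ e ∈ A k, τ e

theorem Mp.of_fintype {S : Set I} {F : (I → ℝ) → ℝ} {ι : Type*} [Fintype ι] [Nonempty ι] (c : ι → ℝ) (A : ι → Finset I)
    (hA : ∀ k, (A k : Set I) ⊆ S) (h : ∀ τ, F τ = Finset.univ.sup' Finset.univ_nonempty fun k => c k - ∑ e ∈ A k, τ e) :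
    Mp S F := by
  obtain ⟨N, hN⟩ : ∃ N, Fintype.card ι = N + 1 := ⟨Fintype.card ι - 1, (Nat.succ_pred_eq_of_pos Fintype.card_pos).symm⟩
  obtain ⟨e⟩ : Nonempty (Fin (N + 1) ≃ ι) := ⟨(Fintype.equivFinOfCardEq hN).symm⟩
  refine ⟨N, fun k => c (e k), fun k => A (e k), fun k => hA _, fun τ => ?_⟩
  rw [h τ]
  refine le_antisymm (Finset.sup'_le _ _ fun k _ => ?_) (Finset.sup'_le _ _ fun k _ => ?_)
  · have := Finset.le_sup' (fun k => c (e k) - ∑ x ∈ A (e k), τ x) (Finset.mem_univ (e.symm k))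
    simp only [e.apply_symm_apply] at this
    exact this
  · exact Finset.le_sup' (fun k => c k - ∑ x ∈ A k, τ x) (Finset.mem_univ (e k))

theorem Mp.mono {S S' : Set I} {F : (I → ℝ) → ℝ} (h : Mp S F) (hS : S ⊆ S') : Mp S' F := by
  obtain ⟨N, c, A, h1, h2⟩ := h
  exact ⟨N, c, A, fun k => (h1 k).trans hS, h2⟩

theorem Mp.congr {S : Set I} {F F' : (I → ℝ) → ℝ} (h : Mp S F) (hF : ∀ τ, F' τ = F τ) : Mp S F' := by
  obtain ⟨N, c, A, h1, h2⟩ := h
  exact ⟨N, c, A, h1, fun τ => by rw [hF, h2]⟩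

theorem Mp.single {S : Set I} (r : ℝ) (A : Finset I) (hA : (A : Set I) ⊆ S) : Mp S fun τ => r - ∑ e ∈ A, τ e := by
  refine Mp.of_fintype (ι := Unit) (fun _ => r) (fun _ => A) (fun _ => hA) fun τ => ?_
  simp

theorem Mp.const (S : Set I) (r : ℝ) : Mp S fun _ => r :=
  (Mp.single r ∅ (by simp)).congr fun τ => by simp

theorem Mp.neg_site (e : I) : Mp {e} fun τ => -τ e :=
  (Mp.single 0 {e} (by simp)).congr fun τ => by simp

theorem Mp.max {S : Set I} {F G : (I → ℝ) → ℝ} (hF : Mp S F) (hG : Mp S G) : Mp S fun τ => Max.max (F τ) (G τ) := by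
  obtain ⟨N, c, A, h1, h2⟩ := hF
  obtain ⟨M, d, B, k1, k2⟩ := hG
  refine Mp.of_fintype (ι := Fin (N + 1) ⊕ Fin (M + 1)) (Sum.elim c d) (Sum.elim A B) ?_ fun τ => ?_
  · rintro (k | k)
    · exact h1 k
    · exact k1 k
  · rw [h2, k2]
    refine le_antisymm (max_le (Finset.sup'_le _ _ fun k _ => ?_) (Finset.sup'_le _ _ fun k _ => ?_))
      (Finset.sup'_le _ _ fun k _ => ?_)
    · exact Finset.le_sup' (fun k : Fin (N + 1) ⊕ Fin (M + 1) => Sum.elim c d k - ∑ x ∈ Sum.elim A B k, τ x)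
        (Finset.mem_univ (Sum.inl k))
    · exact Finset.le_sup' (fun k : Fin (N + 1) ⊕ Fin (M + 1) => Sum.elim c d k - ∑ x ∈ Sum.elim A B k, τ x)
        (Finset.mem_univ (Sum.inr k))
    · rcases k with k | k
      · exact le_max_of_le_left (Finset.le_sup' (fun k => c k - ∑ x ∈ A k, τ x) (Finset.mem_univ k))
      · exact le_max_of_le_right (Finset.le_sup' (fun k => d k - ∑ x ∈ B k, τ x) (Finset.mem_univ k))

theorem Mp.sup' {S : Set I} {ι : Type*} (K : Finset ι) (hK : K.Nonempty) {F : ι → (I → ℝ) → ℝ} (h : ∀ k ∈ K, Mp S (F k)) :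
    Mp S fun τ => K.sup' hK fun k => F k τ := by
  classical
  induction K using Finset.induction_on with
  | empty => exact absurd hK Finset.not_nonempty_empty
  | insert k t hk ih =>
    rcases t.eq_empty_or_nonempty with ht | ht
    · subst ht
      exact (h k (Finset.mem_insert_self _ _)).congr fun τ => by simp
    · exact ((h k (Finset.mem_insert_self _ _)).max (ih ht fun j hj => h j (Finset.mem_insert_of_mem hj))).congr
        fun τ => by rw [Finset.sup'_insert ht]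

/-- Sums of functionals of disjoint sets of edges. -/
theorem Mp.add {S S' : Set I} {F G : (I → ℝ) → ℝ} (hF : Mp S F) (hG : Mp S' G) (hd : Disjoint S S') :
    Mp (S ∪ S') fun τ => F τ + G τ := by
  classical
  obtain ⟨N, c, A, h1, h2⟩ := hF
  obtain ⟨M, d, B, k1, k2⟩ := hG
  refine Mp.of_fintype (ι := Fin (N + 1) × Fin (M + 1)) (fun p => c p.1 + d p.2) (fun p => A p.1 ∪ B p.2) (fun p => ?_)
    fun τ => ?_
  · rw [Finset.coe_union]
    exact Set.union_subset_union (h1 _) (k1 _)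
  · have hsum : ∀ p : Fin (N + 1) × Fin (M + 1), c p.1 + d p.2 - ∑ x ∈ A p.1 ∪ B p.2, τ x =
        (c p.1 - ∑ x ∈ A p.1, τ x) + (d p.2 - ∑ x ∈ B p.2, τ x) := by
      intro p
      have hAB : Disjoint (A p.1) (B p.2) := by
        rw [Finset.disjoint_left]
        intro x hx hx'
        exact Set.disjoint_left.1 hd (h1 p.1 hx) (k1 p.2 hx')
      rw [Finset.sum_union hAB]
      ring
    rw [h2, k2]
    refine le_antisymm ?_ (Finset.sup'_le _ _ fun p _ => ?_)
    · obtain ⟨k, -, hk⟩ := Finset.exists_mem_eq_sup' (s := (Finset.univ : Finset (Fin (N + 1)))) Finset.univ_nonempty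
        fun k => c k - ∑ x ∈ A k, τ x
      obtain ⟨j, -, hj⟩ := Finset.exists_mem_eq_sup' (s := (Finset.univ : Finset (Fin (M + 1)))) Finset.univ_nonempty
        fun k => d k - ∑ x ∈ B k, τ x
      rw [hk, hj, ← hsum (k, j)]
      exact Finset.le_sup' (fun p : Fin (N + 1) × Fin (M + 1) => c p.1 + d p.2 - ∑ x ∈ A p.1 ∪ B p.2, τ x)
        (Finset.mem_univ (k, j))
    · rw [hsum p]
      exact add_le_add (Finset.le_sup' (fun k => c k - ∑ x ∈ A k, τ x) (Finset.mem_univ p.1))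
        (Finset.le_sup' (fun k => d k - ∑ x ∈ B k, τ x) (Finset.mem_univ p.2))

theorem Mp.add_const {S : Set I} {F : (I → ℝ) → ℝ} (hF : Mp S F) (r : ℝ) : Mp S fun τ => F τ + r := by
  have := (hF.add (Mp.const ∅ r) (Set.disjoint_empty S)).mono (S' := S) (by simp)
  exact this

/-- Functionals of a shifted environment. -/
theorem Mp.comp {S : Set I} {F : (I → ℝ) → ℝ} (hF : Mp S F) {σ : I → I} (hσ : Function.Injective σ) :
    Mp (σ '' S) fun τ => F fun e => τ (σ e) := by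
  classical
  obtain ⟨N, c, A, h1, h2⟩ := hF
  refine ⟨N, c, fun k => (A k).map ⟨σ, hσ⟩, fun k => ?_, fun τ => ?_⟩
  · rw [Finset.coe_map]
    exact Set.image_mono (h1 k)
  · show F (fun e => τ (σ e)) = _
    rw [h2]
    congr 1
    funext k
    rw [Finset.sum_map]
    rfl

theorem Mp.measurable {S : Set I} {F : (I → ℝ) → ℝ} (hF : Mp S F) : Measurable F := by
  obtain ⟨N, c, A, h1, h2⟩ := hF
  have : F = fun τ => Finset.univ.sup' Finset.univ_nonempty fun k => c k - ∑ e ∈ A k, τ e := funext h2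
  rw [this]
  have h3 := Finset.measurable_sup' (s := (Finset.univ : Finset (Fin (N + 1)))) Finset.univ_nonempty
    (f := fun k (τ : I → ℝ) => c k - ∑ e ∈ A k, τ e) fun k _ =>
      measurable_const.sub (Finset.measurable_sum _ fun e _ => measurable_pi_apply e)
  have h4 : (fun τ => Finset.univ.sup' Finset.univ_nonempty fun k => c k - ∑ e ∈ A k, τ e) =
      Finset.univ.sup' Finset.univ_nonempty fun k (τ : I → ℝ) => c k - ∑ e ∈ A k, τ e := by
    funext τ
    rw [Finset.sup'_apply]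
  rw [h4]
  exact h3

theorem Mp.dependsOn {S : Set I} {F : (I → ℝ) → ℝ} (hF : Mp S F) : DependsOn F S := by
  obtain ⟨N, c, A, h1, h2⟩ := hF
  intro τ τ' h
  rw [h2, h2]
  congr 1
  funext k
  rw [Finset.sum_congr rfl fun e he => h e (h1 k he)]

/-- The environment has values in `[a, b]`. -/
def Bx (a b : ℝ) (τ : I → ℝ) : Prop := ∀ e, a ≤ τ e ∧ τ e ≤ b

/-- `F` agrees with a max-plus polynomial with sites in `S` on the environments with values in `[a, b]`. -/
def Fz (a b : ℝ) (S : Set I) (F : (I → ℝ) → ℝ) : Prop :=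
  ∃ F' : (I → ℝ) → ℝ, Mp S F' ∧ ∀ τ, Bx a b τ → F τ = F' τ

variable {a b : ℝ}

theorem Mp.fz {S : Set I} {F : (I → ℝ) → ℝ} (h : Mp S F) : Fz a b S F := ⟨F, h, fun _ _ => rfl⟩

theorem Fz.mono {S S' : Set I} {F : (I → ℝ) → ℝ} (h : Fz a b S F) (hS : S ⊆ S') : Fz a b S' F := by
  obtain ⟨F', h1, h2⟩ := h
  exact ⟨F', h1.mono hS, h2⟩

theorem Fz.congr {S : Set I} {F G : (I → ℝ) → ℝ} (h : Fz a b S F) (hG : ∀ τ, Bx a b τ → G τ = F τ) : Fz a b S G := by
  obtain ⟨F', h1, h2⟩ := h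
  exact ⟨F', h1, fun τ hτ => (hG τ hτ).trans (h2 τ hτ)⟩

theorem Fz.const (S : Set I) (r : ℝ) : Fz a b S fun _ => r := (Mp.const S r).fz

theorem Fz.max {S : Set I} {F G : (I → ℝ) → ℝ} (hF : Fz a b S F) (hG : Fz a b S G) :
    Fz a b S fun τ => Max.max (F τ) (G τ) := by
  obtain ⟨F', h1, h2⟩ := hF
  obtain ⟨G', k1, k2⟩ := hG
  exact ⟨_, h1.max k1, fun τ hτ => congrArg₂ Max.max (h2 τ hτ) (k2 τ hτ)⟩

theorem Fz.sup' {S : Set I} {ι : Type*} (K : Finset ι) (hK : K.Nonempty) {F : ι → (I → ℝ) → ℝ}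
    (h : ∀ k ∈ K, Fz a b S (F k)) : Fz a b S fun τ => K.sup' hK fun k => F k τ := by
  classical
  have h1 : ∀ k, ∃ F' : (I → ℝ) → ℝ, k ∈ K → Mp S F' ∧ ∀ τ, Bx a b τ → F k τ = F' τ := by
    intro k
    by_cases hk : k ∈ K
    · obtain ⟨F', h1, h2⟩ := h k hk
      exact ⟨F', fun _ => ⟨h1, h2⟩⟩
    · exact ⟨fun _ => 0, fun hk' => absurd hk' hk⟩
  choose F' hF' using h1
  exact ⟨_, Mp.sup' K hK fun k hk => (hF' k hk).1, fun τ hτ => Finset.sup'_congr hK rfl fun k hk => (hF' k hk).2 τ hτ⟩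

theorem Fz.add {S S' : Set I} {F G : (I → ℝ) → ℝ} (hF : Fz a b S F) (hG : Fz a b S' G) (hd : Disjoint S S') :
    Fz a b (S ∪ S') fun τ => F τ + G τ := by
  obtain ⟨F', h1, h2⟩ := hF
  obtain ⟨G', k1, k2⟩ := hG
  exact ⟨_, h1.add k1 hd, fun τ hτ => congrArg₂ (· + ·) (h2 τ hτ) (k2 τ hτ)⟩

theorem Fz.add_const {S : Set I} {F : (I → ℝ) → ℝ} (hF : Fz a b S F) (r : ℝ) : Fz a b S fun τ => F τ + r := by
  obtain ⟨F', h1, h2⟩ := hF
  exact ⟨_, h1.add_const r, fun τ hτ => congrArg (· + r) (h2 τ hτ)⟩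

theorem Fz.comp {S : Set I} {F : (I → ℝ) → ℝ} (hF : Fz a b S F) {σ : I → I} (hσ : Function.Injective σ) :
    Fz a b (σ '' S) fun τ => F fun e => τ (σ e) := by
  obtain ⟨F', h1, h2⟩ := hF
  exact ⟨_, h1.comp hσ, fun τ hτ => h2 _ fun e => hτ _⟩

/-- Two-sided deterministic bounds on the environments with values in `[a, b]`. -/
theorem Mp.bdd {S : Set I} {F : (I → ℝ) → ℝ} (h : Mp S F) (a b : ℝ) : ∃ C : ℝ, ∀ τ, Bx a b τ → |F τ| ≤ C := by
  obtain ⟨N, c, A, h1, h2⟩ := h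
  have h3 : ∀ k τ, Bx a b τ → |c k - ∑ e ∈ A k, τ e| ≤ |c k| + (A k).card * (|a| + |b|) := by
    intro k τ hτ
    have h4 : |∑ e ∈ A k, τ e| ≤ (A k).card * (|a| + |b|) := by
      refine (Finset.abs_sum_le_sum_abs _ _).trans ?_
      rw [← nsmul_eq_mul, ← Finset.sum_const]
      refine Finset.sum_le_sum fun e _ => ?_
      have := hτ e
      rw [abs_le]
      constructor
      · linarith [neg_abs_le a, abs_nonneg b]
      · linarith [le_abs_self b, abs_nonneg a]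
    calc |c k - ∑ e ∈ A k, τ e| ≤ |c k| + |∑ e ∈ A k, τ e| := abs_sub _ _
      _ ≤ _ := by linarith
  refine ⟨Finset.univ.sup' Finset.univ_nonempty fun k => |c k| + (A k).card * (|a| + |b|), fun τ hτ => ?_⟩
  rw [h2 τ, abs_le]
  constructor
  · have h5 := Finset.le_sup' (fun k => c k - ∑ e ∈ A k, τ e) (Finset.mem_univ (0 : Fin (N + 1)))
    have h6 := Finset.le_sup' (fun k => |c k| + (A k).card * (|a| + |b|)) (Finset.mem_univ (0 : Fin (N + 1)))
    have h7 := (abs_le.1 (h3 0 τ hτ)).1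
    linarith
  · refine Finset.sup'_le _ _ fun k _ => ?_
    exact ((le_abs_self _).trans (h3 k τ hτ)).trans
      (Finset.le_sup' (fun k => |c k| + (A k).card * (|a| + |b|)) (Finset.mem_univ k))

theorem Fz.bdd {S : Set I} {F : (I → ℝ) → ℝ} (h : Fz a b S F) : ∃ C : ℝ, ∀ τ, Bx a b τ → |F τ| ≤ C := by
  obtain ⟨F', h1, h2⟩ := h
  obtain ⟨C, hC⟩ := h1.bdd a b
  exact ⟨C, fun τ hτ => by rw [h2 τ hτ]; exact hC τ hτ⟩

end Pool.Agent.W_1b8d5d_h4p
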