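import Pool.Agent.W_1b8d5d_p.FrWalk
import Pool.Agent.W_1b8d5d_h4p.Mp

/-!
MP_1b8d5d_pr, track P: minus the passage time of the walks with all edges in a set `S` is in the class of functionals `Fz`.
(helper4)
-/

namespace Pool.Agent.W_1b8d5d_h4p

open Set
open Pool.Agent.W_1b8d5d_h85 (V dir Env Edge grid wedges cost Bd)
open Pool.Agent.W_1b8d5d_p

noncomputable section

variable {a b : ℝ} {S : Set Edge} {x y : V}

private theorem fztr_finite (x : V) : (grid.neighborSet x).Finite := by
  refine Set.Finite.subset (Set.toFinite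
    ({x + dir true, x + dir false, x - dir true, x - dir false} : Set V)) ?_
  rintro y ⟨s, h | h⟩
  · cases s <;> simp [h]
  · cases s <;> simp [h]

private noncomputable instance fztr_lf : grid.LocallyFinite := fun x => (fztr_finite x).fintype

open Classical in
/-- The paths with all edges in `S` of length less than `N`. -/
def pathsLT (S : Set Edge) (N : ℕ) (x y : V) : Finset (grid.Walk x y) :=
  (grid.finsetWalkLengthLT N x y).filter fun w => w.IsPath ∧ ∀ e ∈ wedges w, e ∈ S

theorem mem_pathsLT {N : ℕ} {w : grid.Walk x y} :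
    w ∈ pathsLT S N x y ↔ w.length < N ∧ w.IsPath ∧ ∀ e ∈ wedges w, e ∈ S := by
  classical
  unfold pathsLT
  rw [Finset.mem_filter, SimpleGraph.mem_finsetWalkLengthLT_iff]

/-- The restricted passage time is a minimum over finitely many paths. -/
theorem TR_eq_min (ha : 0 < a) (hne : Nonempty (WK S x y)) : ∃ (N : ℕ) (h : (pathsLT S N x y).Nonempty),
    ∀ τ, Bd a b τ → TR S τ x y = (pathsLT S N x y).inf' h fun w => cost τ w := by
  classical
  have hne' := hne
  obtain ⟨⟨w₀, hw₀⟩⟩ := hne'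
  obtain ⟨N, hN⟩ := exists_nat_gt (max (b * w₀.length / a) w₀.length)
  have hN1 : b * w₀.length < a * N := by
    have := (le_max_left _ _).trans_lt hN
    rw [div_lt_iff₀ ha] at this
    linarith
  have hN2 : w₀.length < N := by
    have := (le_max_right _ _).trans_lt hN
    exact_mod_cast this
  have h : (pathsLT S N x y).Nonempty :=
    ⟨w₀.bypass, mem_pathsLT.2 ⟨(w₀.length_bypass_le_length).trans_lt hN2, w₀.bypass_isPath,
      fun e he => hw₀ e (wedges_bypass_subset w₀ he)⟩⟩
  refine ⟨N, h, fun τ hτ => le_antisymm ?_ ?_⟩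
  · refine Finset.le_inf' _ _ fun w hw => ?_
    exact TR_le hτ ha.le w (mem_pathsLT.1 hw).2.2
  · obtain ⟨w, hw1, hw2, hw3⟩ := TR_min hτ ha hne
    rw [← hw3]
    refine Finset.inf'_le _ (mem_pathsLT.2 ⟨?_, hw1, hw2⟩)
    have h1 := Pool.Agent.W_1b8d5d_h85.le_cost hτ w
    have h2 := TR_le hτ ha.le w₀ hw₀
    have h3 := Pool.Agent.W_1b8d5d_h85.cost_le hτ w₀
    have h4 : a * (w.length : ℝ) < a * N := by linarith
    have h5 := lt_of_mul_lt_mul_left h4 ha.le
    exact_mod_cast h5

/-- Minus a restricted passage time is in the class. -/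
theorem fz_TR (ha : 0 < a) (hne : Nonempty (WK S x y)) : Fz a b S fun τ => -TR S τ x y := by
  classical
  obtain ⟨N, h, hN⟩ := TR_eq_min (b := b) ha hne
  refine ⟨fun τ => (pathsLT S N x y).sup' h fun w => 0 - ∑ e ∈ (wedges w).toFinset, τ e,
    Mp.sup' _ h fun w hw => Mp.single 0 _ ?_, fun τ hτ => ?_⟩
  · intro e he
    rw [Finset.mem_coe, List.mem_toFinset] at he
    exact (mem_pathsLT.1 hw).2.2 e he
  · show -TR S τ x y = (pathsLT S N x y).sup' h fun w => 0 - ∑ e ∈ (wedges w).toFinset, τ e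
    rw [hN τ hτ]
    have e1 : ∀ w ∈ pathsLT S N x y, 0 - ∑ e ∈ (wedges w).toFinset, τ e = -cost τ w := by
      intro w hw
      rw [Pool.Agent.W_1b8d5d_h85.cost_path τ (mem_pathsLT.1 hw).2.1, zero_sub]
    rw [Finset.sup'_congr h rfl e1]
    refine le_antisymm ?_ (Finset.sup'_le _ _ fun w hw => ?_)
    · obtain ⟨w, hw, hw'⟩ := Finset.exists_mem_eq_inf' h fun w => cost τ w
      rw [hw']
      exact Finset.le_sup' (fun w => -cost τ w) hw
    · exact neg_le_neg (Finset.inf'_le _ hw)

end

end Pool.Agent.W_1b8d5d_h4p
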