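import Pool.Agent.W_1b8d5d_p.FrameC
import Pool.Agent.W_1b8d5d_p.EdTail33
import Pool.Agent.W_1b8d5d_p.EdB7
import Pool.Agent.W_1b8d5d_p.HsP
import Pool.Agent.W_1b8d5d_p.UnitR
import Pool.Agent.W_1b8d5d_h4p.NSz

/-!
MP_1b8d5d_pr, track P: inputs in the form of the consumers: (MC) for the frame, (L0) = the exponential moments of the luck of the
starting point from the frame, the tails of the costs, (I1) along the octaves. (helper4)
-/

namespace Pool.Agent.W_1b8d5d_h4p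

open MeasureTheory Set Filter Topology
open Pool.Agent.W_1b8d5d_h85 (V nm dir Env Edge grid wedges cost Bd sh)
open Pool.Agent.W_1b8d5d_p
open Pool.Agent.W_1b8d5d_z (BM)

noncomputable section

variable {F : Fm} {c0 C0 κ K : ℝ} {A : Set Dr}

/-- (MC) in the form of the frame. -/
theorem mcz0 (hL : LawH F c0 C0) (h : Dirs F κ K A) : MCz F A := by
  intro p hp
  obtain ⟨T, C, hT, hC, h1⟩ := mc_X hL hp
  refine ⟨C * T, 1, fun d hd n hn y u hAp h2 => ?_⟩
  by_contra hcon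
  rw [not_le] at hcon
  have h3 := h1 κ d (h.adm d hd) (h.touch d hd) n (T * n) hn le_rfl y u hcon.le
  have h4 := EE_mul F d n hT
  have h5 : C * EE F d (T * n) ≤ C * T * EE F d n := by
    have := mul_le_mul_of_nonneg_left h4 (by linarith : 0 ≤ C)
    linarith
  exact absurd (h3.trans (max_le h2.le (h5.trans hAp.le))) (by
    intro h6
    rcases le_total (2 * u) (C * EE F d (T * n)) with h7 | h7
    · rw [max_eq_right h7] at h3
      linarith
    · rw [max_eq_left h7] at h3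
      linarith)

/-- **(L0)**: the exponential moments of the luck of the starting point, for the durations up to `H n`. -/
theorem l0z (hL : LawH F c0 C0) (h : Dirs F κ K A) (hr : Rate F A) (hg : Grow F A) (Hm : ℕ) :
    ∃ (c C : ℝ) (n0 : ℕ), 0 < c ∧ 1 ≤ C ∧ 1 ≤ n0 ∧ ∀ d ∈ A, ∀ n, n0 ≤ n → ∀ N, 1 ≤ N → N ≤ Hm * n →
      ∫ η, Real.exp (c / EE F d n * VV F d η 0 N) ∂(law F) ≤ C := by
  obtain ⟨B, k1, H, n0, hB, hk1, hH, hn0, hf⟩ := h.frame hr hg (mcz0 hL h)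
  have hB0 : 0 < B := by linarith
  have hH0 : (0 : ℝ) < H := by exact_mod_cast hH
  have hHm0 : (0 : ℝ) < (Hm : ℝ) + 1 := by positivity
  refine ⟨4 / (25 * (B * (H * (Hm + 1)))), 1 + 2 * Real.exp 2, n0, by positivity, by
    have := Real.exp_pos 2
    linarith, hn0, fun d hd n hn N hN hNn => ?_⟩
  have hn' : n0 ≤ (Hm + 1) * n := hn.trans (Nat.le_mul_of_pos_left n (Nat.succ_pos Hm))
  obtain ⟨r, T, w, α, β, hk1κ, -, -, -, hw, hls⟩ := hf d hd ((Hm + 1) * n) hn'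
  obtain ⟨E', hE'⟩ : ∃ E' : ℝ, E' = EE F d (H * ((Hm + 1) * n)) := ⟨_, rfl⟩
  rw [← hE'] at hw hls
  have hE'0 : 0 < E' := by
    rw [hE']
    exact EE_pos _ _ _
  have hE0 := EE_pos F d n
  have hEE : E' ≤ H * (Hm + 1) * EE F d n := by
    have h1 := EE_mul F d n (k := H * (Hm + 1)) (Nat.mul_pos hH (Nat.succ_pos Hm))
    rw [mul_assoc] at h1
    rw [hE']
    push_cast at h1 ⊢
    exact h1
  have hadm := h.adm d hd
  have hat := hadm.at r
  have hsl := sl_of hat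
  have hM : (1 : ℝ) ≤ F.co.M := by exact_mod_cast F.co.M_pos
  have hw1 : (1 : ℝ) ≤ w := by exact_mod_cast hls.w1
  have hκ := hadm.κ0
  obtain ⟨t, ht⟩ : ∃ t : ℝ, t = B * E' / (32 * w) := ⟨_, rfl⟩
  have ht0 : 0 ≤ t := by
    rw [ht]
    positivity
  have htK : t ≤ κ * F.co.M := by
    have h1 : t ≤ κ := by
      rw [ht, div_le_iff₀ (by positivity)]
      have h2 : 4 * (B * E') ≤ w * k1 := by
        have h3 := mul_le_mul_of_nonneg_right hw hk1.le
        have h4 : 4 * (B * E' / k1) * k1 = 4 * (B * E') := by field_simp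
        linarith
      nlinarith
    nlinarith
  obtain ⟨θ, hθ⟩ : ∃ θ : ℝ, θ = 4 / (25 * (B * E')) := ⟨_, rfl⟩
  have hθ0 : 0 ≤ θ := by
    rw [hθ]
    positivity
  have hNn' : N ≤ (Hm + 1) * n := hNn.trans (Nat.mul_le_mul_right _ (Nat.le_succ Hm))
  have key := hls.ls N hNn' 0
  rw [← ht, ← hθ] at key
  have hcθ : 4 / (25 * (B * (H * (Hm + 1)))) / EE F d n ≤ θ := by
    rw [hθ, div_div]
    refine div_le_div_of_nonneg_left (by norm_num) (by positivity) ?_
    nlinarith [mul_le_mul_of_nonneg_left hEE hB0.le]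
  have hc0 : 0 ≤ 4 / (25 * (B * (H * (Hm + 1)))) / EE F d n := by positivity
  have hpt : ∀ η, Real.exp (4 / (25 * (B * (H * (Hm + 1)))) / EE F d n * VV F d η 0 N) ≤
      1 + Real.exp (θ * TL F (d.at r) t 0 w N η) := by
    intro η
    have hVT : VV F d η 0 N ≤ TL F (d.at r) t 0 w N η :=
      Pool.Agent.W_1b8d5d_h33p.VV_le_TL hat hsl ht0 htK le_rfl (by linarith) hN η
    rcases le_or_gt (VV F d η 0 N) 0 with hv | hv
    · have h2 : Real.exp (4 / (25 * (B * (H * (Hm + 1)))) / EE F d n * VV F d η 0 N) ≤ 1 :=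
        Real.exp_le_one_iff.2 (mul_nonpos_of_nonneg_of_nonpos hc0 hv)
      linarith [Real.exp_pos (θ * TL F (d.at r) t 0 w N η)]
    · have h2 : Real.exp (4 / (25 * (B * (H * (Hm + 1)))) / EE F d n * VV F d η 0 N) ≤
          Real.exp (θ * TL F (d.at r) t 0 w N η) := by
        refine Real.exp_le_exp.2 ?_
        exact (mul_le_mul_of_nonneg_right hcθ hv.le).trans (mul_le_mul_of_nonneg_left hVT hθ0)
      linarith
  have hi := expTL_int (o := 0) (W := w) (k := N) hsl htK hθ0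
  have h1 := integral_mono (Pool.Agent.W_1b8d5d_h33p.VV_exp_bm hadm hN _) ((integrable_const (1 : ℝ)).add hi) hpt
  refine h1.trans ?_
  show ∫ η, ((1 : ℝ) + Real.exp (θ * TL F (d.at r) t 0 w N η)) ∂(law F) ≤ _
  rw [integral_add (integrable_const _) hi, integral_const, probReal_univ, one_smul]
  linarith

/-- The tails of the costs in the form of the edge data. -/
theorem tlU0 (hL : LawH F c0 C0) (h : Dirs F κ K A) (hr : Rate F A) (hg : Grow F A) (H : ℕ) :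
    ∃ (t0 C1 : ℝ) (n0 : ℕ), 0 < t0 ∧ 1 ≤ C1 ∧ 1 ≤ n0 ∧ Pool.Agent.W_1b8d5d_p7.TlU F A H t0 C1 n0 := by
  obtain ⟨c, C, n0, hc, hC, hn0, h1⟩ := l0z hL h hr hg H
  obtain ⟨cth, K', hcth, hK', h2⟩ := Pool.Agent.W_1b8d5d_h33p.ed_tail hL h.adm hc (n0 := n0) (H := H) h1
  refine ⟨cth, K', n0, hcth, hK', hn0, fun d hd n hn N hN hNH th hth hth' z => ?_⟩
  have hE := EE_pos F d n
  have h3 := h2 (th * EE F d n) (by positivity) (by rwa [le_div_iff₀ hE] at hth') d hd n hn N hN hNH z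
  rwa [mul_div_assoc, div_self hE.ne', mul_one] at h3

/-- The second moment of the luck. -/
theorem sq_le_exp_h4 {x : ℝ} : (max x 0) ^ 2 ≤ 2 * Real.exp x := by
  rcases le_or_gt x 0 with h | h
  · rw [max_eq_right h]
    have := Real.exp_pos x
    nlinarith
  · rw [max_eq_left h.le]
    have := Real.quadratic_le_exp_of_nonneg h.le
    nlinarith

theorem vv_sq0 (hL : LawH F c0 C0) (h : Dirs F κ K A) (hr : Rate F A) (hg : Grow F A) (H : ℕ) :
    ∃ (C2 : ℝ) (n0 : ℕ), 0 < C2 ∧ 1 ≤ n0 ∧ ∀ d ∈ A, ∀ n, n0 ≤ n → ∀ m, 1 ≤ m → m ≤ H * n →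
      ∫ η, (max (VV F d η 0 m) 0) ^ 2 ∂(law F) ≤ C2 * EE F d n ^ 2 := by
  obtain ⟨c, C, n0, hc, hC, hn0, h1⟩ := l0z hL h hr hg H
  refine ⟨2 * C / c ^ 2, n0, by positivity, hn0, fun d hd n hn m hm hmn => ?_⟩
  have hE := EE_pos F d n
  have hV := bm_VV (h.adm d hd) (0 : Pt) hm
  have hVp := bm_max hV (BM.const (α := Env) 0)
  have h2 := h1 d hd n hn m hm hmn
  have h3 : ∀ η, (max (VV F d η 0 m) 0) ^ 2 ≤ 2 * (EE F d n / c) ^ 2 * Real.exp (c / EE F d n * VV F d η 0 m) := by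
    intro η
    have h4 := sq_le_exp_h4 (x := c / EE F d n * VV F d η 0 m)
    have h5 : max (c / EE F d n * VV F d η 0 m) 0 = c / EE F d n * max (VV F d η 0 m) 0 := by
      rw [mul_max_of_nonneg _ _ (by positivity : 0 ≤ c / EE F d n), mul_zero]
    rw [h5, mul_pow] at h4
    have h6 := mul_le_mul_of_nonneg_left h4 (by positivity : 0 ≤ (EE F d n / c) ^ 2)
    have h7 : (EE F d n / c) ^ 2 * ((c / EE F d n) ^ 2 * max (VV F d η 0 m) 0 ^ 2) = max (VV F d η 0 m) 0 ^ 2 := by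
      field_simp
    rw [h7] at h6
    linarith
  have hi := Pool.Agent.W_1b8d5d_h33p.VV_exp_bm (h.adm d hd) hm (c / EE F d n)
  have h8 : ∫ η, (max (VV F d η 0 m) 0) ^ 2 ∂(law F) ≤
      ∫ η, 2 * (EE F d n / c) ^ 2 * Real.exp (c / EE F d n * VV F d η 0 m) ∂(law F) := by
    refine integral_mono ?_ (hi.const_mul _) h3
    have h9 := (hVp.mul hVp).int (μ := law F)
    simp_rw [← pow_two] at h9
    exact h9
  rw [integral_const_mul] at h8
  refine h8.trans ?_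
  calc 2 * (EE F d n / c) ^ 2 * ∫ η, Real.exp (c / EE F d n * VV F d η 0 m) ∂(law F) ≤
        2 * (EE F d n / c) ^ 2 * C := mul_le_mul_of_nonneg_left h2 (by positivity)
    _ = 2 * C / c ^ 2 * EE F d n ^ 2 := by
        rw [div_pow]
        ring

/-- **(I1)** along the octaves, for the directions of the family. -/
theorem i1U (hL : LawH F c0 C0) (h : Dirs F κ K A) (hr : Rate F A) (hg : Grow F A) :
    I1U (EoP F A) (EmP F A) (SfP F κ A) := by
  obtain ⟨C2, n0, hC2, hn0, h1⟩ := vv_sq0 hL h hr hg 1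
  obtain ⟨z0, hz0⟩ : ∃ z0 : ℕ, n0 ≤ 2 ^ z0 := ⟨n0, Nat.lt_two_pow_self.le⟩
  obtain ⟨α, hα, h2⟩ := i1z h.adm h.touch (C2 := C2) (z0 := z0) fun d hd x hx m hm hmx =>
    h1 d hd (2 ^ x) (hz0.trans (Nat.pow_le_pow_right (by norm_num) hx)) m hm (by rw [one_mul]; exact hmx)
  refine ⟨α, z0, fun d z hz hS => ?_⟩
  have h3 := h2 d d.2 z hz hS
  have h4 := Em_pos F (d : Dr) (2 ^ z)
  show EE F d (2 ^ z) ≤ 3 * Em F d (2 ^ z)
  linarith

end

end Pool.Agent.W_1b8d5d_h4p
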