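import Pool.Agent.W_1b8d5d_h4p.RepZ
import Pool.Agent.W_1b8d5d_nc.NcRepC

/-!
MP_1b8d5d_pr, track P: luck amplification LA0 (helper7), the variance lower bound for the log-Laplace transform VL0 (helper7) and
the exponential lower tail LE0 (helper57) for the functionals of the class `Fz` on the law of the environment. (helper4)
-/

namespace Pool.Agent.W_1b8d5d_h4p

open MeasureTheory Set
open Pool.Agent.W_1b8d5d_h85 (V dir Env Edge grid wedges cost Bd sh)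
open Pool.Agent.W_1b8d5d_p Pool.Agent.W_1b8d5d_z
open Pool.Agent.W_7d29a1_h42 (PN)
open Pool.Agent.W_1b8d5d_LE (Mx Dx Pot0_Mx Pot0 IsP0 Dens)

noncomputable section

theorem sw_of_pot0 {N : ℕ} {F : (Fin N → ℝ) → ℝ} {D : Fin N → (Fin N → ℝ) → ℝ} (h : Pot0 F D) : SW N D F :=
  ⟨h.measF, h.measD, fun i x _ => h.D0 i x, fun i x _ => h.D1 i x, fun x y _ _ => h.cvx x y⟩

theorem sw_Mx {n m : ℕ} {c : Fin (m + 1) → ℝ} {A : Fin (m + 1) → Fin n → ℝ} (h0 : ∀ k i, 0 ≤ A k i) (h1 : ∀ k i, A k i ≤ 1) :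
    SW n (Dx c A) (Mx c A) := sw_of_pot0 (Pot0_Mx h0 h1)

variable {F : Fm} {c0 C0 : ℝ}

/-- Functionals of the class are bounded and measurable random variables. -/
theorem Fz.bm {S : Set Edge} {G : Env → ℝ} (h : Fz F.a F.b S G) : BM fun η => G (F.tau η) := by
  obtain ⟨G', h1, h2⟩ := h
  obtain ⟨C, hC⟩ := h1.bdd F.a F.b
  have e : (fun η => G (F.tau η)) = fun η => G' (F.tau η) := funext fun η => h2 _ (bd_tau F η)
  rw [e]
  exact ⟨h1.measurable.comp (tau_meas F), C, fun η => hC _ (bd_tau F η)⟩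

theorem Fz.dep {S : Set Edge} {G : Env → ℝ} (h : Fz F.a F.b S G) : DependsOn (fun η => G (F.tau η)) S := by
  obtain ⟨G', h1, h2⟩ := h
  have e : (fun η => G (F.tau η)) = fun η => G' (F.tau η) := funext fun η => h2 _ (bd_tau F η)
  rw [e]
  exact dep_tau h1.dependsOn

/-- LUCK AMPLIFICATION on the law of the environment. -/
theorem la_law0 (hL : LawH F c0 C0) {c K : ℝ} (hc : 0 < c) (hc1 : c ≤ 1) (hK : 0 ≤ K) : ∃ D U₀ : ℝ, 1 < D ∧ 0 < U₀ ∧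
    ∀ (S : Set Edge) (G : Env → ℝ), Fz F.a F.b S G → ∀ U : ℝ, U₀ ≤ U →
    c ≤ (law F).real {η | c * U ≤ |G (F.tau η) - ∫ ξ, G (F.tau ξ) ∂(law F)|} →
    ∃ f : Env → ℝ, Measurable f ∧ (∀ η, 0 ≤ f η) ∧ (∀ η, f η ≤ D) ∧ ∫ η, f η ∂(law F) = 1 ∧ DependsOn f S ∧
      ∫ η, G (F.tau η) ∂(law F) + K * U ≤ ∫ η, f η * G (F.tau η) ∂(law F) :=
  Pool.Agent.W_1b8d5d_nc.la_lawN hL hc hc1 hK

/-- The functionals of the class, normalised, are in the class of helper57. -/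
theorem Fz.isP0 (hab : F.a < F.b) {S : Set Edge} {G : Env → ℝ} (h : Fz F.a F.b S G) :
    IsP0 (law F) (nrm F) fun η => G (F.tau η) / (F.b - F.a) := by
  have hd : 0 < F.b - F.a := sub_pos.2 hab
  obtain ⟨n, m, c', A, r, hA0, hA1, hr, hrS, hr01, hGr⟩ := exists_rep hab h
  refine ⟨n, Mx c' A, Dx c' A, r, Pot0_Mx hA0 hA1, hr, fun η => ?_⟩
  show G (F.tau η) / (F.b - F.a) = Mx c' A (r η)
  rw [hGr]
  field_simp

/-- THE EXPONENTIAL LOWER TAIL on the law of the environment: there are `κ ∈ (0, 1]` and `t₀ > 0` (of the law) such that an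
exponential bound of the luck `G` at the scale `1 / t1`, `t1 ≤ t₀`, gives the moments of the orders `t ≤ κ t1` with the factor
`exp (t (E G) / 2)`. -/
theorem le_law0 (hL : LawH F c0 C0) : ∃ k t₀ : ℝ, 0 < k ∧ k ≤ 1 ∧ 0 < t₀ ∧ ∀ (S : Set Edge) (G : Env → ℝ),
    Fz F.a F.b S G → ∀ t1 c1 : ℝ, 0 < t1 → t1 ≤ t₀ → 0 ≤ c1 → ∫ η, Real.exp (t1 * G (F.tau η)) ∂(law F) ≤ Real.exp c1 →
    ∀ t : ℝ, 0 < t → t ≤ k * t1 → ∫ η, Real.exp (t * G (F.tau η)) ∂(law F) ≤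
      Real.exp c1 * Real.exp (t * (∫ η, G (F.tau η) ∂(law F)) / 2) :=
  Pool.Agent.W_1b8d5d_nc.le_lawN hL

/-- The lower bound of the log-Laplace transform by the variance, on the law of the environment. -/
theorem vl_law0 (hL : LawH F c0 C0) : ∃ k t₀ : ℝ, 0 < k ∧ 0 < t₀ ∧ ∀ (S : Set Edge) (G : Env → ℝ), Fz F.a F.b S G →
    ∀ t : ℝ, 0 ≤ t → t ≤ t₀ → t * ∫ η, G (F.tau η) ∂(law F) +
      k * t ^ 2 * ∫ η, (G (F.tau η) - ∫ ξ, G (F.tau ξ) ∂(law F)) ^ 2 ∂(law F) ≤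
      Real.log (∫ η, Real.exp (t * G (F.tau η)) ∂(law F)) :=
  Pool.Agent.W_1b8d5d_nc.vl_lawN hL

end

end Pool.Agent.W_1b8d5d_h4p
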