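import Pool.Agent.W_1b8d5d_h4p.ToolZ
import Pool.Agent.W_1b8d5d_h57p.TubeL

/-!
MP_1b8d5d_pr, track P: the inputs `MCR`, `VN` of the tubes, from the luck density. (helper4)
-/

namespace Pool.Agent.W_1b8d5d_h4p

open MeasureTheory Set Filter Topology
open Pool.Agent.W_1b8d5d_h85 (V nm dir Env Edge grid wedges cost Bd sh)
open Pool.Agent.W_1b8d5d_p
open Pool.Agent.W_1b8d5d_h57p (XS MCR VN)

noncomputable section

variable {F : Fm} {c0 C0 κ K : ℝ} {A : Set Dr}

/-- The luck has a nonpositive mean. -/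
theorem vn0 (h : Dirs F κ K A) : VN F A := fun d hd _ hm => VV_mean_le (h.adm d hd) (h.touch d hd) hm

/-- **(MC)** for restricted passage times. -/
theorem mcr0 (hL : LawH F c0 C0) (h : Dirs F κ K A) : MCR F A := by
  intro p hp
  obtain ⟨T, C, hT, hC, h1⟩ := mc0 hL hp
  have hCr := Cr_pos F
  have hT0 : (0 : ℝ) < T := by exact_mod_cast hT
  refine ⟨2 + C / Cr F + 6 * T, by positivity, 1, fun d hd n hn S y hS hne u hu => ?_⟩
  have hadm := h.adm d hd
  rw [zero_add] at hne
  have h2 := h1 κ d hadm (h.touch d hd) n (T * n) le_rfl _ (lk_TR hadm hn hS y hne) u (by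
    refine hu.trans_eq ?_
    congr 1
    ext η
    rw [Set.mem_ofPred_eq, Set.mem_ofPred_eq, neg_le_neg_iff]
    unfold XS
    rw [zero_add])
  have h3 : -∫ η, (fun τ : Env => -(TR S τ (F.co.vt 0) (F.co.vt ((n : ℤ), y)) - (al F.co d * n + be F.co d * y)))
      (F.tau η) ∂(law F) = ∫ η, XS F d S η n y ∂(law F) := by
    rw [← integral_neg]
    refine integral_congr_ae (ae_of_all _ fun η => ?_)
    show -(-(TR S (F.tau η) (F.co.vt 0) (F.co.vt ((n : ℤ), y)) - (al F.co d * n + be F.co d * y))) = XS F d S η n y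
    unfold XS
    rw [zero_add, neg_neg]
  rw [h3] at h2
  have hE := Cr_le_EE F d n
  have hE0 := EE_pos F d n
  have hTE := EE_mul F d n hT
  have hm0 : 0 ≤ max u 0 := le_max_right _ _
  have hq : 0 ≤ C / Cr F := by positivity
  have k1 : C ≤ C / Cr F * EE F d n := by
    calc C = C / Cr F * Cr F := by field_simp
      _ ≤ C / Cr F * EE F d n := mul_le_mul_of_nonneg_left hE hq
  have k2 : 0 ≤ C / Cr F * max u 0 := mul_nonneg hq hm0
  have k3 : 0 ≤ 6 * (T : ℝ) * max u 0 := by positivity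
  have k4 : 0 ≤ C / Cr F * EE F d n := by positivity
  have k5 : 0 ≤ 6 * (T : ℝ) * EE F d n := by positivity
  have k6 : (2 + C / Cr F + 6 * T) * (max u 0 + EE F d n) = 2 * max u 0 + C / Cr F * max u 0 + 6 * T * max u 0 +
      2 * EE F d n + C / Cr F * EE F d n + 6 * T * EE F d n := by ring
  rw [k6]
  refine h2.trans (max_le (max_le ?_ ?_) ?_)
  · have := le_max_left u 0
    linarith
  · linarith
  · linarith

end

end Pool.Agent.W_1b8d5d_h4p
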