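import Pool.Agent.W_1b8d5d_p.FrX
import Pool.Agent.W_1b8d5d_p.VL0
import Pool.Agent.W_1b8d5d_LE.Quant
import Pool.Agent.W_1b8d5d_LE.Tail
import Pool.Agent.W_1b8d5d_h4p.FzTR

/-!
MP_1b8d5d_pr, track P: a functional of the class `Fz` on the law of the environment is `(b - a)` times a maximum of finitely many
affine functions with coefficients `0, 1` of finitely many independent variables in `[0, 1]` (the normalised weights
`(b - τ) / (b - a)`): the adapter between the frame and LA0, VL0 (helper7), LE0 (helper57). (helper4)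
-/

namespace Pool.Agent.W_1b8d5d_h4p

open MeasureTheory Set
open Pool.Agent.W_1b8d5d_h85 (V dir Env Edge grid wedges cost Bd sh)
open Pool.Agent.W_1b8d5d_p Pool.Agent.W_1b8d5d_z
open Pool.Agent.W_7d29a1_h42 (PN)

noncomputable section

/-- THE LAW HYPOTHESIS: the law of a weight is atomless, charges every neighbourhood of its minimum `a`, and is NOT CONCENTRATED
near `a`: if `P (τ ≤ t') ≤ (1 + c) P (τ ≤ t)` then `(t' - t) P (τ ≤ t) ≤ C ∫ₐᵗ P (τ ≤ s) ds`. (Every law with a density between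
two positive constants near `a` is in the class, whatever it does away from `a`.) -/
structure LawH (F : Fm) (c C : ℝ) : Prop where
  ab : F.a < F.b
  c0 : 0 < c
  at0 : ∀ x, (F.nu.map F.g) {x} = 0
  pos : ∀ u, 0 < u → 0 < (F.nu.map F.g).real (Iic (F.a + u))
  nc : ∀ t t', F.a < t → t ≤ t' → t' ≤ F.b →
    (F.nu.map F.g).real (Iic t') ≤ (1 + c) * (F.nu.map F.g).real (Iic t) →
    (t' - t) * (F.nu.map F.g).real (Iic t) ≤ C * ∫ s in F.a..t, (F.nu.map F.g).real (Iic s)

/-- The normalised weight. -/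
def nw (F : Fm) (t : ℝ) : ℝ := (F.b - F.g t) / (F.b - F.a)

/-- The law of the normalised weight. -/
def nrm (F : Fm) : Measure ℝ := F.nu.map (nw F)

theorem nw_meas (F : Fm) : Measurable (nw F) := (measurable_const.sub F.mg).div_const _

instance (F : Fm) : IsProbabilityMeasure (nrm F) := Measure.isProbabilityMeasure_map (nw_meas F).aemeasurable

theorem nw_mem {F : Fm} (hab : F.a < F.b) (t : ℝ) : nw F t ∈ Icc (0 : ℝ) 1 := by
  have h1 := F.g1 t
  have h2 := F.g2 t
  have h3 : 0 < F.b - F.a := by linarith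
  unfold nw
  exact ⟨div_nonneg (by linarith) h3.le, (div_le_one h3).2 (by linarith)⟩

/-- The image of Lebesgue measure on `[a, b]` under the affine map. -/
theorem map_aff {a b : ℝ} (hab : a < b) :
    (volume.restrict (Icc a b)).map (fun t => (b - t) / (b - a)) = ENNReal.ofReal (b - a) • U01 := by
  have hd : 0 < b - a := sub_pos.2 hab
  have hm : Measurable fun t : ℝ => (b - t) / (b - a) := by fun_prop
  ext s hs
  rw [Measure.map_apply hm hs, Measure.restrict_apply (hm hs), Measure.smul_apply, Measure.restrict_apply hs, smul_eq_mul]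
  have e1 : (fun t : ℝ => (b - t) / (b - a)) ⁻¹' s ∩ Icc a b = (fun t : ℝ => (b - t) / (b - a)) ⁻¹' (s ∩ Icc 0 1) := by
    ext t
    simp only [mem_inter_iff, mem_preimage, mem_Icc]
    constructor
    · rintro ⟨h1, h2, h3⟩
      exact ⟨h1, div_nonneg (by linarith) hd.le, (div_le_one hd).2 (by linarith)⟩
    · rintro ⟨h1, h2, h3⟩
      rw [le_div_iff₀ hd] at h2
      rw [div_le_one hd] at h3
      exact ⟨h1, by linarith, by linarith⟩
  rw [e1]
  have e2 : (fun t : ℝ => (b - t) / (b - a)) ⁻¹' (s ∩ Icc 0 1) =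
      (fun t : ℝ => b - t) ⁻¹' ((fun t : ℝ => t * (b - a)⁻¹) ⁻¹' (s ∩ Icc 0 1)) := by
    ext t
    simp only [mem_preimage, div_eq_mul_inv]
  rw [e2]
  have h1 : Measurable fun t : ℝ => t * (b - a)⁻¹ := by fun_prop
  rw [(Measure.measurePreserving_sub_left (volume : Measure ℝ) b).measure_preimage (h1 (hs.inter measurableSet_Icc)).nullMeasurableSet,
    Real.volume_preimage_mul_right (inv_ne_zero hd.ne'), inv_inv, abs_of_pos hd]

theorem nrm_eq {F : Fm} : nrm F = (F.nu.map F.g).map fun t => (F.b - t) / (F.b - F.a) := by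
  rw [Measure.map_map (by fun_prop) F.mg]
  rfl

/-- The law of finitely many distinct edges. -/
theorem map_edges (F : Fm) {ι : Type*} [Fintype ι] (x : ι → Edge) (hx : Function.Injective x) :
    (law F).map (fun (η : Env) (i : ι) => η (x i)) = Measure.pi fun _ : ι => F.nu := by
  have h := Measure.map_infinitePi_infinitePi_of_inj (P := fun _ : Edge => F.nu) hx
  rw [law, ← Measure.infinitePi_eq_pi]
  exact h

open Pool.Agent.W_1b8d5d_LE (Mx Dx Pot0_Mx Pot0) in
/-- THE REPRESENTATION, for all environments with values in `[a', b]`. -/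
theorem exists_rep' {F : Fm} (hab : F.a < F.b) {a' : ℝ} {S : Set Edge} {G : Env → ℝ} (h : Fz a' F.b S G) :
    ∃ (n m : ℕ) (c : Fin (m + 1) → ℝ) (A : Fin (m + 1) → Fin n → ℝ) (x : Fin n → Edge),
      (∀ k i, 0 ≤ A k i) ∧ (∀ k i, A k i ≤ 1) ∧ Function.Injective x ∧ (∀ i, x i ∈ S) ∧
      ∀ τ, Bx a' F.b τ → G τ = (F.b - F.a) * Mx c A fun i => (F.b - τ (x i)) / (F.b - F.a) := by
  classical
  obtain ⟨G', ⟨m, c, A, h1, h2⟩, h3⟩ := h
  have hd : 0 < F.b - F.a := sub_pos.2 hab
  obtain ⟨T, hT⟩ : ∃ T : Finset Edge, T = Finset.univ.biUnion A := ⟨_, rfl⟩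
  have hTS : (T : Set Edge) ⊆ S := by
    intro p hp
    rw [hT, Finset.mem_coe, Finset.mem_biUnion] at hp
    obtain ⟨i, -, hi⟩ := hp
    exact h1 i hi
  have hAT : ∀ i, A i ⊆ T := fun i => by
    rw [hT]
    exact Finset.subset_biUnion_of_mem A (Finset.mem_univ i)
  obtain ⟨e⟩ : Nonempty (Fin (Fintype.card T) ≃ T) := ⟨(Fintype.equivFin T).symm⟩
  obtain ⟨x, hxdef⟩ : ∃ x : Fin (Fintype.card T) → Edge, x = fun i => ((e i : T) : Edge) := ⟨_, rfl⟩
  have hx : Function.Injective x := by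
    intro i j hij
    rw [hxdef] at hij
    exact e.injective (Subtype.ext hij)
  have hsum : ∀ (k : Fin (m + 1)) (τ : Env), ∑ i, (if x i ∈ A k then (1 : ℝ) else 0) * ((F.b - τ (x i)) / (F.b - F.a)) =
      ((A k).card * F.b - ∑ p ∈ A k, τ p) / (F.b - F.a) := by
    intro k τ
    have q1 : ∑ i, (if x i ∈ A k then (1 : ℝ) else 0) * ((F.b - τ (x i)) / (F.b - F.a)) =
        ∑ i ∈ Finset.univ.filter (fun i => x i ∈ A k), (F.b - τ (x i)) / (F.b - F.a) := by
      rw [Finset.sum_filter]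
      refine Finset.sum_congr rfl fun i _ => ?_
      split_ifs <;> simp
    have q2 : ∑ i ∈ Finset.univ.filter (fun i => x i ∈ A k), (F.b - τ (x i)) / (F.b - F.a) =
        ∑ p ∈ A k, (F.b - τ p) / (F.b - F.a) := by
      refine Finset.sum_bij (fun i _ => x i) (fun i hi => (Finset.mem_filter.1 hi).2) (fun i _ j _ hij => hx hij)
        (fun p hp => ?_) fun i _ => rfl
      have hpT := hAT k hp
      refine ⟨e.symm ⟨p, hpT⟩, ?_, ?_⟩
      · rw [Finset.mem_filter]
        refine ⟨Finset.mem_univ _, ?_⟩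
        rw [hxdef]
        simpa using hp
      · rw [hxdef]
        simp
    rw [q1, q2, ← Finset.sum_div, Finset.sum_sub_distrib, Finset.sum_const, nsmul_eq_mul]
  refine ⟨Fintype.card T, m, fun k => (c k - (A k).card * F.b) / (F.b - F.a), fun k i => if x i ∈ A k then (1 : ℝ) else 0, x,
    fun k i => by show (0 : ℝ) ≤ if x i ∈ A k then (1 : ℝ) else 0; split_ifs <;> norm_num,
    fun k i => by show (if x i ∈ A k then (1 : ℝ) else 0) ≤ 1; split_ifs <;> norm_num, hx, ?_, fun τ hτ => ?_⟩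
  · intro i
    refine hTS ?_
    rw [hxdef]
    exact (e i).2
  · rw [h3 _ hτ, h2]
    unfold Mx
    have q1 : ∀ k : Fin (m + 1), (c k - (A k).card * F.b) / (F.b - F.a) +
        ∑ i, (if x i ∈ A k then (1 : ℝ) else 0) * ((F.b - τ (x i)) / (F.b - F.a)) = (c k - ∑ p ∈ A k, τ p) / (F.b - F.a) := by
      intro k
      rw [hsum, ← add_div]
      congr 1
      ring
    simp_rw [q1]
    have q4 : ∀ k, (F.b - F.a) * ((c k - ∑ p ∈ A k, τ p) / (F.b - F.a)) = c k - ∑ p ∈ A k, τ p := fun k => by field_simp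
    refine le_antisymm (Finset.sup'_le _ _ fun k _ => ?_) ?_
    · have q2 := Finset.le_sup' (fun k => (c k - ∑ p ∈ A k, τ p) / (F.b - F.a)) (Finset.mem_univ k)
      have q3 := mul_le_mul_of_nonneg_left q2 hd.le
      have := q4 k
      linarith
    · obtain ⟨k, -, hk⟩ := Finset.exists_mem_eq_sup' (s := (Finset.univ : Finset (Fin (m + 1)))) Finset.univ_nonempty
        fun k => (c k - ∑ p ∈ A k, τ p) / (F.b - F.a)
      rw [hk, q4]
      exact Finset.le_sup' (fun k => c k - ∑ p ∈ A k, τ p) (Finset.mem_univ k)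

/-- The normalised weights of finitely many edges. -/
def rx (F : Fm) {n : ℕ} (x : Fin n → Edge) (η : Env) (i : Fin n) : ℝ := (F.b - F.tau η (x i)) / (F.b - F.a)

theorem rx_mp (F : Fm) {n : ℕ} {x : Fin n → Edge} (hx : Function.Injective x) :
    MeasurePreserving (rx F x) (law F) (PN (nrm F) n) := by
  obtain ⟨r0, hr0⟩ : ∃ r0 : Env → (Fin n → ℝ), r0 = fun η i => η (x i) := ⟨_, rfl⟩
  have hr0m : Measurable r0 := by
    rw [hr0]
    exact measurable_pi_lambda _ fun i => measurable_pi_apply _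
  have k1 : MeasurePreserving r0 (law F) (Measure.pi fun _ : Fin n => F.nu) := by
    refine ⟨hr0m, ?_⟩
    rw [hr0]
    exact map_edges F x hx
  have k2 : MeasurePreserving (fun (w : Fin n → ℝ) i => nw F (w i))
      (Measure.pi fun _ : Fin n => F.nu) (Measure.pi fun _ => nrm F) :=
    measurePreserving_pi _ _ fun _ => ⟨nw_meas F, rfl⟩
  have k3 := k2.comp k1
  have k4 : (fun (w : Fin n → ℝ) i => nw F (w i)) ∘ r0 = rx F x := by
    rw [hr0]
    rfl
  rw [k4] at k3
  exact k3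

open Pool.Agent.W_1b8d5d_LE (Mx Dx Pot0_Mx Pot0) in
/-- THE REPRESENTATION. -/
theorem exists_rep {F : Fm} (hab : F.a < F.b) {S : Set Edge} {G : Env → ℝ} (h : Fz F.a F.b S G) :
    ∃ (n m : ℕ) (c : Fin (m + 1) → ℝ) (A : Fin (m + 1) → Fin n → ℝ) (r : Env → Fin n → ℝ),
      (∀ k i, 0 ≤ A k i) ∧ (∀ k i, A k i ≤ 1) ∧ MeasurePreserving r (law F) (PN (nrm F) n) ∧ DependsOn r S ∧
      (∀ η i, r η i ∈ Icc (0 : ℝ) 1) ∧ ∀ η, G (F.tau η) = (F.b - F.a) * Mx c A (r η) := by
  obtain ⟨n, m, c, A, x, h0, h1, hx, hxS, hG⟩ := exists_rep' hab h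
  refine ⟨n, m, c, A, rx F x, h0, h1, rx_mp F hx, ?_, fun η i => nw_mem hab _, fun η => hG _ (bd_tau F η)⟩
  intro η η' hη
  funext i
  show nw F (η (x i)) = nw F (η' (x i))
  rw [hη _ (hxS i)]

end

end Pool.Agent.W_1b8d5d_h4p
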